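import Pool.Agent.LibZD69.A3

set_option autoImplicit false

namespace Pool.Agent.LibZD69

open Pool.Agent.LibNZ69

/-! Row A4 (MEDIUM). Separation and injectivity. -/

private theorem A4_cons (b : ℕ) (w : List ℕ) :
    vec (b :: w) = ((vec w).2, (vec w).1 + b * (vec w).2) := rfl

/-- the ratio of the vector of a word with letters in `[1, a)`, `a ≥ 4` -/
theorem ratio_bounds (a : ℕ) (ha : 4 ≤ a) (w : List ℕ) (hw : ∀ x ∈ w, 1 ≤ x ∧ x < a) :
    (vec w).2 ≤ a * (vec w).1 ∧ ((a : ℤ) + 1) * (vec w).1 ≤ a * (vec w).2 := by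
  have ha' : (4 : ℤ) ≤ a := by exact_mod_cast ha
  induction w with
  | nil =>
    have h : vec [] = (1, 2) := rfl
    rw [h]
    constructor
    · simp only; linarith
    · simp only; linarith
  | cons b w ih =>
    have hw' : ∀ x ∈ w, 1 ≤ x ∧ x < a := fun x hx => hw x (List.mem_cons_of_mem _ hx)
    have hb := hw b (List.mem_cons_self ..)
    have hb1 : (1 : ℤ) ≤ b := by exact_mod_cast hb.1
    have hb2 : (b : ℤ) + 1 ≤ a := by exact_mod_cast hb.2
    obtain ⟨h1, h2⟩ := ih hw'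
    obtain ⟨h3, h4, -, -, -⟩ := vec_bounds w (fun x hx => (hw' x hx).1)
    have hy : 0 < (vec w).2 := lt_of_lt_of_le h3 h4
    rw [A4_cons]
    constructor
    · simp only
      have h5 : ((b : ℤ) + 1) * (vec w).2 ≤ a * (vec w).2 := mul_le_mul_of_nonneg_right hb2 hy.le
      linarith
    · simp only
      have h5 : (1 : ℤ) * (vec w).2 ≤ b * (vec w).2 := mul_le_mul_of_nonneg_right hb1 hy.le
      have h6 : (a : ℤ) * (1 * (vec w).2) ≤ a * (b * (vec w).2) :=
        mul_le_mul_of_nonneg_left h5 (by linarith)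
      rw [mul_add]
      linarith

private theorem A4_kk (a : ℕ) (b : ℕ) (w : List ℕ) (hw : ∀ x ∈ b :: w, 1 ≤ x ∧ x < a) :
    2 * (kk (b :: w) : ℤ) ≤ a * (vec w).2 := by
  have hw' : ∀ x ∈ w, 1 ≤ x := fun x hx => (hw x (List.mem_cons_of_mem _ hx)).1
  have hb := hw b (List.mem_cons_self ..)
  have h1 : kk (b :: w) ≤ (b + 1) * kk w := kk_cons_le b w hw'
  have h2 : (b + 1) * kk w ≤ a * kk w := Nat.mul_le_mul_right _ hb.2
  have h3 : ((kk (b :: w) : ℕ) : ℤ) ≤ a * kk w := by exact_mod_cast h1.trans h2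
  obtain ⟨-, -, -, h4, -⟩ := vec_bounds w hw'
  have h5 : (a : ℤ) * (2 * (kk w : ℤ)) ≤ a * (vec w).2 :=
    mul_le_mul_of_nonneg_left h4 (by positivity)
  linarith

private theorem A4_core (a : ℤ) (ha : 0 ≤ a) (x y x' y' b b' : ℤ) (hx : 0 < x) (hy : 0 < y)
    (hy' : 0 < y') (h2 : (a + 1) * x ≤ a * y) (h3 : y' ≤ a * x')
    (hb : b < b') : y * y' ≤ a * (y * (x' + b' * y') - (x + b * y) * y') := by
  have hyy : 0 < y * y' := mul_pos hy hy'
  have h4 : (1 : ℤ) * (y * y') ≤ (b' - b) * (y * y') :=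
    mul_le_mul_of_nonneg_right (by linarith) hyy.le
  have h5 : a * (1 * (y * y')) ≤ a * ((b' - b) * (y * y')) := mul_le_mul_of_nonneg_left h4 ha
  have h6 : y * y' ≤ y * (a * x') := mul_le_mul_of_nonneg_left h3 hy.le
  have h7 : a * x ≤ a * y := by linarith
  have h8 : a * x * y' ≤ a * y * y' := mul_le_mul_of_nonneg_right h7 hy'.le
  have h9 : a * (y * (x' + b' * y') - (x + b * y) * y') =
      y * (a * x') - a * x * y' + a * ((b' - b) * (y * y')) := by ring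
  rw [h9]
  have h10 : a * y * y' = a * (1 * (y * y')) := by ring
  linarith

private theorem A4_symm (x y : ℤ × ℤ) : |wdg x y| = |wdg y x| := by
  have h : wdg x y = -wdg y x := by simp only [wdg]; ring
  rw [h, abs_neg]

private theorem A4_lt (a : ℕ) (ha : 4 ≤ a) (b b' : ℕ) (u u' : List ℕ)
    (hw : ∀ x ∈ b :: u, 1 ≤ x ∧ x < a) (hw' : ∀ x ∈ b' :: u', 1 ≤ x ∧ x < a) (h : b < b') :
    ((kk (b :: u) : ℤ) * kk (b' :: u')) ≤ (a : ℤ) ^ 4 * |wdg (vec (b :: u)) (vec (b' :: u'))| := by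
  have ha' : (4 : ℤ) ≤ a := by exact_mod_cast ha
  have hu : ∀ x ∈ u, 1 ≤ x ∧ x < a := fun x hx => hw x (List.mem_cons_of_mem _ hx)
  have hu' : ∀ x ∈ u', 1 ≤ x ∧ x < a := fun x hx => hw' x (List.mem_cons_of_mem _ hx)
  obtain ⟨h1, h2⟩ := ratio_bounds a ha u hu
  obtain ⟨h1', h2'⟩ := ratio_bounds a ha u' hu'
  obtain ⟨h3, h4, -, -, -⟩ := vec_bounds u (fun x hx => (hu x hx).1)
  obtain ⟨h3', h4', -, -, -⟩ := vec_bounds u' (fun x hx => (hu' x hx).1)
  have hy : 0 < (vec u).2 := lt_of_lt_of_le h3 h4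
  have hy' : 0 < (vec u').2 := lt_of_lt_of_le h3' h4'
  have hc := A4_core (a : ℤ) (by linarith) (vec u).1 (vec u).2 (vec u').1 (vec u').2 b b'
    h3 hy hy' h2 h1' (by exact_mod_cast h)
  have hk := A4_kk a b u hw
  have hk' := A4_kk a b' u' hw'
  have hwd : wdg (vec (b :: u)) (vec (b' :: u')) =
      (vec u).2 * ((vec u').1 + b' * (vec u').2) - ((vec u).1 + b * (vec u).2) * (vec u').2 := by
    rw [A4_cons, A4_cons]; rfl
  rw [← hwd] at hc
  have hc2 : (vec u).2 * (vec u').2 ≤ a * |wdg (vec (b :: u)) (vec (b' :: u'))| :=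
    hc.trans (mul_le_mul_of_nonneg_left (le_abs_self _) (by linarith))
  set W : ℤ := |wdg (vec (b :: u)) (vec (b' :: u'))| with hWdef
  have hW : 0 ≤ W := abs_nonneg _
  have h5 : (2 * (kk (b :: u) : ℤ)) * (2 * (kk (b' :: u') : ℤ)) ≤
      (a * (vec u).2) * (a * (vec u').2) :=
    mul_le_mul hk hk' (by positivity) (by positivity)
  have h6 : (a * (vec u).2) * (a * (vec u').2) = (a : ℤ) ^ 2 * ((vec u).2 * (vec u').2) := by ring
  have h7 : (a : ℤ) ^ 2 * ((vec u).2 * (vec u').2) ≤ (a : ℤ) ^ 2 * (a * W) :=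
    mul_le_mul_of_nonneg_left hc2 (by positivity)
  have h8 : (a : ℤ) ^ 2 * (a * W) ≤ (a : ℤ) ^ 4 * W := by
    have h9 : (a : ℤ) ^ 3 * 1 ≤ (a : ℤ) ^ 3 * a := mul_le_mul_of_nonneg_left (by linarith)
      (by positivity)
    calc (a : ℤ) ^ 2 * (a * W) = ((a : ℤ) ^ 3 * 1) * W := by ring
      _ ≤ ((a : ℤ) ^ 3 * a) * W := mul_le_mul_of_nonneg_right h9 hW
      _ = (a : ℤ) ^ 4 * W := by ring
  have h10 : (0 : ℤ) ≤ (kk (b :: u) : ℤ) * kk (b' :: u') := by positivity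
  linarith

private theorem A4_nil (a : ℕ) (ha : 4 ≤ a) (b : ℕ) (u : List ℕ)
    (hw : ∀ x ∈ b :: u, 1 ≤ x ∧ x < a) :
    ((kk [] : ℤ) * kk (b :: u)) ≤ (a : ℤ) ^ 4 * |wdg (vec []) (vec (b :: u))| := by
  have ha' : (4 : ℤ) ≤ a := by exact_mod_cast ha
  have hu : ∀ x ∈ u, 1 ≤ x ∧ x < a := fun x hx => hw x (List.mem_cons_of_mem _ hx)
  have hb := hw b (List.mem_cons_self ..)
  obtain ⟨h1, h2⟩ := ratio_bounds a ha u hu
  obtain ⟨h3, h4, -, -, -⟩ := vec_bounds u (fun x hx => (hu x hx).1)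
  have hy : 0 < (vec u).2 := lt_of_lt_of_le h3 h4
  have hk := A4_kk a b u hw
  have hwd : wdg (vec []) (vec (b :: u)) = (vec u).1 + ((b : ℤ) - 2) * (vec u).2 := by
    rw [A4_cons]
    have h : vec [] = (1, 2) := rfl
    rw [h]; simp only [wdg]; ring
  have key : (vec u).2 ≤ ((a : ℤ) + 1) * |wdg (vec []) (vec (b :: u))| := by
    rw [hwd]
    rcases Nat.lt_trichotomy b 2 with hb2 | hb2 | hb2
    · have hb1 : b = 1 := by omega
      subst hb1
      have h5 : (vec u).2 - (vec u).1 ≤ |(vec u).1 + (((1 : ℕ) : ℤ) - 2) * (vec u).2| := by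
        have := neg_le_abs ((vec u).1 + (((1 : ℕ) : ℤ) - 2) * (vec u).2)
        push_cast at this ⊢
        linarith
      have h6 := mul_le_mul_of_nonneg_left h5 (by linarith : (0 : ℤ) ≤ (a : ℤ) + 1)
      have h7 : ((a : ℤ) + 1) * ((vec u).2 - (vec u).1) =
        ((a : ℤ) + 1) * (vec u).2 - ((a : ℤ) + 1) * (vec u).1 := by ring
      have h8 : ((a : ℤ) + 1) * (vec u).2 = a * (vec u).2 + (vec u).2 := by ring
      linarith
    · subst hb2
      have h5 : (vec u).1 ≤ |(vec u).1 + (((2 : ℕ) : ℤ) - 2) * (vec u).2| := by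
        have := le_abs_self ((vec u).1 + (((2 : ℕ) : ℤ) - 2) * (vec u).2)
        push_cast at this ⊢
        linarith
      have h6 := mul_le_mul_of_nonneg_left h5 (by linarith : (0 : ℤ) ≤ (a : ℤ) + 1)
      have h7 : ((a : ℤ) + 1) * (vec u).1 = a * (vec u).1 + (vec u).1 := by ring
      linarith
    · have hb3 : (3 : ℤ) ≤ b := by exact_mod_cast hb2
      have h5 : (vec u).2 ≤ |(vec u).1 + ((b : ℤ) - 2) * (vec u).2| := by
        have h9 := le_abs_self ((vec u).1 + ((b : ℤ) - 2) * (vec u).2)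
        have h10 : (1 : ℤ) * (vec u).2 ≤ ((b : ℤ) - 2) * (vec u).2 :=
          mul_le_mul_of_nonneg_right (by linarith) hy.le
        linarith
      have h6 := mul_le_mul_of_nonneg_left h5 (by linarith : (0 : ℤ) ≤ (a : ℤ) + 1)
      have h7 : ((a : ℤ) + 1) * (vec u).2 = a * (vec u).2 + (vec u).2 := by ring
      have h8 : (0 : ℤ) ≤ a * (vec u).2 := by positivity
      linarith
  set W : ℤ := |wdg (vec []) (vec (b :: u))| with hWdef
  have hW : 0 ≤ W := abs_nonneg _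
  have hk0 : ((kk [] : ℕ) : ℤ) = 1 := by rw [kk_nil]; rfl
  rw [hk0, one_mul]
  have h5 : (a : ℤ) * (vec u).2 ≤ a * (((a : ℤ) + 1) * W) :=
    mul_le_mul_of_nonneg_left key (by linarith)
  have h6 : (a : ℤ) * (((a : ℤ) + 1) * W) ≤ 2 * ((a : ℤ) ^ 4 * W) := by
    have h7 : (a : ℤ) * (a + 1) ≤ 2 * (a : ℤ) ^ 4 := by
      have h8 : (a : ℤ) ^ 2 * 1 ≤ (a : ℤ) ^ 2 * (a : ℤ) ^ 2 :=
        mul_le_mul_of_nonneg_left (one_le_pow₀ (by linarith)) (by positivity)
      nlinarith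
    calc (a : ℤ) * (((a : ℤ) + 1) * W) = ((a : ℤ) * (a + 1)) * W := by ring
      _ ≤ (2 * (a : ℤ) ^ 4) * W := mul_le_mul_of_nonneg_right h7 hW
      _ = 2 * ((a : ℤ) ^ 4 * W) := by ring
  linarith

/-- Two words (of any lengths) with different first letters, one of them possibly empty. With
`θ = (vec w).1 / (vec w).2 ∈ [1/a, a/(a+1)]` the ratio of `b :: w` is `1/(b+θ)`, that of `[]` is `1/2`.
For `b < b'` the difference is at least `(1 + 1/a - a/(a+1))/a²≥ 1/a³`; for `[]` and `b :: w` it is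
`|b + θ - 2| / (2 (b + θ)) ≥ 1/a³`. And `|wdg| = v₂ v₂' |difference|`, `v₂ ≥ 2 kk`. -/
theorem sep0 (a : ℕ) (ha : 4 ≤ a) (w w' : List ℕ) (hw : ∀ x ∈ w, 1 ≤ x ∧ x < a)
    (hw' : ∀ x ∈ w', 1 ≤ x ∧ x < a) (h : w.head? ≠ w'.head?) :
    ((kk w : ℤ) * kk w') ≤ (a : ℤ) ^ 4 * |wdg (vec w) (vec w')| := by
  cases w with
  | nil =>
    cases w' with
    | nil => exact absurd rfl h
    | cons b' u' => exact A4_nil a ha b' u' hw'
  | cons b u =>
    cases w' with
    | nil =>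
      rw [A4_symm, mul_comm (kk (b :: u) : ℤ)]
      exact A4_nil a ha b u hw
    | cons b' u' =>
      have hbb : b ≠ b' := by
        intro h0
        apply h
        rw [h0]
        rfl
      rcases Nat.lt_or_gt_of_ne hbb with h1 | h1
      · exact A4_lt a ha b b' u u' hw hw' h1
      · rw [A4_symm, mul_comm (kk (b :: u) : ℤ)]
        exact A4_lt a ha b' b u' u hw' hw h1

/-- longest common prefix -/
theorem lcp (w w' : List ℕ) (h : w ≠ w') : ∃ p u u', w = p ++ u ∧ w' = p ++ u' ∧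
    u.head? ≠ u'.head? := by
  induction w generalizing w' with
  | nil =>
    cases w' with
    | nil => exact absurd rfl h
    | cons b' u' => exact ⟨[], [], b' :: u', rfl, rfl, by simp⟩
  | cons b u ih =>
    cases w' with
    | nil => exact ⟨[], b :: u, [], rfl, rfl, by simp⟩
    | cons b' u' =>
      by_cases hbb : b = b'
      · subst hbb
        have h1 : u ≠ u' := fun h0 => h (by rw [h0])
        obtain ⟨p, v, v', e1, e2, e3⟩ := ih u' h1
        exact ⟨b :: p, v, v', by rw [e1]; rfl, by rw [e2]; rfl, e3⟩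
      · refine ⟨[], b :: u, b' :: u', rfl, rfl, ?_⟩
        intro h0
        apply hbb
        simpa using h0

theorem wdg_prefix (p u u' : List ℕ) :
    |wdg (vec (p ++ u)) (vec (p ++ u'))| = |wdg (vec u) (vec u')| := by
  simp only [vec, act_append]
  exact abs_wdg_act p _ _

theorem dvd_wdg_prefix (q : ℤ) (p u u' : List ℕ) :
    q ∣ wdg (vec (p ++ u)) (vec (p ++ u')) ↔ q ∣ wdg (vec u) (vec u') := by
  simp only [vec, act_append]
  exact dvd_wdg_act q p _ _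

theorem vec_inj (a : ℕ) (ha : 4 ≤ a) (w w' : List ℕ) (hw : ∀ x ∈ w, 1 ≤ x ∧ x < a)
    (hw' : ∀ x ∈ w', 1 ≤ x ∧ x < a) (h : wdg (vec w) (vec w') = 0) : w = w' := by
  by_contra hne
  obtain ⟨p, u, u', e1, e2, e3⟩ := lcp w w' hne
  subst e1 e2
  have hu : ∀ x ∈ u, 1 ≤ x ∧ x < a := fun x hx => hw x (List.mem_append_right _ hx)
  have hu' : ∀ x ∈ u', 1 ≤ x ∧ x < a := fun x hx => hw' x (List.mem_append_right _ hx)
  have h1 := sep0 a ha u u' hu hu' e3
  rw [← wdg_prefix p, h, abs_zero, mul_zero] at h1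
  have h2 : (1 : ℤ) ≤ kk u := by exact_mod_cast kk_pos u (fun x hx => (hu x hx).1)
  have h3 : (1 : ℤ) ≤ kk u' := by exact_mod_cast kk_pos u' (fun x hx => (hu' x hx).1)
  have h4 : (0 : ℤ) < (kk u : ℤ) * kk u' := mul_pos (by linarith) (by linarith)
  linarith

end Pool.Agent.LibZD69
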