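import Pool.Agent.LibZD69.A2

set_option autoImplicit false

namespace Pool.Agent.LibZD69

open Pool.Agent.LibNZ69

/-! Row B0 (SHORT). Sums over the words of length `n`. -/

theorem wl_zero (A : Finset ℕ) : wd (Pool.Agent.LibNW69.letters A) 0 = {[]} := rfl

theorem wl_sum_succ (A : Finset ℕ) {R : Type*} [AddCommMonoid R] (n : ℕ) (f : List ℕ → R) :
    ∑ w ∈ wd (Pool.Agent.LibNW69.letters A) (n + 1), f w =
      ∑ x ∈ A, ∑ w ∈ wd (Pool.Agent.LibNW69.letters A) n, f (x :: w) := by
  rw [← Finset.sum_product']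
  symm
  refine Finset.sum_bij (fun p _ => p.1 :: p.2) ?_ ?_ ?_ ?_
  · rintro ⟨x, w⟩ hp
    rw [Finset.mem_product] at hp
    rw [Pool.Agent.LibNW69.mem_wd_letters]
    have h2 := (Pool.Agent.LibNW69.mem_wd_letters _ _ _).1 hp.2
    refine ⟨by simp [h2.1], ?_⟩
    intro y hy
    rcases List.mem_cons.1 hy with rfl | hy
    · exact hp.1
    · exact h2.2 y hy
  · rintro ⟨x, w⟩ _ ⟨x', w'⟩ _ h
    simp only [List.cons.injEq] at h
    exact Prod.ext h.1 h.2
  · intro w hw
    have h2 := (Pool.Agent.LibNW69.mem_wd_letters _ _ _).1 hw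
    cases w with
    | nil => simp at h2
    | cons x w =>
      refine ⟨(x, w), ?_, rfl⟩
      rw [Finset.mem_product]
      refine ⟨h2.2 x List.mem_cons_self, ?_⟩
      rw [Pool.Agent.LibNW69.mem_wd_letters]
      exact ⟨by simpa using h2.1, fun y hy => h2.2 y (List.mem_cons_of_mem _ hy)⟩
  · rintro ⟨x, w⟩ _
    rfl

theorem wl_sum_add (A : Finset ℕ) {R : Type*} [AddCommMonoid R] (m n : ℕ) (f : List ℕ → R) :
    ∑ w ∈ wd (Pool.Agent.LibNW69.letters A) (m + n), f w =
      ∑ u ∈ wd (Pool.Agent.LibNW69.letters A) m, ∑ w ∈ wd (Pool.Agent.LibNW69.letters A) n,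
        f (u ++ w) := by
  induction m generalizing f with
  | zero =>
    rw [wl_zero, Finset.sum_singleton, Nat.zero_add]
    simp only [List.nil_append]
  | succ m ih =>
    have h1 : m + 1 + n = (m + n) + 1 := by omega
    rw [h1, wl_sum_succ, wl_sum_succ]
    refine Finset.sum_congr rfl fun x _ => ?_
    rw [ih (fun w => f (x :: w))]
    rfl

end Pool.Agent.LibZD69
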