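import Pool.Agent.LibZD69.B1

set_option autoImplicit false

namespace Pool.Agent.LibZD69

open Pool.Agent.LibNZ69

private theorem B2_zero (A : Finset ℕ) (t : ℝ) : ZZ A t 0 = 1 := by
  unfold ZZ
  rw [wl_zero, Finset.sum_singleton, kk_nil]
  simp

private theorem B2_two (A : Finset ℕ) (hA : ∀ x ∈ A, 1 ≤ x) (t : ℝ) (ht : 0 ≤ t) :
    ZZ A t 2 ≤ ((A.card * A.card : ℕ) : ℝ) * (2 : ℝ) ^ (-t) := by
  have h1 : ZZ A t 2 = ∑ x ∈ A, ∑ y ∈ A, (kk [x, y] : ℝ) ^ (-t) := by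
    unfold ZZ
    rw [show (2 : ℕ) = 1 + 1 from rfl, wl_sum_succ]
    refine Finset.sum_congr rfl (fun x _ => ?_)
    rw [show (1 : ℕ) = 0 + 1 from rfl, wl_sum_succ]
    refine Finset.sum_congr rfl (fun y _ => ?_)
    rw [wl_zero, Finset.sum_singleton]
  rw [h1]
  have h2 : ∀ x ∈ A, ∑ y ∈ A, (kk [x, y] : ℝ) ^ (-t) ≤ (A.card : ℝ) * (2 : ℝ) ^ (-t) := by
    intro x hx
    rw [← nsmul_eq_mul]
    refine Finset.sum_le_card_nsmul _ _ _ (fun y hy => ?_)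
    have hxy : 2 ≤ kk [x, y] := by
      have e : kk [x, y] = x * y + 1 := by
        show x * (y * 1 + 0) + 1 = x * y + 1
        ring
      rw [e]
      have := Nat.mul_le_mul (hA x hx) (hA y hy)
      omega
    have hxy' : (2 : ℝ) ≤ (kk [x, y] : ℝ) := by exact_mod_cast hxy
    exact Real.rpow_le_rpow_of_nonpos (by norm_num) hxy' (by linarith)
  calc ∑ x ∈ A, ∑ y ∈ A, (kk [x, y] : ℝ) ^ (-t)
      ≤ ∑ x ∈ A, (A.card : ℝ) * (2 : ℝ) ^ (-t) := Finset.sum_le_sum h2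
    _ = ((A.card * A.card : ℕ) : ℝ) * (2 : ℝ) ^ (-t) := by
        rw [Finset.sum_const, nsmul_eq_mul]
        push_cast
        ring

private theorem B2_bound (A : Finset ℕ) (hA : ∀ x ∈ A, 1 ≤ x) :
    ∃ T : ℝ, 0 ≤ T ∧ ZZ A T 2 < 1 := by
  obtain ⟨k, hk⟩ := pow_unbounded_of_one_lt ((A.card * A.card : ℕ) : ℝ) (one_lt_two (α := ℝ))
  refine ⟨k, Nat.cast_nonneg k, lt_of_le_of_lt (B2_two A hA k (Nat.cast_nonneg k)) ?_⟩
  rw [Real.rpow_neg (by norm_num), Real.rpow_natCast, ← div_eq_mul_inv,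
    div_lt_one (by positivity)]
  exact hk

private theorem B2_pow_le (A : Finset ℕ) (hA : ∀ x ∈ A, 1 ≤ x) (hne : A.Nonempty) (t : ℝ)
    (ht : 0 ≤ t) (m : ℕ) (k : ℕ) : ZZ A t (k * m) ≤ (ZZ A t m) ^ k := by
  induction k with
  | zero => rw [Nat.zero_mul, B2_zero, pow_zero]
  | succ k ih =>
    rw [Nat.succ_mul, pow_succ]
    exact (ZZ_add_le A hA t ht (k * m) m).trans
      (mul_le_mul_of_nonneg_right ih (ZZ_pos A hA hne t m).le)

private theorem B2_le_pow (A : Finset ℕ) (hA : ∀ x ∈ A, 1 ≤ x) (hne : A.Nonempty) (t : ℝ)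
    (ht : 0 ≤ t) (m : ℕ) (k : ℕ) : (ZZ A t m / (2 : ℝ) ^ t) ^ k ≤ ZZ A t (k * m) := by
  have h2 : (0 : ℝ) < (2 : ℝ) ^ t := Real.rpow_pos_of_pos (by norm_num) t
  have hm := ZZ_pos A hA hne t m
  induction k with
  | zero => rw [Nat.zero_mul, B2_zero, pow_zero]
  | succ k ih =>
    rw [Nat.succ_mul, pow_succ]
    have h3 := le_ZZ_add A hA t ht (k * m) m
    have h4 : (ZZ A t m / (2 : ℝ) ^ t) ^ k * (ZZ A t m / (2 : ℝ) ^ t) ≤
        ZZ A t (k * m) * (ZZ A t m / (2 : ℝ) ^ t) :=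
      mul_le_mul_of_nonneg_right ih (by positivity)
    refine h4.trans ?_
    rw [← mul_div_assoc, div_le_iff₀ h2, mul_comm (ZZ A t (k * m + m))]
    exact h3

/-- Row B2 (MEDIUM). The exact exponent. `G = {t ≥ 0 : ∀ n, 1 ≤ ZZ A t n}` is closed
(`ZZ_continuous`), contains `0` (`ZZ A 0 n = |A|^n`), and is bounded above: `kk w ≥ 2` for `|w| = 2`, so
`ZZ A t 2 ≤ |A|² 2^(-t) < 1` for large `t`. Let `s = max G`. If `ZZ A s m > 2^s` for some `m` then (`m ≥ 1`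
and) by continuity there is `t > s` with `ZZ A t m > 2^t`; by `le_ZZ_add`
`ZZ A t (k m) ≥ 2^t (2^(-t) ZZ A t m)^k → ∞` (induction on `k`), so `ZZ A t n ≥ 1` for all `n` (otherwise
`ZZ A t (n m k) ≤ (ZZ A t n)^(m k) ≤ 1` for all `k` by `ZZ_add_le`), i.e. `t ∈ G`, a contradiction. -/
theorem exists_bowen (A : Finset ℕ) (hA : ∀ x ∈ A, 1 ≤ x) (hne : A.Nonempty) :
    ∃ s : ℝ, 0 ≤ s ∧ (∀ n, 1 ≤ ZZ A s n) ∧ (∀ n, ZZ A s n ≤ (2 : ℝ) ^ s) ∧
      ∀ t : ℝ, (∀ n, 1 ≤ ZZ A t n) → t ≤ s := by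
  obtain ⟨T, hT0, hT⟩ := B2_bound A hA
  set G : Set ℝ := {t | 0 ≤ t ∧ ∀ n, 1 ≤ ZZ A t n} with hG
  have hbdd : ∀ t, (∀ n, 1 ≤ ZZ A t n) → t ≤ T := by
    intro t ht
    by_contra hlt
    have h1 := ZZ_anti A hA (not_le.1 hlt).le 2
    have h2 := ht 2
    linarith
  have hGb : BddAbove G := ⟨T, fun t ht => hbdd t ht.2⟩
  have h0 : (0 : ℝ) ∈ G := by
    refine ⟨le_refl _, fun n => ?_⟩
    have hp := ZZ_pos A hA hne 0 n
    have hc : ZZ A 0 n = ((wd (Pool.Agent.LibNW69.letters A) n).card : ℝ) := by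
      unfold ZZ
      simp
    rw [hc] at hp ⊢
    have : 0 < (wd (Pool.Agent.LibNW69.letters A) n).card := by exact_mod_cast hp
    exact_mod_cast this
  have hGc : IsClosed G := by
    have e : G = Set.Ici (0 : ℝ) ∩ ⋂ n : ℕ, {t : ℝ | 1 ≤ ZZ A t n} := by
      ext t
      simp [hG]
    rw [e]
    exact isClosed_Ici.inter (isClosed_iInter fun n =>
      isClosed_le continuous_const (ZZ_continuous A hA n))
  have hs : sSup G ∈ G := hGc.csSup_mem ⟨0, h0⟩ hGb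
  refine ⟨sSup G, hs.1, hs.2, ?_, ?_⟩
  · intro m
    by_contra hlt
    have hlt' : (2 : ℝ) ^ (sSup G) < ZZ A (sSup G) m := not_le.1 hlt
    have hcont : Continuous (fun t : ℝ => ZZ A t m - (2 : ℝ) ^ t) :=
      (ZZ_continuous A hA m).sub
        (Real.continuous_const_rpow (by norm_num))
    have hopen : IsOpen {t : ℝ | 0 < ZZ A t m - (2 : ℝ) ^ t} := isOpen_lt continuous_const hcont
    have hmem : sSup G ∈ {t : ℝ | 0 < ZZ A t m - (2 : ℝ) ^ t} := sub_pos.2 hlt'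
    obtain ⟨ε, hε, hball⟩ := Metric.isOpen_iff.1 hopen _ hmem
    set t : ℝ := sSup G + ε / 2 with ht
    have hts : sSup G < t := by rw [ht]; linarith
    have ht0 : 0 ≤ t := hs.1.trans hts.le
    have htm : 0 < ZZ A t m - (2 : ℝ) ^ t := by
      apply hball
      rw [Metric.mem_ball, Real.dist_eq, ht, add_sub_cancel_left, abs_of_pos (by linarith)]
      linarith
    have h2 : (0 : ℝ) < (2 : ℝ) ^ t := Real.rpow_pos_of_pos (by norm_num) t
    have hρ : 1 < ZZ A t m / (2 : ℝ) ^ t := by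
      rw [one_lt_div h2]
      linarith
    have htG : t ∈ G := by
      refine ⟨ht0, fun n => ?_⟩
      by_contra hn
      have hn' : ZZ A t n < 1 := not_le.1 hn
      have hn0 : n ≠ 0 := by
        rintro rfl
        rw [B2_zero] at hn'
        exact lt_irrefl _ hn'
      have a1 := B2_le_pow A hA hne t ht0 m n
      have a2 := B2_pow_le A hA hne t ht0 n m
      rw [mul_comm m n] at a2
      have a3 : 1 < (ZZ A t m / (2 : ℝ) ^ t) ^ n := one_lt_pow₀ hρ hn0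
      have a4 : (ZZ A t n) ^ m ≤ 1 := pow_le_one₀ (ZZ_pos A hA hne t n).le hn'.le
      linarith
    exact absurd (le_csSup hGb htG) (not_le.2 hts)
  · intro t ht
    by_cases h : 0 ≤ t
    · exact le_csSup hGb ⟨h, ht⟩
    · exact (not_le.1 h).le.trans hs.1

end Pool.Agent.LibZD69
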