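import Pool.Agent.LibZD69.B1

set_option autoImplicit false

namespace Pool.Agent.LibZD69

open Pool.Agent.LibNZ69

/-- Row B4a (SHORT). At most three suffixes of one word have `kk` in `(P/2, P]`, i.e. among four
different suffixes of `z` the longest has `kk` at least twice the `kk` of the shortest (`kk_double`). -/
theorem card_suffix_le (z : List ℕ) (hz : ∀ x ∈ z, 1 ≤ x) (P : ℕ) :
    ((z.tails.toFinset).filter (fun v => P < 2 * kk v ∧ kk v ≤ P)).card ≤ 3 := by
  classical
  set S := (z.tails.toFinset).filter (fun v => P < 2 * kk v ∧ kk v ≤ P) with hS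
  rcases S.eq_empty_or_nonempty with h0 | h0
  · rw [h0]; simp
  · obtain ⟨v0, hv0, hmin⟩ := S.exists_min_image List.length h0
    have hmem : ∀ v ∈ S, v <:+ z ∧ P < 2 * kk v ∧ kk v ≤ P := by
      intro v hv
      rw [hS, Finset.mem_filter, List.mem_toFinset, List.mem_tails] at hv
      exact hv
    have hle : S.card ≤ (Finset.Icc v0.length (v0.length + 1)).card := by
      refine Finset.card_le_card_of_injOn List.length ?_ ?_
      · intro v hv
        have hv' : v ∈ S := hv
        rw [Finset.mem_coe, Finset.mem_Icc]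
        refine ⟨hmin v hv', ?_⟩
        by_contra hcon
        push Not at hcon
        obtain ⟨hvz, hv1, hv2⟩ := hmem v hv'
        obtain ⟨hv0z, hv01, hv02⟩ := hmem v0 hv0
        match v, hvz, hv2, hcon with
        | [], _, _, hcon => simp at hcon
        | [x], _, _, hcon => simp at hcon
        | x :: y :: w, hvz, hv2, hcon =>
          have hwz : w <:+ z := by
            refine List.IsSuffix.trans ?_ hvz
            exact ⟨[x, y], rfl⟩
          have hlen : v0.length ≤ w.length := by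
            simp only [List.length_cons] at hcon
            omega
          have hv0w : v0 <:+ w := List.suffix_of_suffix_length_le hv0z hwz hlen
          obtain ⟨u, hu⟩ := hv0w
          have hpos : ∀ t ∈ x :: y :: w, 1 ≤ t := fun t ht => hz t (hvz.subset ht)
          have hd := kk_double x y w hpos
          have hs : kk v0 ≤ kk w := by
            have := kk_suffix_le u v0 (by
              intro t ht
              rw [hu] at ht
              exact hz t (hwz.subset ht))
            rwa [hu] at this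
          omega
      · intro v hv w hw hvw
        have hv' := hmem v hv
        have hw' := hmem w hw
        have h1 : v <:+ w := List.suffix_of_suffix_length_le hv'.1 hw'.1 (le_of_eq hvw)
        exact h1.eq_of_length hvw
    have hc : (Finset.Icc v0.length (v0.length + 1)).card = 2 := by
      rw [Nat.card_Icc]; omega
    omega

/-- Row B4b (SHORT/MEDIUM). The number of the suffixes with `kk` in `[X, D X]`: sum of `card_suffix_le`
over dyadic ranges (`D ≤ 2^D`), a crude bound. -/
theorem card_suffix_le' (z : List ℕ) (hz : ∀ x ∈ z, 1 ≤ x) (X D : ℕ) (hX : 1 ≤ X) (hD : 1 ≤ D) :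
    ((z.tails.toFinset).filter (fun v => X ≤ kk v ∧ kk v ≤ D * X)).card ≤ 3 * (D + 1) := by
  classical
  have hsub : (z.tails.toFinset).filter (fun v => X ≤ kk v ∧ kk v ≤ D * X) ⊆
      (Finset.range (D + 1)).biUnion (fun j => (z.tails.toFinset).filter
        (fun v => X * 2 ^ (j + 1) - 1 < 2 * kk v ∧ kk v ≤ X * 2 ^ (j + 1) - 1)) := by
    intro v hv
    rw [Finset.mem_filter] at hv
    obtain ⟨hvz, h1, h2⟩ := hv
    have hq1 : 1 ≤ kk v / X := (Nat.one_le_div_iff hX).2 h1
    have hqD : kk v / X ≤ D := by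
      calc kk v / X ≤ D * X / X := Nat.div_le_div_right h2
        _ = D := Nat.mul_div_cancel _ hX
    set j := Nat.log 2 (kk v / X) with hj
    have hj1 : 2 ^ j ≤ kk v / X := Nat.pow_log_le_self 2 (by omega)
    have hj2 : kk v / X < 2 ^ (j + 1) := Nat.lt_pow_succ_log_self (by norm_num) _
    have hjD : j < D := by
      have h3 : 2 ^ j < 2 ^ D := lt_of_le_of_lt (hj1.trans hqD) Nat.lt_two_pow_self
      exact (Nat.pow_lt_pow_iff_right (by norm_num)).1 h3
    have h4 : X * 2 ^ j ≤ kk v := by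
      calc X * 2 ^ j ≤ X * (kk v / X) := Nat.mul_le_mul_left _ hj1
        _ ≤ kk v := Nat.mul_div_le _ _
    have h5 : kk v < X * 2 ^ (j + 1) := by
      have := (Nat.div_lt_iff_lt_mul hX).1 hj2
      rw [mul_comm]; exact this
    have h6 : X * 2 ^ (j + 1) = 2 * (X * 2 ^ j) := by rw [pow_succ]; ring
    rw [Finset.mem_biUnion]
    refine ⟨j, Finset.mem_range.2 (by omega), ?_⟩
    rw [Finset.mem_filter]
    refine ⟨hvz, ?_, ?_⟩ <;> omega
  calc ((z.tails.toFinset).filter (fun v => X ≤ kk v ∧ kk v ≤ D * X)).card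
      ≤ _ := Finset.card_le_card hsub
    _ ≤ ∑ j ∈ Finset.range (D + 1), ((z.tails.toFinset).filter
        (fun v => X * 2 ^ (j + 1) - 1 < 2 * kk v ∧ kk v ≤ X * 2 ^ (j + 1) - 1)).card :=
          Finset.card_biUnion_le
    _ ≤ ∑ j ∈ Finset.range (D + 1), 3 := Finset.sum_le_sum (fun j _ => card_suffix_le z hz _)
    _ = 3 * (D + 1) := by rw [Finset.sum_const, Finset.card_range, smul_eq_mul, mul_comm]

private theorem B4_top {A : Finset ℕ} {a : ℕ} {s : ℝ} (hp : PB A a s) (P : ℕ) (hP : 1 ≤ P) :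
    (((wP A P).filter (fun w => P < 2 * kk w)).card : ℝ) ≤ 48 * (P : ℝ) ^ s := by
  classical
  have hA : ∀ x ∈ A, 1 ≤ x := fun x hx => (hp.dig x hx).1
  have hs0 : 0 ≤ s := by linarith [hp.s1]
  have hPR : (0 : ℝ) < (P : ℝ) := by exact_mod_cast hP
  set S := (wP A P).filter (fun w => P < 2 * kk w) with hS
  have hmem : ∀ w ∈ S, WA A w ∧ kk w ≤ P ∧ P < 2 * kk w := by
    intro w hw
    rw [hS, Finset.mem_filter, mem_wP hA] at hw
    exact ⟨hw.1.1, hw.1.2, hw.2⟩
  have hpos : ∀ w : List ℕ, WA A w → ∀ x ∈ w, 1 ≤ x := fun w hw x hx => hA x (hw x hx)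
  set f : List ℕ → ℝ := fun z => (kk z : ℝ) ^ (-s) with hf
  have hf0 : ∀ z, 0 ≤ f z := fun z => Real.rpow_nonneg (Nat.cast_nonneg _) _
  have hlen : ∀ w ∈ S, w.length ≤ P := fun w hw =>
    (length_le_kk w (hpos w (hmem w hw).1)).trans (hmem w hw).2.1
  -- lower bound for each word
  have hlow : ∀ w ∈ S, (P : ℝ) ^ (-s) / 4 ≤
      ∑ y ∈ wd (Pool.Agent.LibNW69.letters A) (P - w.length), f (y ++ w) := by
    intro w hw
    obtain ⟨hw1, hw2, hw3⟩ := hmem w hw
    have h1 := le_ZZ_ext A hA s hs0 w (hpos w hw1) (P - w.length)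
    have h2 := hp.lo (P - w.length)
    have hkpos : (0 : ℝ) < (kk w : ℝ) := by
      have := kk_pos w (hpos w hw1)
      exact_mod_cast this
    have h3 : (P : ℝ) ^ (-s) ≤ (kk w : ℝ) ^ (-s) := by
      apply Real.rpow_le_rpow_of_nonpos hkpos (by exact_mod_cast hw2) (by linarith)
    have h4 : (kk w : ℝ) ^ (-s) ≤ (kk w : ℝ) ^ (-s) * ZZ A s (P - w.length) := by
      have : (0 : ℝ) ≤ (kk w : ℝ) ^ (-s) := Real.rpow_nonneg hkpos.le _
      nlinarith
    have h5 : (2 : ℝ) ^ s ≤ 4 := by
      calc (2 : ℝ) ^ s ≤ (2 : ℝ) ^ (2 : ℝ) :=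
            Real.rpow_le_rpow_of_exponent_le (by norm_num) hp.s2
        _ = 4 := by norm_num
    have h6 : 0 ≤ ∑ y ∈ wd (Pool.Agent.LibNW69.letters A) (P - w.length), f (y ++ w) :=
      Finset.sum_nonneg (fun y _ => hf0 _)
    have h7 : (2 : ℝ) ^ s *
        ∑ y ∈ wd (Pool.Agent.LibNW69.letters A) (P - w.length), (kk (y ++ w) : ℝ) ^ (-s) ≤
        4 * ∑ y ∈ wd (Pool.Agent.LibNW69.letters A) (P - w.length), f (y ++ w) :=
      mul_le_mul_of_nonneg_right h5 h6
    linarith
  -- double counting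
  set Q : Finset ((_ : List ℕ) × List ℕ) :=
    S.sigma (fun w => wd (Pool.Agent.LibNW69.letters A) (P - w.length)) with hQ
  set T := wd (Pool.Agent.LibNW69.letters A) P with hT
  let g : ((_ : List ℕ) × List ℕ) → List ℕ := fun p => p.2 ++ p.1
  have hQm : ∀ p ∈ Q, p.1 ∈ S ∧ p.2.length = P - p.1.length ∧ ∀ x ∈ p.2, x ∈ A := by
    intro p hp'
    rw [hQ, Finset.mem_sigma, Pool.Agent.LibNW69.mem_wd_letters] at hp'
    exact hp'
  have hgT : ∀ p ∈ Q, g p ∈ T := by
    intro p hp'
    obtain ⟨h1, h2, h3⟩ := hQm p hp'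
    rw [hT, Pool.Agent.LibNW69.mem_wd_letters]
    constructor
    · change (p.2 ++ p.1).length = P
      rw [List.length_append, h2]
      have := hlen p.1 h1
      omega
    · intro x hx
      have hx' : x ∈ p.2 ++ p.1 := hx
      rw [List.mem_append] at hx'
      rcases hx' with hx' | hx'
      · exact h3 x hx'
      · exact (hmem p.1 h1).1 x hx'
  have hsum : ∑ w ∈ S, ∑ y ∈ wd (Pool.Agent.LibNW69.letters A) (P - w.length), f (y ++ w) =
      ∑ p ∈ Q, f (g p) := by
    rw [hQ, Finset.sum_sigma]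
  have hfib : ∑ p ∈ Q, f (g p) = ∑ z ∈ T, ∑ p ∈ Q with g p = z, f (g p) :=
    (Finset.sum_fiberwise_of_maps_to hgT _).symm
  have hcard : ∀ z ∈ T, ((Q.filter (fun p => g p = z)).card : ℝ) ≤ 3 := by
    intro z hz
    rw [hT, Pool.Agent.LibNW69.mem_wd_letters] at hz
    have h1 := card_suffix_le z (fun x hx => hA x (hz.2 x hx)) P
    have h2 : (Q.filter (fun p => g p = z)).card ≤
        ((z.tails.toFinset).filter (fun v => P < 2 * kk v ∧ kk v ≤ P)).card := by
      refine Finset.card_le_card_of_injOn (fun p => p.1) ?_ ?_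
      · intro p hp'
        rw [Finset.mem_coe, Finset.mem_filter] at hp'
        obtain ⟨hpQ, hpz⟩ := hp'
        obtain ⟨h3, _, _⟩ := hQm p hpQ
        rw [Finset.mem_coe, Finset.mem_filter, List.mem_toFinset, List.mem_tails]
        exact ⟨⟨p.2, hpz⟩, (hmem p.1 h3).2.2, (hmem p.1 h3).2.1⟩
      · intro p hp' q hq' hpq
        rw [Finset.mem_coe, Finset.mem_filter] at hp' hq'
        obtain ⟨p1, p2⟩ := p
        obtain ⟨q1, q2⟩ := q
        have h3 : p1 = q1 := hpq
        subst h3
        have h4 : p2 ++ p1 = q2 ++ p1 := hp'.2.trans hq'.2.symm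
        rw [List.append_cancel_right h4]
    exact_mod_cast h2.trans h1
  have hup : ∑ z ∈ T, ∑ p ∈ Q with g p = z, f (g p) ≤ 12 := by
    calc ∑ z ∈ T, ∑ p ∈ Q with g p = z, f (g p) ≤ ∑ z ∈ T, 3 * f z := by
          refine Finset.sum_le_sum (fun z hz => ?_)
          have h1 : ∑ p ∈ Q with g p = z, f (g p) = ((Q.filter (fun p => g p = z)).card : ℝ) * f z := by
            rw [← nsmul_eq_mul, ← Finset.sum_const]
            refine Finset.sum_congr rfl (fun p hp' => ?_)
            rw [(Finset.mem_filter.1 hp').2]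
          rw [h1]
          exact mul_le_mul_of_nonneg_right (hcard z hz) (hf0 z)
      _ = 3 * ZZ A s P := by rw [← Finset.mul_sum]; rfl
      _ ≤ 12 := by linarith [hp.hi P]
  have htot : (S.card : ℝ) * ((P : ℝ) ^ (-s) / 4) ≤ 12 := by
    calc (S.card : ℝ) * ((P : ℝ) ^ (-s) / 4) = ∑ w ∈ S, (P : ℝ) ^ (-s) / 4 := by
          rw [Finset.sum_const, nsmul_eq_mul]
      _ ≤ ∑ w ∈ S, ∑ y ∈ wd (Pool.Agent.LibNW69.letters A) (P - w.length), f (y ++ w) :=
          Finset.sum_le_sum hlow
      _ ≤ 12 := by rw [hsum, hfib]; exact hup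
  have hPs : (0 : ℝ) < (P : ℝ) ^ s := Real.rpow_pos_of_pos hPR _
  rw [Real.rpow_neg hPR.le] at htot
  have h8 : (S.card : ℝ) * (((P : ℝ) ^ s)⁻¹ / 4) = (S.card : ℝ) / (4 * (P : ℝ) ^ s) := by
    field_simp
  rw [h8, div_le_iff₀ (by positivity)] at htot
  linarith

/-- Row B4 (MEDIUM). The number of the words with `kk w ≤ P`. For fixed `P` let `m` be larger than
all the lengths. Each `w` with `kk w ∈ (P/2, P]` has `le_ZZ_ext`:
`∑_{y, |y| = m - |w|} kk (y ++ w)^(-s) ≥ 2^(-s) kk w^(-s) ZZ ≥ P^(-s) / 4`, and each word `z` of length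
`m` occurs for at most 3 suffixes `w` (`card_suffix_le`), so `#{…} P^(-s) / 4 ≤ 3 ZZ A s m ≤ 12`. Sum over
`P, P/2, P/4, …` (induction on `P`: `#(wP A P) ≤ #(wP A (P/2)) + 48 P^s`, `C = 100`). -/
theorem card_wP {A : Finset ℕ} {a : ℕ} {s : ℝ} (hp : PB A a s) :
    ∃ C : ℝ, 1 ≤ C ∧ ∀ P : ℕ, ((wP A P).card : ℝ) ≤ C * (P : ℝ) ^ s := by
  classical
  have hA : ∀ x ∈ A, 1 ≤ x := fun x hx => (hp.dig x hx).1
  refine ⟨100, by norm_num, ?_⟩
  intro P
  induction P using Nat.strong_induction_on with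
  | _ P ih =>
    rcases Nat.eq_zero_or_pos P with h0 | h0
    · subst h0
      have he : wP A 0 = ∅ := by
        rw [Finset.eq_empty_iff_forall_notMem]
        intro w hw
        rw [mem_wP hA] at hw
        have := kk_pos w (fun x hx => hA x (hw.1 x hx))
        omega
      rw [he, Finset.card_empty, Nat.cast_zero]
      have : (0 : ℝ) ≤ (0 : ℝ) ^ s := Real.rpow_nonneg le_rfl _
      linarith
    · have hPR : (0 : ℝ) < (P : ℝ) := by exact_mod_cast h0
      have h1 := B4_top hp P h0
      have h2 := ih (P / 2) (Nat.div_lt_self h0 (by norm_num))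
      have h3 : (wP A P).card ≤ (wP A (P / 2)).card +
          ((wP A P).filter (fun w => P < 2 * kk w)).card := by
        have hsub : wP A P ⊆ wP A (P / 2) ∪ (wP A P).filter (fun w => P < 2 * kk w) := by
          intro w hw
          rw [Finset.mem_union, Finset.mem_filter]
          by_cases hc : P < 2 * kk w
          · exact Or.inr ⟨hw, hc⟩
          · left
            rw [mem_wP hA] at hw ⊢
            exact ⟨hw.1, by omega⟩
        exact (Finset.card_le_card hsub).trans (Finset.card_union_le _ _)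
      have h3' : ((wP A P).card : ℝ) ≤ ((wP A (P / 2)).card : ℝ) +
          (((wP A P).filter (fun w => P < 2 * kk w)).card : ℝ) := by exact_mod_cast h3
      have h4 : (((P / 2 : ℕ) : ℝ)) ^ s ≤ (P : ℝ) ^ s / 2 := by
        have h5 : ((P / 2 : ℕ) : ℝ) ≤ (P : ℝ) / 2 := by
          have := @Nat.cast_div_le ℝ _ _ _ P 2
          simpa using this
        calc (((P / 2 : ℕ) : ℝ)) ^ s ≤ ((P : ℝ) / 2) ^ s :=
              Real.rpow_le_rpow (Nat.cast_nonneg _) h5 (by linarith [hp.s1])
          _ = (P : ℝ) ^ s / 2 ^ s := Real.div_rpow hPR.le (by norm_num) s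
          _ ≤ (P : ℝ) ^ s / 2 := by
              apply div_le_div_of_nonneg_left (Real.rpow_nonneg hPR.le _) (by norm_num)
              calc (2 : ℝ) = (2 : ℝ) ^ (1 : ℝ) := (Real.rpow_one 2).symm
                _ ≤ (2 : ℝ) ^ s := Real.rpow_le_rpow_of_exponent_le (by norm_num)
                    (by linarith [hp.s1])
      have h6 : (0 : ℝ) ≤ (P : ℝ) ^ s := Real.rpow_nonneg hPR.le _
      linarith

end Pool.Agent.LibZD69
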