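import Pool.Agent.LibZD69.B1

set_option autoImplicit false

namespace Pool.Agent.LibZD69

open Pool.Agent.LibNZ69

/-- Row B5 (MEDIUM). Lower bound for the cut set. Let `m` be larger than `a L` (so all the words of
length `m` have `kk ≥ L` by `length_le_kk` and all the words of `Cut` have length `≤ m`). Each word `z` of
length `m` is `y ++ v`, `v ∈ Cut A a L` (`exists_cut`), so by `ZZ_ext_le`
`1 ≤ ZZ A s m ≤ ∑_{v ∈ Cut} kk v^(-s) ZZ A s (m - |v|) ≤ #Cut · L^(-s) · 4`. -/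
theorem card_Cut_ge {A : Finset ℕ} {a : ℕ} {s : ℝ} (hp : PB A a s) (L : ℕ) (hL : 2 ≤ L) :
    (L : ℝ) ^ s ≤ 4 * ((Cut A a L).card : ℝ) := by
  classical
  have hA : ∀ x ∈ A, 1 ≤ x := fun x hx => (hp.dig x hx).1
  have hs0 : 0 ≤ s := by linarith [hp.s1]
  obtain ⟨m, hm⟩ : ∃ m : ℕ, m = a * L + L := ⟨_, rfl⟩
  have h1 : (1 : ℝ) ≤ ZZ A s m := hp.lo m
  have hlen : ∀ v ∈ Cut A a L, v.length ≤ m := by
    intro v hv
    obtain ⟨hw, _, h2, _⟩ := Cut_bounds hp.dig hv
    have h3 := length_le_kk v (fun x hx => hA x (hw x hx))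
    rw [hm]
    exact (h3.trans h2).trans (Nat.le_add_right _ _)
  have hsub : wd (Pool.Agent.LibNW69.letters A) m ⊆ (Cut A a L).biUnion
      (fun v => (wd (Pool.Agent.LibNW69.letters A) (m - v.length)).image (fun y => y ++ v)) := by
    intro z hz
    rw [Pool.Agent.LibNW69.mem_wd_letters] at hz
    have hk : L ≤ kk z := by
      have h3 := length_le_kk z (fun x hx => hA x (hz.2 x hx))
      rw [hz.1] at h3
      have h4 : L ≤ m := by rw [hm]; exact Nat.le_add_left _ _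
      exact h4.trans h3
    obtain ⟨y, v, hzv, hv, hy⟩ := exists_cut hp.dig hL z hz.2 hk
    rw [Finset.mem_biUnion]
    refine ⟨v, hv, ?_⟩
    rw [Finset.mem_image]
    refine ⟨y, ?_, hzv.symm⟩
    rw [Pool.Agent.LibNW69.mem_wd_letters]
    refine ⟨?_, hy⟩
    have h5 := hz.1
    rw [hzv, List.length_append] at h5
    omega
  have hdisj : ((Cut A a L : Finset (List ℕ)) : Set (List ℕ)).PairwiseDisjoint
      (fun v => (wd (Pool.Agent.LibNW69.letters A) (m - v.length)).image (fun y => y ++ v)) := by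
    intro v hv v' hv' hne
    rw [Function.onFun, Finset.disjoint_left]
    intro z hz hz'
    rw [Finset.mem_image] at hz hz'
    obtain ⟨y, _, hy⟩ := hz
    obtain ⟨y', _, hy'⟩ := hz'
    exact hne (cut_unique hp.dig hv hv' (hy.trans hy'.symm)).2
  have hL0 : (0 : ℝ) < (L : ℝ) := by
    have : 0 < L := by omega
    exact_mod_cast this
  have h2 : ZZ A s m ≤ ∑ v ∈ Cut A a L, (L : ℝ) ^ (-s) * 4 := by
    calc ZZ A s m ≤ ∑ z ∈ (Cut A a L).biUnion
          (fun v => (wd (Pool.Agent.LibNW69.letters A) (m - v.length)).image (fun y => y ++ v)),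
            (kk z : ℝ) ^ (-s) :=
          Finset.sum_le_sum_of_subset_of_nonneg hsub
            (fun z _ _ => Real.rpow_nonneg (Nat.cast_nonneg _) _)
      _ = ∑ v ∈ Cut A a L, ∑ z ∈ (wd (Pool.Agent.LibNW69.letters A) (m - v.length)).image
            (fun y => y ++ v), (kk z : ℝ) ^ (-s) := Finset.sum_biUnion hdisj
      _ ≤ ∑ v ∈ Cut A a L, (L : ℝ) ^ (-s) * 4 := by
          refine Finset.sum_le_sum fun v hv => ?_
          obtain ⟨hw, hLv, _, _⟩ := Cut_bounds hp.dig hv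
          rw [Finset.sum_image (fun y _ y' _ h => List.append_cancel_right h)]
          have h3 := ZZ_ext_le A hA s hs0 v (fun x hx => hA x (hw x hx)) (m - v.length)
          have h4 : (kk v : ℝ) ^ (-s) ≤ (L : ℝ) ^ (-s) :=
            Real.rpow_le_rpow_of_nonpos hL0 (by exact_mod_cast hLv) (by linarith)
          have h5 := hp.hi (m - v.length)
          have h6 := hp.lo (m - v.length)
          have h7 : (0 : ℝ) ≤ (L : ℝ) ^ (-s) := Real.rpow_nonneg hL0.le _
          calc ∑ y ∈ wd (Pool.Agent.LibNW69.letters A) (m - v.length), (kk (y ++ v) : ℝ) ^ (-s)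
              ≤ (kk v : ℝ) ^ (-s) * ZZ A s (m - v.length) := h3
            _ ≤ (L : ℝ) ^ (-s) * 4 := mul_le_mul h4 h5 (by linarith) h7
  rw [Finset.sum_const, nsmul_eq_mul, Real.rpow_neg hL0.le] at h2
  have hLs : (0 : ℝ) < (L : ℝ) ^ s := Real.rpow_pos_of_pos hL0 s
  have h8 : (1 : ℝ) ≤ ((Cut A a L).card : ℝ) * (((L : ℝ) ^ s)⁻¹ * 4) := h1.trans h2
  calc (L : ℝ) ^ s = (L : ℝ) ^ s * 1 := (mul_one _).symm
    _ ≤ (L : ℝ) ^ s * (((Cut A a L).card : ℝ) * (((L : ℝ) ^ s)⁻¹ * 4)) :=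
        mul_le_mul_of_nonneg_left h8 hLs.le
    _ = 4 * ((Cut A a L).card : ℝ) := by
        field_simp

end Pool.Agent.LibZD69
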