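import Pool.Agent.LibZD69.A3

set_option autoImplicit false

namespace Pool.Agent.LibZD69

open Pool.Agent.LibNZ69

/-- Row C3 (SHORT/MEDIUM). The threshold. Let `z_i = acti (first i letters of w) z`, so
`nm z_{i+1} ≤ a nm z_i` (`nm_gl`), `q ∣ z_i ∧ vec (rest)` (`dvd_wdg_acti`). `8 nm z_0² < q`. If
`8 nm z_n² < q` for `n = |w|` then `|z_n ∧ (1,2)| ≤ 3 nm z_n ≤ 8 nm z_n² < q`, so `z_n ∧ (1,2) = 0`,
`z_n = k (1,2)` (`parallel`), `z = k vec w`, `k = ± 1` by `hind`, `nm (vec w) = nm z ≤ Y`. Otherwise take the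
first `i` with `q ≤ 8 nm z_{i+1}²`. -/
theorem thresh (a : ℕ) (w : List ℕ) (hw : ∀ x ∈ w, 1 ≤ x ∧ x < a) (q : ℕ) (Y : ℝ)
    (h8 : 8 * Y ^ 2 < q) (z : ℤ × ℤ) (hz : z ≠ 0) (hzY : (nm z : ℝ) ≤ Y)
    (hzq : (q : ℤ) ∣ wdg z (vec w))
    (hind : ∀ g : ℤ × ℤ, (q : ℤ) ∣ wdg g (vec w) → ∀ k : ℤ, z = k • g → k = 1 ∨ k = -1) :
    (nm (vec w) : ℝ) ≤ Y ∨ ∃ p r, w = p ++ r ∧ 8 * (nm (acti p z)) ^ 2 < (q : ℤ) ∧
      (q : ℤ) ≤ 8 * (a * nm (acti p z)) ^ 2 := by
  classical
  by_cases hn : 8 * (nm (acti w z)) ^ 2 < (q : ℤ)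
  · left
    have hz0 : acti w z ≠ 0 := by
      intro h0
      apply hz
      have h1 := act_acti w z
      rw [h0] at h1
      rw [← h1]
      have h2 := act_smul w 0 (0 : ℤ × ℤ)
      simpa using h2
    have h1 := one_le_nm _ hz0
    have hd : (q : ℤ) ∣ wdg (acti w z) (1, 2) := (dvd_wdg_acti (q : ℤ) w z (1, 2)).2 hzq
    have ha := abs_fst_le (acti w z)
    have hb := abs_snd_le (acti w z)
    have hlt : |wdg (acti w z) (1, 2)| < (q : ℤ) := by
      have h3 : |wdg (acti w z) (1, 2)| ≤ 3 * nm (acti w z) := by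
        unfold wdg
        rw [abs_le] at ha hb ⊢
        constructor
        · simp only
          nlinarith [ha.1, ha.2, hb.1, hb.2]
        · simp only
          nlinarith [ha.1, ha.2, hb.1, hb.2]
      nlinarith
    have h0 : wdg (acti w z) (1, 2) = 0 := Int.eq_zero_of_abs_lt_dvd hd hlt
    have h0' : wdg (1, 2) (acti w z) = 0 := by
      unfold wdg at h0 ⊢
      simp only at h0 ⊢
      linarith
    obtain ⟨k, hk⟩ := parallel (1, 2) (acti w z) (by simpa using isCoprime_one_left) h0'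
    have hzk : z = k • vec w := by
      have h4 := act_acti w z
      rw [hk, act_smul] at h4
      exact h4.symm
    have hself : (q : ℤ) ∣ wdg (vec w) (vec w) := by
      have : wdg (vec w) (vec w) = 0 := by
        unfold wdg
        ring
      rw [this]
      exact dvd_zero _
    have hk1 := hind (vec w) hself k hzk
    have habs : |k| = 1 := by
      rcases hk1 with h | h <;> simp [h]
    have hnm : nm z = nm (vec w) := by
      rw [hzk, nm_smul, habs, one_mul]
    rw [← hnm]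
    exact hzY
  · right
    have htn : w.take w.length = w := List.take_length
    have hex : ∃ i, ¬ 8 * (nm (acti (w.take i) z)) ^ 2 < (q : ℤ) := ⟨w.length, by rwa [htn]⟩
    obtain ⟨j, hj, hjmin⟩ : ∃ j, ¬ 8 * (nm (acti (w.take j) z)) ^ 2 < (q : ℤ) ∧
        ∀ i, i < j → 8 * (nm (acti (w.take i) z)) ^ 2 < (q : ℤ) :=
      ⟨Nat.find hex, Nat.find_spec hex, fun i hi => not_not.1 (Nat.find_min hex hi)⟩
    have hjn : j ≤ w.length := by
      by_contra hlt
      push Not at hlt
      have := hjmin w.length hlt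
      rw [htn] at this
      exact hn this
    have hj0 : j ≠ 0 := by
      intro h0
      rw [h0] at hj
      apply hj
      have e : acti (w.take 0) z = z := by simp [acti]
      rw [e]
      have hY : (0 : ℝ) ≤ nm z := by exact_mod_cast nm_nonneg z
      have : (8 * (nm z : ℝ) ^ 2) < (q : ℝ) := by nlinarith
      exact_mod_cast this
    obtain ⟨i, rfl⟩ : ∃ i, j = i + 1 := ⟨j - 1, by omega⟩
    have hi : i < w.length := by omega
    refine ⟨w.take i, w.drop i, (List.take_append_drop i w).symm, hjmin i (by omega), ?_⟩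
    have htake : w.take (i + 1) = w.take i ++ [w[i]] := (List.take_append_getElem hi).symm
    have h5 : acti (w.take (i + 1)) z = gi (w[i]) (acti (w.take i) z) := by
      rw [htake, acti_append]
      rfl
    have hb := hw (w[i]) (List.getElem_mem hi)
    have h4 := (nm_gl a (w[i]) hb.1 hb.2 (acti (w.take i) z)).2
    rw [← h5] at h4
    have h6 : (q : ℤ) ≤ 8 * (nm (acti (w.take (i + 1)) z)) ^ 2 := not_lt.1 hj
    have h9 : (0 : ℤ) ≤ nm (acti (w.take (i + 1)) z) := nm_nonneg _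
    have h11 := pow_le_pow_left₀ h9 h4 2
    linarith

end Pool.Agent.LibZD69
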