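import Pool.Agent.LibZD69.C2
import Pool.Agent.LibZD69.C3
import Pool.Agent.LibZD69.B6
import Pool.Agent.LibNZ69.C2

set_option autoImplicit false

namespace Pool.Agent.LibZD69

open Pool.Agent.LibNZ69

private def C4_ind (q : ℕ) (v z : ℤ × ℤ) : Prop :=
  ∀ g : ℤ × ℤ, (q : ℤ) ∣ wdg g v → ∀ k : ℤ, z = k • g → k = 1 ∨ k = -1

private theorem C4_mul_one {g : ℤ × ℤ} (hg : g ≠ 0) {m : ℤ} (h : g = m • g) : m = 1 := by
  have h1 : g.1 = m * g.1 := by
    have := congrArg Prod.fst h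
    simpa using this
  have h2 : g.2 = m * g.2 := by
    have := congrArg Prod.snd h
    simpa using this
  by_contra hm
  have hm' : m - 1 ≠ 0 := sub_ne_zero.2 hm
  have h3 : (m - 1) * g.1 = 0 := by linear_combination -h1
  have h4 : (m - 1) * g.2 = 0 := by linear_combination -h2
  have h5 : g.1 = 0 := (mul_eq_zero.1 h3).resolve_left hm'
  have h6 : g.2 = 0 := (mul_eq_zero.1 h4).resolve_left hm'
  exact hg (Prod.ext h5 h6)

private theorem C4_exists (q : ℕ) (v z : ℤ × ℤ) (Y : ℝ) (hz : z ≠ 0) (hzY : (nm z : ℝ) ≤ Y)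
    (h : (q : ℤ) ∣ wdg z v) :
    ∃ g : ℤ × ℤ, g ≠ 0 ∧ (nm g : ℝ) ≤ Y ∧ (q : ℤ) ∣ wdg g v ∧ C4_ind q v g := by
  obtain ⟨g, hg, hgq, ⟨m, hm⟩, hgen⟩ := line_gen (q : ℤ) v z hz h
  refine ⟨g, hg, ?_, hgq, ?_⟩
  · have hm0 : m ≠ 0 := by
      rintro rfl
      exact hz (by rw [hm, zero_smul])
    have h1 : nm g ≤ nm z := by
      rw [hm, nm_smul]
      have h2 : 1 ≤ |m| := Int.one_le_abs hm0
      have h3 := nm_nonneg g
      nlinarith
    exact (Int.cast_le.2 h1).trans hzY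
  · intro g' hg' k hk
    have hw : wdg z g' = 0 := by
      rw [hm, hk]
      unfold wdg
      simp only [Prod.smul_fst, Prod.smul_snd, smul_eq_mul]
      ring
    obtain ⟨k', hk'⟩ := hgen g' hw hg'
    have h1 : g = (k * k') • g := by
      rw [mul_smul, ← hk', ← hk]
    have h2 := C4_mul_one hg h1
    rcases Int.eq_one_or_neg_one_of_mul_eq_one h2 with h3 | h3
    · exact Or.inl h3
    · exact Or.inr h3

private def C4_Q (a q : ℕ) (Y : ℝ) (p r : List ℕ) : Prop :=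
  ∃ x : ℤ × ℤ, x ≠ 0 ∧ (nm (act p x) : ℝ) ≤ Y ∧ (q : ℤ) ∣ wdg x (vec r) ∧ C4_ind q (vec r) x ∧
    8 * (nm x) ^ 2 < (q : ℤ) ∧ (q : ℤ) ≤ 8 * (a * nm x) ^ 2

private theorem C4_dich (a : ℕ) (w : List ℕ) (hw : ∀ x ∈ w, 1 ≤ x ∧ x < a) (q : ℕ) (Y : ℝ)
    (h8 : 8 * Y ^ 2 < q)
    (h : ∃ z : ℤ × ℤ, z ≠ 0 ∧ (nm z : ℝ) ≤ Y ∧ (q : ℤ) ∣ wdg z (vec w)) :
    (nm (vec w) : ℝ) ≤ Y ∨ ∃ p r, w = p ++ r ∧ C4_Q a q Y p r := by
  obtain ⟨z0, hz0, hz0Y, hz0q⟩ := h
  obtain ⟨z, hz, hzY, hzq, hind⟩ := C4_exists q (vec w) z0 Y hz0 hz0Y hz0q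
  rcases thresh a w hw q Y h8 z hz hzY hzq hind with h1 | ⟨p, r, hpr, h1, h2⟩
  · exact Or.inl h1
  · refine Or.inr ⟨p, r, hpr, ?_⟩
    have hvec : vec w = act p (vec r) := by
      rw [hpr]
      unfold vec
      exact act_append p r (1, 2)
    refine ⟨acti p z, ?_, ?_, ?_, ?_, h1, h2⟩
    · intro h0
      apply hz
      have h4 := act_acti p z
      rw [h0] at h4
      rw [← h4]
      have h5 := act_smul p 0 (0 : ℤ × ℤ)
      rw [zero_smul, zero_smul] at h5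
      exact h5
    · rw [act_acti]
      exact hzY
    · rw [dvd_wdg_acti, ← hvec]
      exact hzq
    · intro g hg k hk
      refine hind (act p g) ?_ k ?_
      · rw [hvec, dvd_wdg_act]
        exact hg
      · rw [← act_smul, ← hk, act_acti]

private theorem C4_sqrt {a q : ℕ} {x : ℤ × ℤ} (h : (q : ℤ) ≤ 8 * (a * nm x) ^ 2) :
    Real.sqrt q ≤ 3 * (a : ℝ) * nm x := by
  have h1 : (q : ℝ) ≤ 8 * ((a : ℝ) * nm x) ^ 2 := by exact_mod_cast h
  have h2 : (0 : ℝ) ≤ nm x := by exact_mod_cast nm_nonneg x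
  apply Real.sqrt_le_iff.2
  refine ⟨by positivity, ?_⟩
  nlinarith [sq_nonneg ((a : ℝ) * nm x)]

open scoped Classical in
private theorem C4_fiber {A : Finset ℕ} {a : ℕ} {s : ℝ} (hp : PB A a s) {C : ℝ} (hC1 : 1 ≤ C)
    (hC : ∀ (P : ℕ) (x : ℤ × ℤ), x ≠ 0 → ∀ Y : ℝ, 0 ≤ Y →
      (((wP A P).filter (fun w => (nm (act w x) : ℝ) ≤ Y)).card : ℝ) ≤
        C * ((P : ℝ) * Y / nm x) ^ (s / 2))
    (Z q : ℕ) (Y : ℝ) (hY : 1 ≤ Y) (hq : 0 < q) (r : List ℕ) (hr : 1 ≤ kk r) :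
    (((wP A (Z / kk r)).filter (fun p => C4_Q a q Y p r)).card : ℝ) ≤
      C * (3 * (a : ℝ) * ((Z : ℝ) * Y / Real.sqrt q)) ^ (s / 2) * (kk r : ℝ) ^ (-(s / 2)) := by
  have hq' : (0 : ℝ) < q := by exact_mod_cast hq
  have hsq : (0 : ℝ) < Real.sqrt q := Real.sqrt_pos.2 hq'
  have hkr : (0 : ℝ) < kk r := by exact_mod_cast hr
  have hs1 := hp.s1
  by_cases hex : ∃ p ∈ wP A (Z / kk r), C4_Q a q Y p r
  · obtain ⟨p0, hp0, x0, hx0, -, hxq0, hind0, h10, h20⟩ := hex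
    have hsub : (wP A (Z / kk r)).filter (fun p => C4_Q a q Y p r) ⊆
        (wP A (Z / kk r)).filter (fun p => (nm (act p x0) : ℝ) ≤ Y) := by
      intro p hp'
      rw [Finset.mem_filter] at hp' ⊢
      refine ⟨hp'.1, ?_⟩
      obtain ⟨x, hx, hxY, hxq, hind, h1, h2⟩ := hp'.2
      rcases unique_pm q (vec r) x0 x (coprime_vec r) hx0 hx hxq0 hxq h10 h1 hind0 hind with
        h | h
      · rw [← h]
        exact hxY
      · have h4 : x0 = -x := by rw [h, neg_neg]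
        rw [h4, act_neg, nm_neg]
        exact hxY
    have hcard : (((wP A (Z / kk r)).filter (fun p => C4_Q a q Y p r)).card : ℝ) ≤
        (((wP A (Z / kk r)).filter (fun p => (nm (act p x0) : ℝ) ≤ Y)).card : ℝ) := by
      exact_mod_cast Finset.card_le_card hsub
    refine hcard.trans ((hC (Z / kk r) x0 hx0 Y (by linarith)).trans ?_)
    have ha : (0 : ℝ) < nm x0 := by
      have := one_le_nm x0 hx0
      exact_mod_cast (lt_of_lt_of_le Int.one_pos this)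
    have hlow := C4_sqrt h20
    have h3 : ((Z / kk r : ℕ) : ℝ) * Y / nm x0 ≤
        3 * (a : ℝ) * ((Z : ℝ) * Y / Real.sqrt q) / kk r := by
      have h4 : ((Z / kk r : ℕ) : ℝ) ≤ (Z : ℝ) / kk r := Nat.cast_div_le
      have h5 : ((Z / kk r : ℕ) : ℝ) * Y ≤ (Z : ℝ) / kk r * Y :=
        mul_le_mul_of_nonneg_right h4 (by linarith)
      rw [div_le_iff₀ ha]
      refine h5.trans ?_
      have h6 : 3 * (a : ℝ) * ((Z : ℝ) * Y / Real.sqrt q) / kk r * nm x0 =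
          ((Z : ℝ) / kk r * Y) * ((3 * (a : ℝ) * nm x0) / Real.sqrt q) := by
        field_simp
      rw [h6]
      have h7 : 1 ≤ (3 * (a : ℝ) * nm x0) / Real.sqrt q := by
        rw [le_div_iff₀ hsq, one_mul]
        exact hlow
      have h8 : 0 ≤ (Z : ℝ) / kk r * Y := by positivity
      nlinarith
    have h9 : (((Z / kk r : ℕ) : ℝ) * Y / nm x0) ^ (s / 2) ≤
        (3 * (a : ℝ) * ((Z : ℝ) * Y / Real.sqrt q) / kk r) ^ (s / 2) :=
      Real.rpow_le_rpow (by positivity) h3 (by linarith)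
    have h10 : (3 * (a : ℝ) * ((Z : ℝ) * Y / Real.sqrt q) / kk r) ^ (s / 2) =
        (3 * (a : ℝ) * ((Z : ℝ) * Y / Real.sqrt q)) ^ (s / 2) * (kk r : ℝ) ^ (-(s / 2)) := by
      rw [Real.div_rpow (by positivity) hkr.le, Real.rpow_neg hkr.le, div_eq_mul_inv]
    rw [mul_assoc, ← h10]
    exact mul_le_mul_of_nonneg_left h9 (by linarith)
  · have h0 : (wP A (Z / kk r)).filter (fun p => C4_Q a q Y p r) = ∅ := by
      rw [Finset.filter_eq_empty_iff]
      intro p hp' h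
      exact hex ⟨p, hp', h⟩
    rw [h0, Finset.card_empty, Nat.cast_zero]
    have hC0 : 0 ≤ C := by linarith
    positivity

open scoped Classical in
/-- Row C4 (MEDIUM/LONG). Compare `LibNZ69/C3.lean` (finished, same argument with blocks). Each bad
`w` has an indivisible `z(w)` of norm `≤ Y` (take one of least norm; `line_gen`). `thresh`:
* `nm (vec w) ≤ Y`: then `kk w ≤ Y`, at most `C Y^s` words (`vec_bounds`, `card_wP` with `⌊Y⌋`).
* `w = p ++ r`, `x = acti p z` with `8 nm x² < q ≤ 8 a² nm x²`, `q ∣ x ∧ vec r`, `x` indivisible for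
  `vec r`, so `x` is determined up to sign by `r` (`LibNZ69.unique_pm`, `coprime_vec`). For given `r` the
  number of the `p` is at most `2 C (P Y / nm x)^(s/2)` with `P = Z / kk r` (nat division;
  `kk p * kk r ≤ kk w ≤ Z`, `nm (act p x) = nm z ≤ Y`) (`countP`), and if there is such a `p` then
  `nm x ≤ 2 kk p Y` (`nm_le_act`), so `kk r ≤ 2 Z Y / nm x ≤ 6 a Z Y / q^(1/2) =: R`. The sum over `r` is
  `≤ C' (Z Y / q^(1/2))^(s/2) ∑_{kk r ≤ R} kk r^(-s/2) ≤ C'' (Z Y / q^(1/2))^s = C'' Y^s (Z²/q)^(s/2)`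
  (`sum_half`). -/
theorem countC {A : Finset ℕ} {a : ℕ} {s : ℝ} (hp : PB A a s) :
    ∃ C : ℝ, 1 ≤ C ∧ ∀ (Z q : ℕ) (Y : ℝ), 1 ≤ Y → 8 * Y ^ 2 < q →
      (((wP A Z).filter (fun w => ∃ z : ℤ × ℤ, z ≠ 0 ∧ (nm z : ℝ) ≤ Y ∧
        (q : ℤ) ∣ wdg z (vec w))).card : ℝ) ≤
          C * Y ^ s * (1 + ((Z : ℝ) ^ 2 / q) ^ (s / 2)) := by
  obtain ⟨C₁, hC₁, hcard⟩ := card_wP hp
  obtain ⟨C₂, hC₂, hcountP⟩ := countP hp
  obtain ⟨C₃, hC₃, hhalf⟩ := sum_half hp
  have hs1 := hp.s1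
  have hdig1 : ∀ x ∈ A, 1 ≤ x := fun x hx => (hp.dig x hx).1
  have ha4 : (4 : ℝ) ≤ a := by exact_mod_cast hp.a4
  have ha0 : (0 : ℝ) < a := by linarith
  set K : ℝ := C₂ * C₃ * ((3 * (a : ℝ)) ^ (s / 2) * (6 * (a : ℝ)) ^ (s / 2)) with hK
  have hK0 : 0 ≤ K := by
    have : 0 ≤ C₂ := by linarith
    have : 0 ≤ C₃ := by linarith
    positivity
  refine ⟨C₁ + K, by linarith, ?_⟩
  intro Z q Y hY h8
  have hY0 : 0 ≤ Y := by linarith
  have hq' : (0 : ℝ) < q := by nlinarith [sq_nonneg Y]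
  have hq : 0 < q := by exact_mod_cast hq'
  have hsq : (0 : ℝ) < Real.sqrt q := Real.sqrt_pos.2 hq'
  set D : ℝ := (Z : ℝ) * Y / Real.sqrt q with hD
  have hD0 : 0 ≤ D := by positivity
  set R : ℕ := ⌊6 * (a : ℝ) * D⌋₊ with hR
  set F := (wP A Z).filter (fun w => ∃ z : ℤ × ℤ, z ≠ 0 ∧ (nm z : ℝ) ≤ Y ∧
      (q : ℤ) ∣ wdg z (vec w)) with hF
  set G := (wP A R).biUnion (fun r =>
    ((wP A (Z / kk r)).filter (fun p => C4_Q a q Y p r)).image (fun p => p ++ r)) with hG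
  have hsub : F ⊆ wP A ⌊Y⌋₊ ∪ G := by
    intro w hw
    rw [hF, Finset.mem_filter, mem_wP hdig1] at hw
    obtain ⟨⟨hwA, hwZ⟩, hwz⟩ := hw
    have hwd : ∀ x ∈ w, 1 ≤ x ∧ x < a := fun x hx => hp.dig x (hwA x hx)
    have hw1 : ∀ x ∈ w, 1 ≤ x := fun x hx => (hwd x hx).1
    rw [Finset.mem_union]
    rcases C4_dich a w hwd q Y h8 hwz with h | ⟨p, r, hpr, hQ⟩
    · left
      rw [mem_wP hdig1]
      refine ⟨hwA, Nat.le_floor ?_⟩
      obtain ⟨-, -, h1, h2, -⟩ := vec_bounds w hw1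
      rw [← h1] at h2
      have h3 : 2 * (kk w : ℝ) ≤ (nm (vec w) : ℝ) := by exact_mod_cast h2
      have h4 : (0 : ℝ) ≤ kk w := by positivity
      linarith
    · right
      have hpA : WA A p ∧ WA A r := by
        rw [hpr, WA_append] at hwA
        exact hwA
      have hp1 : ∀ x ∈ p, 1 ≤ x := fun x hx => hdig1 x (hpA.1 x hx)
      have hr1 : ∀ x ∈ r, 1 ≤ x := fun x hx => hdig1 x (hpA.2 x hx)
      have hkr : 1 ≤ kk r := kk_pos r hr1
      have hkp : 1 ≤ kk p := kk_pos p hp1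
      have hprod : kk p * kk r ≤ Z := by
        refine (kk_append_ge p r).trans ?_
        rw [← hpr]
        exact hwZ
      have hprod' : (kk p : ℝ) * kk r ≤ Z := by exact_mod_cast hprod
      have hQ' := hQ
      obtain ⟨x, hx, hxY, -, -, -, h2⟩ := hQ'
      have hlow := C4_sqrt h2
      have hnx : (0 : ℝ) < nm x := by
        have := one_le_nm x hx
        exact_mod_cast (lt_of_lt_of_le Int.one_pos this)
      have h5 : (nm x : ℝ) ≤ 2 * kk p * nm (act p x) := by exact_mod_cast nm_le_act p hp1 x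
      have h6 : (nm x : ℝ) ≤ 2 * kk p * Y :=
        h5.trans (mul_le_mul_of_nonneg_left hxY (by positivity))
      have h7 : Real.sqrt q ≤ 3 * (a : ℝ) * (2 * kk p * Y) :=
        hlow.trans (mul_le_mul_of_nonneg_left h6 (by positivity))
      have hkrR : (kk r : ℝ) ≤ 6 * (a : ℝ) * D := by
        rw [hD, ← mul_div_assoc, le_div_iff₀ hsq]
        have hkr0 : (0 : ℝ) ≤ kk r := by positivity
        calc (kk r : ℝ) * Real.sqrt q ≤ kk r * (3 * (a : ℝ) * (2 * kk p * Y)) :=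
              mul_le_mul_of_nonneg_left h7 hkr0
          _ = 6 * (a : ℝ) * (((kk p : ℝ) * kk r) * Y) := by ring
          _ ≤ 6 * (a : ℝ) * ((Z : ℝ) * Y) := by
              refine mul_le_mul_of_nonneg_left ?_ (by positivity)
              exact mul_le_mul_of_nonneg_right hprod' hY0
      rw [hG, Finset.mem_biUnion]
      refine ⟨r, ?_, ?_⟩
      · rw [mem_wP hdig1]
        exact ⟨hpA.2, Nat.le_floor hkrR⟩
      · rw [Finset.mem_image]
        refine ⟨p, ?_, hpr.symm⟩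
        rw [Finset.mem_filter, mem_wP hdig1]
        refine ⟨⟨hpA.1, ?_⟩, hQ⟩
        rw [Nat.le_div_iff_mul_le (by omega)]
        exact hprod
  have hEx : ((wP A ⌊Y⌋₊).card : ℝ) ≤ C₁ * Y ^ s := by
    refine (hcard ⌊Y⌋₊).trans ?_
    refine mul_le_mul_of_nonneg_left ?_ (by linarith)
    exact Real.rpow_le_rpow (by positivity) (Nat.floor_le hY0) (by linarith)
  have hGc : (G.card : ℝ) ≤ K * D ^ s := by
    have h1 : (G.card : ℝ) ≤ ∑ r ∈ wP A R,
        (((wP A (Z / kk r)).filter (fun p => C4_Q a q Y p r)).card : ℝ) := by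
      have h2 : G.card ≤ ∑ r ∈ wP A R,
          ((wP A (Z / kk r)).filter (fun p => C4_Q a q Y p r)).card := by
        rw [hG]
        refine Finset.card_biUnion_le.trans (Finset.sum_le_sum ?_)
        intro r _
        exact Finset.card_image_le
      exact_mod_cast h2
    have h3 : ∑ r ∈ wP A R,
        (((wP A (Z / kk r)).filter (fun p => C4_Q a q Y p r)).card : ℝ) ≤
        ∑ r ∈ wP A R, C₂ * (3 * (a : ℝ) * D) ^ (s / 2) * (kk r : ℝ) ^ (-(s / 2)) := by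
      refine Finset.sum_le_sum ?_
      intro r hr
      rw [mem_wP hdig1] at hr
      have hr1 : ∀ x ∈ r, 1 ≤ x := fun x hx => hdig1 x (hr.1 x hx)
      exact C4_fiber hp hC₂ hcountP Z q Y hY hq r (kk_pos r hr1)
    refine (h1.trans h3).trans ?_
    rw [← Finset.mul_sum]
    have hC20 : 0 ≤ C₂ := by linarith
    have hC30 : 0 ≤ C₃ := by linarith
    have h4 : ∑ r ∈ wP A R, (kk r : ℝ) ^ (-(s / 2)) ≤ C₃ * (6 * (a : ℝ) * D) ^ (s / 2) := by
      refine (hhalf R).trans (mul_le_mul_of_nonneg_left ?_ hC30)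
      exact Real.rpow_le_rpow (by positivity) (Nat.floor_le (by positivity)) (by linarith)
    refine (mul_le_mul_of_nonneg_left h4 (by positivity)).trans (le_of_eq ?_)
    have h5 : D ^ s = D ^ (s / 2) * D ^ (s / 2) := by
      rcases eq_or_lt_of_le hD0 with h0 | h0
      · rw [← h0, Real.zero_rpow (by linarith), Real.zero_rpow (by linarith)]
        norm_num
      · rw [← Real.rpow_add h0]
        congr 1
        ring
    rw [Real.mul_rpow (by positivity) hD0, Real.mul_rpow (by positivity) hD0, hK, h5]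
    ring
  have hDs : D ^ s = Y ^ s * ((Z : ℝ) ^ 2 / q) ^ (s / 2) := by
    have h1 : D = Y * ((Z : ℝ) / Real.sqrt q) := by
      rw [hD]
      ring
    have h2 : ((Z : ℝ) ^ 2 / q) = ((Z : ℝ) / Real.sqrt q) ^ 2 := by
      rw [div_pow, Real.sq_sqrt hq'.le]
    rw [h1, Real.mul_rpow hY0 (by positivity), h2, ← Real.rpow_natCast ((Z : ℝ) / Real.sqrt q) 2,
      ← Real.rpow_mul (by positivity)]
    congr 2
    push_cast
    ring
  have hFc : (F.card : ℝ) ≤ ((wP A ⌊Y⌋₊).card : ℝ) + (G.card : ℝ) := by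
    have h1 := (Finset.card_le_card hsub).trans (Finset.card_union_le _ _)
    exact_mod_cast h1
  have hYs : 0 ≤ Y ^ s := by positivity
  have hT : 0 ≤ ((Z : ℝ) ^ 2 / q) ^ (s / 2) := by positivity
  calc (F.card : ℝ) ≤ C₁ * Y ^ s + K * D ^ s := by linarith
    _ = C₁ * Y ^ s + K * (Y ^ s * ((Z : ℝ) ^ 2 / q) ^ (s / 2)) := by rw [hDs]
    _ ≤ (C₁ + K) * Y ^ s * (1 + ((Z : ℝ) ^ 2 / q) ^ (s / 2)) := by
      have h1 : 0 ≤ C₁ * (Y ^ s * ((Z : ℝ) ^ 2 / q) ^ (s / 2)) := by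
        have : 0 ≤ C₁ := by linarith
        positivity
      have h2 : 0 ≤ K * Y ^ s := by positivity
      nlinarith

end Pool.Agent.LibZD69
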