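import Pool.Agent.LibZD69.C4

set_option autoImplicit false

namespace Pool.Agent.LibZD69

open Pool.Agent.LibNZ69

open scoped Classical in
private theorem C5_word (q J : ℕ) (v : ℤ × ℤ) (hv : IsCoprime v.1 v.2) (h8 : 8 * J ^ 2 < q) :
    ((zs J).filter (fun z => z ≠ 0 ∧ (q : ℤ) ∣ wdg z v)).card ≤
      2 * ((Finset.Icc 1 J).filter (fun k : ℕ => ∃ z : ℤ × ℤ, z ≠ 0 ∧ (nm z : ℝ) ≤ (J : ℝ) / k ∧
        (q : ℤ) ∣ wdg z v)).card := by
  by_cases hz : ∃ z0 ∈ zs J, z0 ≠ 0 ∧ (q : ℤ) ∣ wdg z0 v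
  · obtain ⟨z0, hz0J, hne, hz0q⟩ := hz
    rw [mem_zs] at hz0J
    obtain ⟨g, hg0, hgq, -, hg⟩ := line_gen q v z0 hne hz0q
    have hg1 := one_le_nm g hg0
    obtain ⟨G, hG⟩ : ∃ G : ℕ, nm g = G := ⟨(nm g).toNat, by omega⟩
    have hG1 : 1 ≤ G := by omega
    have hsub : (zs J).filter (fun z => z ≠ 0 ∧ (q : ℤ) ∣ wdg z v) ⊆
        ((Finset.Icc (-((J / G : ℕ) : ℤ)) ((J / G : ℕ) : ℤ)).erase 0).image
          (fun k : ℤ => k • g) := by
      intro z' hz'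
      rw [Finset.mem_filter, mem_zs] at hz'
      obtain ⟨hzJ, hzne, hzq⟩ := hz'
      have h1 : wdg z0 z' = 0 := by
        refine wdg_eq_zero q v z0 z' hv hz0q hzq ?_
        have h2 := nm_nonneg z0
        have h3 := nm_nonneg z'
        have h4 : nm z0 * nm z' ≤ (J : ℤ) * J := mul_le_mul hz0J hzJ h3 (by positivity)
        have h5 : (8 * (J : ℤ) ^ 2) < q := by exact_mod_cast h8
        nlinarith
      obtain ⟨k, hk⟩ := hg z' h1 hzq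
      rw [Finset.mem_image]
      refine ⟨k, ?_, hk.symm⟩
      have h2 : |k| * nm g ≤ J := by
        rw [← nm_smul, ← hk]
        exact hzJ
      rw [hG] at h2
      have h3 : |k| ≤ ((J / G : ℕ) : ℤ) := by
        have h5 : |k|.toNat * G ≤ J := by
          have h6 : ((|k|.toNat : ℕ) : ℤ) = |k| := Int.toNat_of_nonneg (abs_nonneg k)
          have h7 : ((|k|.toNat * G : ℕ) : ℤ) ≤ (J : ℤ) := by
            push_cast
            rw [h6]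
            exact h2
          exact_mod_cast h7
        have h8 : |k|.toNat ≤ J / G := (Nat.le_div_iff_mul_le (by omega)).2 h5
        have h6 : ((|k|.toNat : ℕ) : ℤ) = |k| := Int.toNat_of_nonneg (abs_nonneg k)
        rw [← h6]
        exact_mod_cast h8
      rw [Finset.mem_erase, Finset.mem_Icc]
      refine ⟨?_, abs_le.1 h3⟩
      rintro rfl
      apply hzne
      rw [hk, zero_smul]
    refine (Finset.card_le_card hsub).trans (Finset.card_image_le.trans ?_)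
    have h0 : (0 : ℤ) ∈ Finset.Icc (-((J / G : ℕ) : ℤ)) ((J / G : ℕ) : ℤ) := by
      rw [Finset.mem_Icc]
      generalize J / G = m
      omega
    have hci : ((Finset.Icc (-((J / G : ℕ) : ℤ)) ((J / G : ℕ) : ℤ)).erase 0).card =
        2 * (J / G) := by
      rw [Finset.card_erase_of_mem h0, Int.card_Icc]
      generalize J / G = m
      omega
    rw [hci]
    have h1 : J / G ≤ ((Finset.Icc 1 J).filter (fun k : ℕ => ∃ z : ℤ × ℤ, z ≠ 0 ∧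
        (nm z : ℝ) ≤ (J : ℝ) / k ∧ (q : ℤ) ∣ wdg z v)).card := by
      have h2 : (Finset.Icc 1 (J / G)).card = J / G := by rw [Nat.card_Icc]; omega
      rw [← h2]
      apply Finset.card_le_card
      intro k hk
      rw [Finset.mem_Icc] at hk
      have h3 : k * G ≤ J := (Nat.le_div_iff_mul_le (by omega)).1 hk.2
      rw [Finset.mem_filter, Finset.mem_Icc]
      refine ⟨⟨hk.1, hk.2.trans (Nat.div_le_self J G)⟩, g, hg0, ?_, hgq⟩
      rw [hG, le_div_iff₀ (by exact_mod_cast hk.1)]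
      rw [mul_comm]
      exact_mod_cast h3
    omega
  · have h1 : (zs J).filter (fun z => z ≠ 0 ∧ (q : ℤ) ∣ wdg z v) = ∅ := by
      rw [Finset.filter_eq_empty_iff]
      intro z hz' hc
      exact hz ⟨z, hz', hc⟩
    rw [h1, Finset.card_empty]
    exact Nat.zero_le _

private theorem C5_step (J : ℕ) (hJ : 1 ≤ J) :
    ((1 : ℝ) / ((J + 1 : ℕ) : ℝ)) ^ (3 / 2 : ℝ) ≤
      2 * (((1 : ℝ) / J) ^ (1 / 2 : ℝ) - ((1 : ℝ) / ((J + 1 : ℕ) : ℝ)) ^ (1 / 2 : ℝ)) := by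
  have hJ0 : (0 : ℝ) < J := by exact_mod_cast hJ
  have hx : (0 : ℝ) < ((J + 1 : ℕ) : ℝ) := by positivity
  have hxe : (((J + 1 : ℕ) : ℝ)) = J + 1 := by push_cast; ring
  have h1 : ((1 : ℝ) / ((J + 1 : ℕ) : ℝ)) ^ (3 / 2 : ℝ) =
      (1 / ((J + 1 : ℕ) : ℝ)) * (1 / ((J + 1 : ℕ) : ℝ)) ^ (1 / 2 : ℝ) := by
    have h : (3 / 2 : ℝ) = 1 + 1 / 2 := by norm_num
    rw [h, Real.rpow_add (by positivity), Real.rpow_one]
  have h2 : ((1 : ℝ) / ((J + 1 : ℕ) : ℝ)) ^ (1 / 2 : ℝ) =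
      (1 / (J : ℝ)) ^ (1 / 2 : ℝ) * (1 + -(1 / ((J + 1 : ℕ) : ℝ))) ^ (1 / 2 : ℝ) := by
    rw [← Real.mul_rpow (by positivity)]
    · congr 1
      rw [hxe]
      field_simp
      ring
    · rw [hxe]
      have : 1 + -(1 / ((J : ℝ) + 1)) = J / (J + 1) := by field_simp; ring
      rw [this]
      positivity
  have h3 : (1 + -(1 / ((J + 1 : ℕ) : ℝ))) ^ (1 / 2 : ℝ) ≤
      1 + 1 / 2 * -(1 / ((J + 1 : ℕ) : ℝ)) := by
    apply _root_.rpow_one_add_le_one_add_mul_self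
    · have : 1 / ((J + 1 : ℕ) : ℝ) ≤ 1 := by
        rw [div_le_one hx]
        linarith
      linarith
    · norm_num
    · norm_num
  have hw : 0 < ((1 : ℝ) / J) ^ (1 / 2 : ℝ) := Real.rpow_pos_of_pos (by positivity) _
  have hu : 0 < ((1 : ℝ) / ((J + 1 : ℕ) : ℝ)) ^ (1 / 2 : ℝ) :=
    Real.rpow_pos_of_pos (by positivity) _
  have h4 := mul_le_mul_of_nonneg_left h3 hw.le
  rw [← h2] at h4
  have hy : 0 < 1 / ((J + 1 : ℕ) : ℝ) := by positivity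
  have h5 : ((1 : ℝ) / ((J + 1 : ℕ) : ℝ)) ^ (1 / 2 : ℝ) ≤ ((1 : ℝ) / J) ^ (1 / 2 : ℝ) := by
    have := mul_pos hw hy
    nlinarith
  have h6 := mul_le_mul_of_nonneg_left h5 hy.le
  rw [h1]
  nlinarith

private theorem C5_aux (J : ℕ) (hJ : 1 ≤ J) : ∑ k ∈ Finset.Icc 1 J, ((1 : ℝ) / k) ^ (3 / 2 : ℝ) ≤
    3 - 2 * ((1 : ℝ) / J) ^ (1 / 2 : ℝ) := by
  induction J, hJ using Nat.le_induction with
  | base => norm_num
  | succ J hJ ih =>
    rw [Finset.sum_Icc_succ_top (by omega)]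
    have := C5_step J hJ
    linarith

private theorem C5_zeta (J : ℕ) (s : ℝ) (hs : 3 / 2 < s) :
    ∑ k ∈ Finset.Icc 1 J, ((1 : ℝ) / k) ^ s ≤ 3 := by
  have h0 : ∑ k ∈ Finset.Icc 1 J, ((1 : ℝ) / k) ^ s ≤
      ∑ k ∈ Finset.Icc 1 J, ((1 : ℝ) / k) ^ (3 / 2 : ℝ) := by
    refine Finset.sum_le_sum fun k hk => ?_
    rw [Finset.mem_Icc] at hk
    have hk1 : (1 : ℝ) ≤ k := by exact_mod_cast hk.1
    have hk0 : (0 : ℝ) < k := by linarith
    refine Real.rpow_le_rpow_of_exponent_ge (by positivity) ?_ hs.le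
    rw [div_le_one hk0]
    exact hk1
  rcases Nat.eq_zero_or_pos J with rfl | hJ
  · simp
  · have h1 := C5_aux J hJ
    have h2 : 0 ≤ ((1 : ℝ) / J) ^ (1 / 2 : ℝ) := Real.rpow_nonneg (by positivity) _
    linarith

/-- Row C5 (MEDIUM). Compare `LibNZ69/J.lean` (finished, same argument). For each word `w` all the
`z ∈ zs J` with `q ∣ z ∧ vec w` are parallel (`wdg_eq_zero`, `8 J² < q`), so they are the multiples of one
vector `g` (`line_gen`), and the number of the nonzero ones is at most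
`2 ⌊J / nm g⌋ ≤ 2 #{k ∈ [1, J] : ∃ z ≠ 0, nm z ≤ J / k, q ∣ z ∧ vec w}`. Exchange the sums, `countC` with
`Y = J / k`, and `∑_k k^(-s) ≤ 3` (`s > 3/2`). -/
theorem sumJ {A : Finset ℕ} {a : ℕ} {s : ℝ} (hp : PB A a s) :
    ∃ C : ℝ, 1 ≤ C ∧ ∀ Z q J : ℕ, 8 * J ^ 2 < q →
      (∑ w ∈ wP A Z, (((zs J).filter (fun z => z ≠ 0 ∧ (q : ℤ) ∣ wdg z (vec w))).card : ℝ)) ≤
        C * (J : ℝ) ^ s * (1 + ((Z : ℝ) ^ 2 / q) ^ (s / 2)) := by
  classical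
  obtain ⟨C0, hC0, hc⟩ := countC hp
  refine ⟨6 * C0, by linarith, ?_⟩
  intro Z q J h8
  have h8r : 8 * (J : ℝ) ^ 2 < q := by exact_mod_cast h8
  obtain ⟨T, hT⟩ : ∃ T : ℝ, T = 1 + ((Z : ℝ) ^ 2 / q) ^ (s / 2) := ⟨_, rfl⟩
  have hT0 : 0 ≤ T := by rw [hT]; positivity
  have h1 : (∑ w ∈ wP A Z, (((zs J).filter
      (fun z => z ≠ 0 ∧ (q : ℤ) ∣ wdg z (vec w))).card : ℝ)) ≤
      ∑ w ∈ wP A Z, (2 * (((Finset.Icc 1 J).filter (fun k : ℕ => ∃ z : ℤ × ℤ, z ≠ 0 ∧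
        (nm z : ℝ) ≤ (J : ℝ) / k ∧ (q : ℤ) ∣ wdg z (vec w))).card : ℝ)) := by
    refine Finset.sum_le_sum fun w _ => ?_
    exact_mod_cast C5_word q J (vec w) (coprime_vec w) h8
  have h2 : ∑ w ∈ wP A Z, (((Finset.Icc 1 J).filter (fun k : ℕ => ∃ z : ℤ × ℤ, z ≠ 0 ∧
        (nm z : ℝ) ≤ (J : ℝ) / k ∧ (q : ℤ) ∣ wdg z (vec w))).card : ℝ) =
      ∑ k ∈ Finset.Icc 1 J, (((wP A Z).filter (fun w => ∃ z : ℤ × ℤ, z ≠ 0 ∧
        (nm z : ℝ) ≤ (J : ℝ) / k ∧ (q : ℤ) ∣ wdg z (vec w))).card : ℝ) := by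
    simp only [Finset.card_filter]
    push_cast
    exact Finset.sum_comm
  have h3 : ∀ k ∈ Finset.Icc 1 J, (((wP A Z).filter (fun w => ∃ z : ℤ × ℤ, z ≠ 0 ∧
        (nm z : ℝ) ≤ (J : ℝ) / k ∧ (q : ℤ) ∣ wdg z (vec w))).card : ℝ) ≤
      C0 * (J : ℝ) ^ s * T * ((1 : ℝ) / k) ^ s := by
    intro k hk
    rw [Finset.mem_Icc] at hk
    have hk1 : (1 : ℝ) ≤ k := by exact_mod_cast hk.1
    have hk0 : (0 : ℝ) < k := by linarith
    have hkJ : (k : ℝ) ≤ J := by exact_mod_cast hk.2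
    have hY1 : (1 : ℝ) ≤ (J : ℝ) / k := by rw [le_div_iff₀ hk0]; linarith
    have hYJ : (J : ℝ) / k ≤ J := div_le_self (by positivity) hk1
    have hY8 : 8 * ((J : ℝ) / k) ^ 2 < q := by
      refine lt_of_le_of_lt ?_ h8r
      have := pow_le_pow_left₀ (by positivity) hYJ 2
      linarith
    have h4 := hc Z q ((J : ℝ) / k) hY1 hY8
    rw [← hT] at h4
    have h5 : ((J : ℝ) / k) ^ s = (J : ℝ) ^ s * ((1 : ℝ) / k) ^ s := by
      rw [← Real.mul_rpow (by positivity) (by positivity), mul_one_div]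
    rw [h5] at h4
    refine le_trans ?_ (h4.trans (le_of_eq (by ring)))
    apply le_of_eq
    congr!
  have h5 := Finset.sum_le_sum h3
  rw [← Finset.mul_sum] at h5
  have h6 : C0 * (J : ℝ) ^ s * T * ∑ k ∈ Finset.Icc 1 J, ((1 : ℝ) / k) ^ s ≤
      C0 * (J : ℝ) ^ s * T * 3 :=
    mul_le_mul_of_nonneg_left (C5_zeta J s hp.s1) (by positivity)
  rw [← Finset.mul_sum, h2] at h1
  rw [← hT]
  calc (∑ w ∈ wP A Z, (((zs J).filter
      (fun z => z ≠ 0 ∧ (q : ℤ) ∣ wdg z (vec w))).card : ℝ))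
      ≤ 2 * (C0 * (J : ℝ) ^ s * T * 3) := by linarith
    _ = 6 * C0 * (J : ℝ) ^ s * T := by ring

end Pool.Agent.LibZD69
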