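import Pool.Agent.LibZD69.A4
import Pool.Agent.LibZD69.B6

set_option autoImplicit false

namespace Pool.Agent.LibZD69

open Pool.Agent.LibNZ69

private lemma C6_wdg_le (x y : ℤ × ℤ) : |wdg x y| ≤ 2 * (nm x * nm y) := by
  have h1 : |x.1| ≤ nm x := le_max_left _ _
  have h2 : |x.2| ≤ nm x := le_max_right _ _
  have h3 : |y.1| ≤ nm y := le_max_left _ _
  have h4 : |y.2| ≤ nm y := le_max_right _ _
  have h5 : |x.1 * y.2| ≤ nm x * nm y := by
    rw [abs_mul]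
    exact mul_le_mul h1 h4 (abs_nonneg _) (le_trans (abs_nonneg _) h1)
  have h6 : |x.2 * y.1| ≤ nm x * nm y := by
    rw [abs_mul]
    exact mul_le_mul h2 h3 (abs_nonneg _) (le_trans (abs_nonneg _) h2)
  have h7 : |wdg x y| ≤ |x.1 * y.2| + |x.2 * y.1| := abs_sub _ _
  linarith

/-- two words with small continuants whose vectors are congruent modulo `q` are equal -/
private lemma C6_eq {a : ℕ} (ha : 4 ≤ a) {w w' : List ℕ} (hw : ∀ x ∈ w, 1 ≤ x ∧ x < a)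
    (hw' : ∀ x ∈ w', 1 ≤ x ∧ x < a) {R q : ℕ} (h1 : kk w ≤ R) (h2 : kk w' ≤ R)
    (hq : 18 * R ^ 2 < q) (hd : (q : ℤ) ∣ wdg (vec w) (vec w')) : w = w' := by
  obtain ⟨-, -, e1, -, e2⟩ := vec_bounds w (fun x hx => (hw x hx).1)
  obtain ⟨-, -, f1, -, f2⟩ := vec_bounds w' (fun x hx => (hw' x hx).1)
  have g1 : nm (vec w) ≤ 3 * (R : ℤ) := by
    rw [e1]
    have : (kk w : ℤ) ≤ R := by exact_mod_cast h1
    linarith
  have g2 : nm (vec w') ≤ 3 * (R : ℤ) := by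
    rw [f1]
    have : (kk w' : ℤ) ≤ R := by exact_mod_cast h2
    linarith
  have g0 : 0 ≤ nm (vec w) := le_trans (abs_nonneg _) (le_max_left _ _)
  have g0' : 0 ≤ nm (vec w') := le_trans (abs_nonneg _) (le_max_left _ _)
  have h3 : |wdg (vec w) (vec w')| < q := by
    have h4 := C6_wdg_le (vec w) (vec w')
    have h5 : nm (vec w) * nm (vec w') ≤ (3 * (R : ℤ)) * (3 * (R : ℤ)) :=
      mul_le_mul g1 g2 g0' (by positivity)
    have h6 : (18 * (R : ℤ) ^ 2) < q := by exact_mod_cast hq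
    nlinarith
  exact vec_inj a ha w w' hw hw' (Int.eq_zero_of_abs_lt_dvd hd h3)

private lemma C6_rpow_le {s x : ℝ} (_h1 : 3 / 2 < s) (h2 : s ≤ 2) (hx : 1 ≤ x) :
    x ^ (s / 2) ≤ x := by
  calc x ^ (s / 2) ≤ x ^ (1 : ℝ) := Real.rpow_le_rpow_of_exponent_le hx (by linarith)
    _ = x := Real.rpow_one x

/-- Row C6a (MEDIUM). A set `U` of words with `kk ≤ Z` and pairwise `q ∣ vec u ∧ vec u'`. If
`q < 100 a²`... then use `card_wP` (`Z^s ≤ (100 a²)^(s/2) (Z²/q)^(s/2)`). Otherwise put `X = ⌊√q / (5 a)⌋ ≥ 2`,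
so `18 a² X² < q`. The words of `U` with `kk < X`: pairwise wedge `≤ 2 (3X)² < q`, so `0`, so they are equal
(`vec_inj`): at most one. The others: `u = m ++ t`, `t ∈ Cut A a X` (`exists_cut`); for given `m` the `t` is
unique (`dvd_wdg_prefix`, wedge `≤ 2 (3 a X)² < q`, `vec_inj`), and `kk m ≤ Z / X`: at most
`C (Z/X)^s ≤ C' (Z²/q)^(s/2)`. -/
theorem countU {A : Finset ℕ} {a : ℕ} {s : ℝ} (hp : PB A a s) :
    ∃ C : ℝ, 1 ≤ C ∧ ∀ Z q : ℕ, 1 ≤ q → ∀ U : Finset (List ℕ), U ⊆ wP A Z →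
      (∀ w ∈ U, ∀ w' ∈ U, (q : ℤ) ∣ wdg (vec w) (vec w')) →
        (U.card : ℝ) ≤ C * (1 + ((Z : ℝ) ^ 2 / q) ^ (s / 2)) := by
  classical
  obtain ⟨C, hC1, hC⟩ := card_wP hp
  have hA : ∀ x ∈ A, 1 ≤ x := fun x hx => (hp.dig x hx).1
  have ha4 := hp.a4
  have haR : (4 : ℝ) ≤ a := by exact_mod_cast ha4
  have hs0 : 0 ≤ s / 2 := by linarith [hp.s1]
  have hK1 : (1 : ℝ) ≤ 100 * (a : ℝ) ^ 2 := by nlinarith
  refine ⟨100 * (a : ℝ) ^ 2 * C, by nlinarith, ?_⟩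
  intro Z q hq U hU hdvd
  have hq0 : (0 : ℝ) < q := by exact_mod_cast hq
  have hE0 : 0 ≤ ((Z : ℝ) ^ 2 / q) ^ (s / 2) := Real.rpow_nonneg (by positivity) _
  have hZs : (Z : ℝ) ^ s = ((Z : ℝ) ^ 2) ^ (s / 2) := by
    rw [← Real.rpow_two, ← Real.rpow_mul (by positivity)]
    congr 1
    ring
  have hWA : ∀ w ∈ U, WA A w ∧ kk w ≤ Z := fun w hw => (mem_wP hA Z w).1 (hU hw)
  rcases lt_or_ge q (100 * a ^ 2) with hqs | hqs
  · have h1 : (U.card : ℝ) ≤ ((wP A Z).card : ℝ) := by exact_mod_cast Finset.card_le_card hU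
    have h2 := hC Z
    have hqR : (q : ℝ) ≤ 100 * (a : ℝ) ^ 2 := by exact_mod_cast hqs.le
    have h3 : (Z : ℝ) ^ s ≤ 100 * (a : ℝ) ^ 2 * ((Z : ℝ) ^ 2 / q) ^ (s / 2) := by
      have e1 : (Z : ℝ) ^ 2 = q * ((Z : ℝ) ^ 2 / q) := by field_simp
      have e2 : ((Z : ℝ) ^ 2) ^ (s / 2) = (q : ℝ) ^ (s / 2) * ((Z : ℝ) ^ 2 / q) ^ (s / 2) := by
        conv_lhs => rw [e1]
        exact Real.mul_rpow hq0.le (by positivity)
      rw [hZs, e2]
      have e3 : (q : ℝ) ^ (s / 2) ≤ q := C6_rpow_le hp.s1 hp.s2 (by exact_mod_cast hq)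
      exact mul_le_mul_of_nonneg_right (le_trans e3 hqR) hE0
    have h4 : C * (Z : ℝ) ^ s ≤ C * (100 * (a : ℝ) ^ 2 * ((Z : ℝ) ^ 2 / q) ^ (s / 2)) :=
      mul_le_mul_of_nonneg_left h3 (by linarith)
    have h5 : 0 ≤ 100 * (a : ℝ) ^ 2 * C := by positivity
    nlinarith
  · -- the large case
    set X : ℕ := Nat.sqrt q / (5 * a) with hX
    have h5a : 0 < 5 * a := by omega
    have hsq1 : Nat.sqrt q * Nat.sqrt q ≤ q := Nat.sqrt_le q
    have hsq2 : q < (Nat.sqrt q + 1) * (Nat.sqrt q + 1) := Nat.lt_succ_sqrt q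
    have h10 : 10 * a ≤ Nat.sqrt q := by
      rw [Nat.le_sqrt]
      calc 10 * a * (10 * a) = 100 * a ^ 2 := by ring
        _ ≤ q := hqs
    have hX2 : 2 ≤ X := by
      rw [hX, Nat.le_div_iff_mul_le h5a]
      omega
    have hXle : X * (5 * a) ≤ Nat.sqrt q := Nat.div_mul_le_self _ _
    have hXlt : Nat.sqrt q < (X + 1) * (5 * a) := by
      have := Nat.lt_div_mul_add (a := Nat.sqrt q) h5a
      calc Nat.sqrt q < Nat.sqrt q / (5 * a) * (5 * a) + 5 * a := this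
        _ = (X + 1) * (5 * a) := by rw [hX]; ring
    have hXq : 18 * (a * X) ^ 2 < q := by
      have h1 : (X * (5 * a)) * (X * (5 * a)) ≤ q :=
        le_trans (Nat.mul_le_mul hXle hXle) hsq1
      have h2 : 0 < (a * X) ^ 2 := by positivity
      have h3 : (X * (5 * a)) * (X * (5 * a)) = 25 * (a * X) ^ 2 := by ring
      omega
    have hXq' : 18 * X ^ 2 < q := by
      have h1 : X ^ 2 ≤ (a * X) ^ 2 := Nat.pow_le_pow_left (Nat.le_mul_of_pos_left X (by omega)) 2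
      omega
    have hqX : (q : ℝ) ≤ 57 * (a : ℝ) ^ 2 * (X : ℝ) ^ 2 := by
      have h1 : q ≤ ((X + 1) * (5 * a)) * ((X + 1) * (5 * a)) :=
        le_trans hsq2.le (Nat.mul_le_mul hXlt hXlt)
      have h2 : (q : ℝ) ≤ (((X : ℝ) + 1) * (5 * a)) * (((X : ℝ) + 1) * (5 * a)) := by
        exact_mod_cast h1
      have h3 : (2 : ℝ) ≤ X := by exact_mod_cast hX2
      have h4 : ((X : ℝ) + 1) ^ 2 ≤ 9 / 4 * (X : ℝ) ^ 2 := by nlinarith
      have h5 : (((X : ℝ) + 1) * (5 * a)) * (((X : ℝ) + 1) * (5 * a)) =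
          25 * (a : ℝ) ^ 2 * ((X : ℝ) + 1) ^ 2 := by ring
      have h6 : 25 * (a : ℝ) ^ 2 * ((X : ℝ) + 1) ^ 2 ≤ 25 * (a : ℝ) ^ 2 * (9 / 4 * (X : ℝ) ^ 2) :=
        mul_le_mul_of_nonneg_left h4 (by positivity)
      have h7 : 0 ≤ (a : ℝ) ^ 2 * (X : ℝ) ^ 2 := by positivity
      nlinarith
    have hX0 : (0 : ℝ) < X := by
      have : (2 : ℝ) ≤ X := by exact_mod_cast hX2
      linarith
    have hsplit : U.card = (U.filter (fun u => kk u < X)).card +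
        (U.filter (fun u => ¬ kk u < X)).card :=
      (Finset.card_filter_add_card_filter_not (s := U) (fun u => kk u < X)).symm
    have hdig : ∀ w : List ℕ, WA A w → ∀ x ∈ w, 1 ≤ x ∧ x < a := fun w hw x hx =>
      hp.dig x (hw x hx)
    have hsmall : (U.filter (fun u => kk u < X)).card ≤ 1 := by
      rw [Finset.card_le_one]
      intro u hu u' hu'
      rw [Finset.mem_filter] at hu hu'
      exact C6_eq ha4 (hdig u (hWA u hu.1).1) (hdig u' (hWA u' hu'.1).1) hu.2.le hu'.2.le hXq'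
        (hdvd u hu.1 u' hu'.1)
    have hdec : ∀ u : List ℕ, ∃ m t : List ℕ, u ∈ U.filter (fun u => ¬ kk u < X) →
        (u = m ++ t ∧ t ∈ Cut A a X ∧ WA A m) := by
      intro u
      by_cases hu : u ∈ U.filter (fun u => ¬ kk u < X)
      · have hu' := Finset.mem_filter.1 hu
        obtain ⟨m, t, h1, h2, h3⟩ := exists_cut hp.dig hX2 u (hWA u hu'.1).1 (not_lt.1 hu'.2)
        exact ⟨m, t, fun _ => ⟨h1, h2, h3⟩⟩
      · exact ⟨[], [], fun h => absurd h hu⟩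
    choose f g hfg using hdec
    have hlarge : (U.filter (fun u => ¬ kk u < X)).card ≤ (wP A (Z / X)).card := by
      refine Finset.card_le_card_of_injOn f ?_ ?_
      · intro u hu
        have hu0 : u ∈ U.filter (fun u => ¬ kk u < X) := hu
        obtain ⟨h1, h2, h3⟩ := hfg u hu0
        have hu' := Finset.mem_filter.1 hu0
        have hkt := (Cut_bounds hp.dig h2).2.1
        have hkZ := (hWA u hu'.1).2
        rw [h1] at hkZ
        have h4 := kk_append_ge (f u) (g u)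
        show f u ∈ ((wP A (Z / X) : Finset (List ℕ)) : Set (List ℕ))
        rw [Finset.mem_coe, mem_wP hA]
        refine ⟨h3, ?_⟩
        rw [Nat.le_div_iff_mul_le (by omega)]
        calc kk (f u) * X ≤ kk (f u) * kk (g u) := Nat.mul_le_mul_left _ hkt
          _ ≤ kk (f u ++ g u) := h4
          _ ≤ Z := hkZ
      · intro u hu u' hu' hff
        have hu0 : u ∈ U.filter (fun u => ¬ kk u < X) := hu
        have hu0' : u' ∈ U.filter (fun u => ¬ kk u < X) := hu'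
        obtain ⟨h1, h2, h3⟩ := hfg u hu0
        obtain ⟨h1', h2', h3'⟩ := hfg u' hu0'
        have hd := hdvd u (Finset.mem_filter.1 hu0).1 u' (Finset.mem_filter.1 hu0').1
        rw [h1, h1', ← hff, dvd_wdg_prefix] at hd
        have hc := Cut_bounds hp.dig h2
        have hc' := Cut_bounds hp.dig h2'
        have := C6_eq ha4 (hdig _ hc.1) (hdig _ hc'.1) hc.2.2.1 hc'.2.2.1 hXq hd
        rw [h1, h1', ← hff, this]
    have h2 := hC (Z / X)
    have hdiv : ((Z / X : ℕ) : ℝ) ≤ (Z : ℝ) / X := Nat.cast_div_le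
    have h3 : ((Z / X : ℕ) : ℝ) ^ s ≤ 57 * (a : ℝ) ^ 2 * ((Z : ℝ) ^ 2 / q) ^ (s / 2) := by
      have e0 : ((Z / X : ℕ) : ℝ) ^ s ≤ ((Z : ℝ) / X) ^ s :=
        Real.rpow_le_rpow (by positivity) hdiv (by linarith [hp.s1])
      have e1 : ((Z : ℝ) / X) ^ s = (((Z : ℝ) / X) ^ 2) ^ (s / 2) := by
        rw [← Real.rpow_two, ← Real.rpow_mul (by positivity)]
        congr 1
        ring
      have e2 : ((Z : ℝ) / X) ^ 2 ≤ 57 * (a : ℝ) ^ 2 * ((Z : ℝ) ^ 2 / q) := by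
        rw [div_pow, mul_div_assoc', div_le_div_iff₀ (by positivity) hq0]
        have : 0 ≤ (Z : ℝ) ^ 2 := by positivity
        calc (Z : ℝ) ^ 2 * q ≤ (Z : ℝ) ^ 2 * (57 * (a : ℝ) ^ 2 * (X : ℝ) ^ 2) :=
              mul_le_mul_of_nonneg_left hqX this
          _ = 57 * (a : ℝ) ^ 2 * (Z : ℝ) ^ 2 * (X : ℝ) ^ 2 := by ring
      have e3 : (((Z : ℝ) / X) ^ 2) ^ (s / 2) ≤
          (57 * (a : ℝ) ^ 2 * ((Z : ℝ) ^ 2 / q)) ^ (s / 2) :=
        Real.rpow_le_rpow (by positivity) e2 hs0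
      have e4 : (57 * (a : ℝ) ^ 2 * ((Z : ℝ) ^ 2 / q)) ^ (s / 2) =
          (57 * (a : ℝ) ^ 2) ^ (s / 2) * ((Z : ℝ) ^ 2 / q) ^ (s / 2) :=
        Real.mul_rpow (by positivity) (by positivity)
      have e5 : (57 * (a : ℝ) ^ 2) ^ (s / 2) ≤ 57 * (a : ℝ) ^ 2 :=
        C6_rpow_le hp.s1 hp.s2 (by nlinarith)
      rw [e1] at e0
      rw [e4] at e3
      exact le_trans e0 (le_trans e3 (mul_le_mul_of_nonneg_right e5 hE0))
    have h4 : (U.card : ℝ) ≤ 1 + ((wP A (Z / X)).card : ℝ) := by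
      have : U.card ≤ 1 + (wP A (Z / X)).card := by omega
      exact_mod_cast this
    have h5 : C * ((Z / X : ℕ) : ℝ) ^ s ≤ C * (57 * (a : ℝ) ^ 2 * ((Z : ℝ) ^ 2 / q) ^ (s / 2)) :=
      mul_le_mul_of_nonneg_left h3 (by linarith)
    have h6 : (U.card : ℝ) ≤ 1 + C * (57 * (a : ℝ) ^ 2 * ((Z : ℝ) ^ 2 / q) ^ (s / 2)) := by
      linarith
    have h7 : (1 : ℝ) ≤ 100 * (a : ℝ) ^ 2 * C := by nlinarith
    have h8 : C * (57 * (a : ℝ) ^ 2 * ((Z : ℝ) ^ 2 / q) ^ (s / 2)) ≤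
        100 * (a : ℝ) ^ 2 * C * ((Z : ℝ) ^ 2 / q) ^ (s / 2) := by
      have : 0 ≤ C * (a : ℝ) ^ 2 * ((Z : ℝ) ^ 2 / q) ^ (s / 2) := by positivity
      nlinarith
    calc (U.card : ℝ) ≤ 1 + C * (57 * (a : ℝ) ^ 2 * ((Z : ℝ) ^ 2 / q) ^ (s / 2)) := h6
      _ ≤ 100 * (a : ℝ) ^ 2 * C + 100 * (a : ℝ) ^ 2 * C * ((Z : ℝ) ^ 2 / q) ^ (s / 2) :=
        add_le_add h7 h8
      _ = 100 * (a : ℝ) ^ 2 * C * (1 + ((Z : ℝ) ^ 2 / q) ^ (s / 2)) := by ring

/-- a shortest common prefix of a pair of different words is a prefix of all the words -/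
private lemma C6_prefix (T : Finset (List ℕ)) (hT : 1 < T.card) :
    ∃ p u u' : List ℕ, p ++ u ∈ T ∧ p ++ u' ∈ T ∧ u.head? ≠ u'.head? ∧
      ∀ v ∈ T, ∃ r, v = p ++ r := by
  classical
  have hex : ∃ n : ℕ, ∃ p u u' : List ℕ, p.length = n ∧ p ++ u ∈ T ∧ p ++ u' ∈ T ∧
      u.head? ≠ u'.head? := by
    obtain ⟨w, hw, w', hw', hne⟩ := Finset.one_lt_card.1 hT
    obtain ⟨p, u, u', h1, h2, h3⟩ := lcp w w' hne
    exact ⟨p.length, p, u, u', rfl, h1 ▸ hw, h2 ▸ hw', h3⟩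
  obtain ⟨p, u, u', hl, hu, hu', hh⟩ := Nat.find_spec hex
  refine ⟨p, u, u', hu, hu', hh, ?_⟩
  intro v hv
  by_cases hvw : p ++ u = v
  · exact ⟨u, hvw.symm⟩
  · obtain ⟨p1, u1, v1, h1, h2, h3⟩ := lcp _ _ hvw
    have hle : p.length ≤ p1.length := by
      rw [hl]
      exact Nat.find_min' hex ⟨p1, u1, v1, rfl, h1 ▸ hu, h2 ▸ hv, h3⟩
    have hpre : p <+: p1 := by
      refine List.prefix_of_prefix_length_le (l₃ := p ++ u) (List.prefix_append p u) ?_ hle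
      rw [h1]
      exact List.prefix_append p1 u1
    obtain ⟨r, hr⟩ := hpre
    exact ⟨r ++ v1, by rw [h2, ← hr, List.append_assoc]⟩

/-- Row C6 (MEDIUM). If `T` has two different elements take a pair `w = p ++ u`, `w' = p ++ u'` with
`u.head? ≠ u'.head?` (`lcp`) and `p` as short as possible; then `p` is a prefix of all the elements of `T`.
`kk u ≥ kk w / (2 kk p) ≥ Z / (2 C₀ kk p)`, the same for `u'`, and `sep0`, `wdg_prefix`:
`(Z / (2 C₀ kk p))² ≤ a^4 Y`. Apply `countU` to the set of the rests, `kk ≤ Z / kk p` (nat division),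
`(Z / kk p)² ≤ 4 C₀² a^4 Y`. -/
theorem countS {A : Finset ℕ} {a : ℕ} {s : ℝ} (hp : PB A a s) (C₀ : ℕ) :
    ∃ C : ℝ, 1 ≤ C ∧ ∀ Z q : ℕ, 1 ≤ q → ∀ Y : ℝ, 0 ≤ Y → ∀ T : Finset (List ℕ), T ⊆ Wz A Z C₀ →
      (∀ w ∈ T, ∀ w' ∈ T, (q : ℤ) ∣ wdg (vec w) (vec w')) →
      (∀ w ∈ T, ∀ w' ∈ T, (|wdg (vec w) (vec w')| : ℝ) ≤ Y) →
        (T.card : ℝ) ≤ C * (1 + (Y / q) ^ (s / 2)) := by
  classical
  obtain ⟨C, hC1, hC⟩ := countU hp
  have hA : ∀ x ∈ A, 1 ≤ x := fun x hx => (hp.dig x hx).1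
  have ha4 := hp.a4
  have hs0 : 0 ≤ s / 2 := by linarith [hp.s1]
  set K : ℝ := 4 * (C₀ : ℝ) ^ 2 * (a : ℝ) ^ 4 + 1 with hK
  have hK1 : 1 ≤ K := by
    have : 0 ≤ 4 * (C₀ : ℝ) ^ 2 * (a : ℝ) ^ 4 := by positivity
    linarith
  refine ⟨C * K, by nlinarith, ?_⟩
  intro Z q hq Y hY T hT hdvd hwdg
  have hq0 : (0 : ℝ) < q := by exact_mod_cast hq
  have hE0 : 0 ≤ (Y / q) ^ (s / 2) := Real.rpow_nonneg (by positivity) _
  have hCK : 1 ≤ C * K := by nlinarith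
  have hWz : ∀ w ∈ T, WA A w ∧ kk w ≤ Z ∧ Z ≤ C₀ * kk w := fun w hw =>
    (mem_Wz hA Z C₀ w).1 (hT hw)
  rcases Nat.lt_or_ge 1 T.card with hcard | hcard
  · obtain ⟨p, u, u', hu, hu', hh, hall⟩ := C6_prefix T hcard
    have hWu := (WA_append p u).1 (hWz _ hu).1
    have hWu' := (WA_append p u').1 (hWz _ hu').1
    have hdig : ∀ w : List ℕ, WA A w → ∀ x ∈ w, 1 ≤ x ∧ x < a := fun w hw x hx =>
      hp.dig x (hw x hx)
    have hdig1 : ∀ w : List ℕ, WA A w → ∀ x ∈ w, 1 ≤ x := fun w hw x hx => hA x (hw x hx)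
    have hkp : 1 ≤ kk p := kk_pos p (hdig1 p hWu.1)
    -- lower bounds of the two rests
    have hlow : ∀ r : List ℕ, p ++ r ∈ T → ((Z / kk p : ℕ) : ℝ) ≤ 2 * C₀ * kk r := by
      intro r hr
      have hWr := (WA_append p r).1 (hWz _ hr).1
      have h1 := kk_append_le p r (hdig1 p hWr.1) (hdig1 r hWr.2)
      have h2 := (hWz _ hr).2.2
      have h3 : Z / kk p ≤ 2 * C₀ * kk r := by
        apply Nat.div_le_of_le_mul
        calc Z ≤ C₀ * kk (p ++ r) := h2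
          _ ≤ C₀ * (2 * (kk p * kk r)) := Nat.mul_le_mul_left _ h1
          _ = kk p * (2 * C₀ * kk r) := by ring
      exact_mod_cast h3
    have hsep := sep0 a ha4 u u' (hdig u hWu.2) (hdig u' hWu'.2) hh
    rw [← wdg_prefix p u u'] at hsep
    have hsepR : (kk u : ℝ) * kk u' ≤ (a : ℝ) ^ 4 * Y := by
      have h1 : (kk u : ℝ) * kk u' ≤ (a : ℝ) ^ 4 *
          |((wdg (vec (p ++ u)) (vec (p ++ u')) : ℤ) : ℝ)| := by exact_mod_cast hsep
      have h2 := hwdg _ hu _ hu'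
      have h3 : (a : ℝ) ^ 4 * |((wdg (vec (p ++ u)) (vec (p ++ u')) : ℤ) : ℝ)| ≤
          (a : ℝ) ^ 4 * Y := mul_le_mul_of_nonneg_left h2 (by positivity)
      linarith
    have hZ2 : ((Z / kk p : ℕ) : ℝ) ^ 2 ≤ K * Y := by
      have h1 := hlow u hu
      have h2 := hlow u' hu'
      have h3 : ((Z / kk p : ℕ) : ℝ) * ((Z / kk p : ℕ) : ℝ) ≤
          (2 * C₀ * kk u) * (2 * C₀ * kk u') :=
        mul_le_mul h1 h2 (by positivity) (by positivity)
      have h4 : (2 * (C₀ : ℝ) * kk u) * (2 * C₀ * kk u') =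
          4 * (C₀ : ℝ) ^ 2 * ((kk u : ℝ) * kk u') := by ring
      have h5 : 4 * (C₀ : ℝ) ^ 2 * ((kk u : ℝ) * kk u') ≤
          4 * (C₀ : ℝ) ^ 2 * ((a : ℝ) ^ 4 * Y) :=
        mul_le_mul_of_nonneg_left hsepR (by positivity)
      have h6 : 4 * (C₀ : ℝ) ^ 2 * ((a : ℝ) ^ 4 * Y) + Y = K * Y := by rw [hK]; ring
      rw [pow_two]
      linarith
    -- the set of the rests
    have hcardU : T.card = (T.image (fun v => v.drop p.length)).card := by
      rw [Finset.card_image_of_injOn]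
      intro v hv v' hv' hd
      obtain ⟨r, hr⟩ := hall v hv
      obtain ⟨r', hr'⟩ := hall v' hv'
      have hd' : v.drop p.length = v'.drop p.length := hd
      rw [hr, hr', List.drop_left, List.drop_left] at hd'
      rw [hr, hr', hd']
    have hmemU : ∀ r ∈ T.image (fun v => v.drop p.length), p ++ r ∈ T := by
      intro r hr
      obtain ⟨v, hv, hvr⟩ := Finset.mem_image.1 hr
      obtain ⟨r', hr'⟩ := hall v hv
      have hvr' : v.drop p.length = r := hvr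
      rw [hr', List.drop_left] at hvr'
      rw [← hvr', ← hr']
      exact hv
    have h1 := hC (Z / kk p) q hq (T.image (fun v => v.drop p.length)) (by
      intro r hr
      have hr' := hmemU r hr
      rw [mem_wP hA]
      refine ⟨((WA_append p r).1 (hWz _ hr').1).2, ?_⟩
      rw [Nat.le_div_iff_mul_le (by omega)]
      calc kk r * kk p = kk p * kk r := by ring
        _ ≤ kk (p ++ r) := kk_append_ge p r
        _ ≤ Z := (hWz _ hr').2.1) (by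
      intro r hr r' hr'
      exact (dvd_wdg_prefix q p r r').1 (hdvd _ (hmemU r hr) _ (hmemU r' hr')))
    rw [← hcardU] at h1
    have h2 : (((Z / kk p : ℕ) : ℝ) ^ 2 / q) ^ (s / 2) ≤ K * (Y / q) ^ (s / 2) := by
      have e1 : ((Z / kk p : ℕ) : ℝ) ^ 2 / q ≤ K * (Y / q) := by
        rw [mul_div_assoc']
        exact div_le_div_of_nonneg_right hZ2 hq0.le
      calc (((Z / kk p : ℕ) : ℝ) ^ 2 / q) ^ (s / 2) ≤ (K * (Y / q)) ^ (s / 2) :=
            Real.rpow_le_rpow (by positivity) e1 hs0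
        _ = K ^ (s / 2) * (Y / q) ^ (s / 2) := Real.mul_rpow (by linarith) (by positivity)
        _ ≤ K * (Y / q) ^ (s / 2) :=
            mul_le_mul_of_nonneg_right (C6_rpow_le hp.s1 hp.s2 hK1) hE0
    calc (T.card : ℝ) ≤ C * (1 + (((Z / kk p : ℕ) : ℝ) ^ 2 / q) ^ (s / 2)) := h1
      _ ≤ C * (K + K * (Y / q) ^ (s / 2)) := by
          apply mul_le_mul_of_nonneg_left _ (by linarith)
          linarith
      _ = C * K * (1 + (Y / q) ^ (s / 2)) := by ring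
  · have h1 : (T.card : ℝ) ≤ 1 := by exact_mod_cast hcard
    nlinarith

end Pool.Agent.LibZD69
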