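import Pool.Agent.LibZD69.A3
import Pool.Agent.LibNZ69.G1
import Pool.Agent.LibNZ69.G3

set_option autoImplicit false

namespace Pool.Agent.LibZD69

open Pool.Agent.LibNZ69

/-- one coordinate of the size of `z` -/
private theorem D1_coord {M H k q : ℕ} {α : ℤ} {k' q' : ℕ} {α' : ℤ} {v v' z t : ℤ}
    (Q K₁ K₂ Z L : ℕ) (hk : Fz M Q K₁ K₂ k q α) (hk' : Fz M Q K₁ K₂ k' q' α')
    (hv : |v| ≤ 3 * Z) (hv' : |v'| ≤ 3 * Z) (ht : |t| < H)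
    (hZ : 4 * (L * Z) ≤ M) (hH : 24 * (L * H) ≤ M) (hK : 1 ≤ K₂) (hM : 0 < M)
    (h : (M : ℤ) * z = ((q : ℤ) * q') * t - ((q' : ℤ) * ((q : ℤ) * k - α * M)) * v +
      ((q : ℤ) * ((q' : ℤ) * k' - α' * M)) * v') :
    (L : ℤ) * |z| ≤ 7 * ((K₂ : ℤ) * Q ^ 2) := by
  have hMp : (0 : ℤ) < M := by exact_mod_cast hM
  have hq0 : (0 : ℤ) ≤ q := Int.natCast_nonneg q
  have hq0' : (0 : ℤ) ≤ q' := Int.natCast_nonneg q'
  have hL0 : (0 : ℤ) ≤ L := Int.natCast_nonneg L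
  have hZ0 : (0 : ℤ) ≤ Z := Int.natCast_nonneg Z
  have hH0 : (0 : ℤ) ≤ H := Int.natCast_nonneg H
  have hK0 : (1 : ℤ) ≤ K₂ := by exact_mod_cast hK
  have hZz : 4 * ((L : ℤ) * Z) ≤ M := by exact_mod_cast hZ
  have hHz : 24 * ((L : ℤ) * H) ≤ M := by exact_mod_cast hH
  have hq : (q : ℤ) ≤ 2 * Q := by exact_mod_cast hk.qhi.le
  have hq' : (q' : ℤ) ≤ 2 * Q := by exact_mod_cast hk'.qhi.le
  have hqq0 : (0 : ℤ) ≤ (q : ℤ) * q' := mul_nonneg hq0 hq0'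
  have h1 : |(M : ℤ) * z| ≤ ((q : ℤ) * q') * (H + 6 * (K₂ * Z)) := by
    rw [h]
    have b1 : |((q : ℤ) * q') * t| ≤ ((q : ℤ) * q') * H := by
      rw [abs_mul, abs_of_nonneg hqq0]
      exact mul_le_mul_of_nonneg_left ht.le hqq0
    have b2 : |((q' : ℤ) * ((q : ℤ) * k - α * M)) * v| ≤ ((q : ℤ) * q') * (3 * (K₂ * Z)) := by
      rw [abs_mul, abs_mul, abs_of_nonneg hq0']
      calc (q' : ℤ) * |(q : ℤ) * k - α * M| * |v|
          ≤ (q' : ℤ) * ((K₂ : ℤ) * q) * (3 * Z) := by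
            refine mul_le_mul (mul_le_mul_of_nonneg_left hk.rhi hq0') hv (abs_nonneg _) ?_
            positivity
        _ = _ := by ring
    have b3 : |((q : ℤ) * ((q' : ℤ) * k' - α' * M)) * v'| ≤ ((q : ℤ) * q') * (3 * (K₂ * Z)) := by
      rw [abs_mul, abs_mul, abs_of_nonneg hq0]
      calc (q : ℤ) * |(q' : ℤ) * k' - α' * M| * |v'|
          ≤ (q : ℤ) * ((K₂ : ℤ) * q') * (3 * Z) := by
            refine mul_le_mul (mul_le_mul_of_nonneg_left hk'.rhi hq0) hv' (abs_nonneg _) ?_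
            positivity
        _ = _ := by ring
    have b4 := abs_add_le (((q : ℤ) * q') * t - ((q' : ℤ) * ((q : ℤ) * k - α * M)) * v)
      (((q : ℤ) * ((q' : ℤ) * k' - α' * M)) * v')
    have b5 : |((q : ℤ) * q') * t - ((q' : ℤ) * ((q : ℤ) * k - α * M)) * v| ≤
        |((q : ℤ) * q') * t| + |((q' : ℤ) * ((q : ℤ) * k - α * M)) * v| := by
      have := abs_add_le (((q : ℤ) * q') * t) (-(((q' : ℤ) * ((q : ℤ) * k - α * M)) * v))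
      rwa [abs_neg, ← sub_eq_add_neg] at this
    linarith
  have h2 : ((q : ℤ) * q') ≤ 4 * Q ^ 2 := by
    calc (q : ℤ) * q' ≤ (2 * Q) * (2 * Q) := mul_le_mul hq hq' hq0' (by positivity)
      _ = 4 * Q ^ 2 := by ring
  have h3 : (M : ℤ) * |z| ≤ (4 * Q ^ 2) * (H + 6 * (K₂ * Z)) := by
    have c1 : (M : ℤ) * |z| = |(M : ℤ) * z| := by
      rw [abs_mul, abs_of_pos hMp]
    rw [c1]
    refine h1.trans (mul_le_mul_of_nonneg_right h2 ?_)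
    positivity
  have h4 : (M : ℤ) * (24 * ((L : ℤ) * |z|)) ≤ M * (24 * (7 * ((K₂ : ℤ) * Q ^ 2))) := by
    have hQ2 : (0 : ℤ) ≤ (Q : ℤ) ^ 2 := by positivity
    have e1 : (M : ℤ) * (24 * ((L : ℤ) * |z|)) = 24 * L * ((M : ℤ) * |z|) := by ring
    rw [e1]
    have e2 : 24 * (L : ℤ) * ((M : ℤ) * |z|) ≤ 24 * L * ((4 * Q ^ 2) * (H + 6 * (K₂ * Z))) :=
      mul_le_mul_of_nonneg_left h3 (by positivity)
    refine e2.trans ?_
    have e3 : 24 * (L : ℤ) * ((4 * Q ^ 2) * (H + 6 * (K₂ * Z))) =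
        (4 * Q ^ 2) * (24 * ((L : ℤ) * H)) + (144 * Q ^ 2 * K₂) * (4 * ((L : ℤ) * Z)) := by ring
    rw [e3]
    have e4 : (4 * (Q : ℤ) ^ 2) * (24 * ((L : ℤ) * H)) ≤ (4 * Q ^ 2) * M :=
      mul_le_mul_of_nonneg_left hHz (by positivity)
    have e5 : (144 * (Q : ℤ) ^ 2 * K₂) * (4 * ((L : ℤ) * Z)) ≤ (144 * Q ^ 2 * K₂) * M :=
      mul_le_mul_of_nonneg_left hZz (by positivity)
    have e6 : (4 * (Q : ℤ) ^ 2 * M) * 1 ≤ (4 * Q ^ 2 * M) * K₂ :=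
      mul_le_mul_of_nonneg_left hK0 (by positivity)
    have e7 : (0 : ℤ) ≤ (Q : ℤ) ^ 2 * M * K₂ := by positivity
    nlinarith
  have h5 := le_of_mul_le_mul_left h4 hMp
  linarith

/-- Row D1a (SHORT). Size of `z`:
`M |z| ≤ q q' H + 2 q q' K₂ 3 Z < 4 Q² (H + 6 K₂ Z)`, multiply by `L`. -/
theorem zsize {M H k q : ℕ} {α : ℤ} {v : ℤ × ℤ} {k' q' : ℕ} {α' : ℤ} {v' z : ℤ × ℤ}
    (h : Rel M H k q α v k' q' α' v' z) (Q K₁ K₂ Z L : ℕ) (hk : Fz M Q K₁ K₂ k q α)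
    (hk' : Fz M Q K₁ K₂ k' q' α') (hv : nm v ≤ 3 * Z) (hv' : nm v' ≤ 3 * Z)
    (hZ : 4 * (L * Z) ≤ M) (hH : 24 * (L * H) ≤ M) (hL : 1 ≤ L) (hK : 1 ≤ K₂) (hM : 0 < M) :
    (L : ℤ) * nm z ≤ 7 * ((K₂ : ℤ) * Q ^ 2) := by
  obtain ⟨c, t, ht, -, h2⟩ := h
  have e1 := congrArg Prod.fst h2
  have e2 := congrArg Prod.snd h2
  simp only [Prod.smul_fst, Prod.fst_sub, Prod.fst_add, smul_eq_mul] at e1
  simp only [Prod.smul_snd, Prod.snd_sub, Prod.snd_add, smul_eq_mul] at e2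
  have c1 : (L : ℤ) * |z.1| ≤ 7 * ((K₂ : ℤ) * Q ^ 2) :=
    D1_coord Q K₁ K₂ Z L hk hk' ((le_max_left _ _).trans hv)
      ((le_max_left _ _).trans hv') ((le_max_left _ _).trans_lt ht) hZ hH hK hM e1
  have c2 : (L : ℤ) * |z.2| ≤ 7 * ((K₂ : ℤ) * Q ^ 2) :=
    D1_coord Q K₁ K₂ Z L hk hk' ((le_max_right _ _).trans hv)
      ((le_max_right _ _).trans hv') ((le_max_right _ _).trans_lt ht) hZ hH hK hM e2
  unfold nm
  rcases max_choice |z.1| |z.2| with hm | hm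
  · rw [hm]; exact c1
  · rw [hm]; exact c2

/-- Row D1b (SHORT). Compare `LibNZ69.rel_wdg` (file G3). If `K₁ = 0` use `abs_wdg_le`; otherwise
`K₁ q' ≤ |r''|` and `|r''| |v' ∧ v''| ≤ q' 2 nm v' 2 H ≤ 12 Z² q'` (`rel_sub`). -/
theorem rel_wdgz {M H k q : ℕ} {α : ℤ} {v : ℤ × ℤ} {q' : ℕ} {z : ℤ × ℤ} (hq : 1 ≤ q)
    {k' : ℕ} {α' : ℤ} {v' : ℤ × ℤ} {k'' : ℕ} {α'' : ℤ} {v'' : ℤ × ℤ}
    (h' : Rel M H k q α v k' q' α' v' z) (h'' : Rel M H k q α v k'' q' α'' v'' z)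
    (Q K₁ K₂ Z : ℕ) (hQ : 1 ≤ Q) (hk' : Fz M Q K₁ K₂ k' q' α') (hk'' : Fz M Q K₁ K₂ k'' q' α'')
    (hH : H ≤ Z) (hv' : nm v' ≤ 3 * Z) (hv'' : nm v'' ≤ 3 * Z) :
    (q' : ℤ) ∣ wdg v' v'' ∧ |wdg v' v''| * max 1 (K₁ : ℤ) ≤ 18 * (Z : ℤ) ^ 2 := by
  obtain ⟨⟨ζ, hζ⟩, τ, hτ, hτe⟩ := rel_sub hq h' h''
  have h1 := congrArg Prod.fst hζ
  have h2 := congrArg Prod.snd hζ
  have h3 := congrArg Prod.fst hτe
  have h4 := congrArg Prod.snd hτe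
  simp only [Prod.smul_fst, Prod.smul_snd, Prod.fst_sub, Prod.snd_sub, smul_eq_mul] at h1 h2 h3 h4
  have hZ0 : (0 : ℤ) ≤ Z := Int.natCast_nonneg Z
  have hn1 := nm_nonneg v'
  have hn2 := nm_nonneg v''
  constructor
  · have e : α'' * wdg v' v'' = (q' : ℤ) * wdg ζ v' := by
      unfold wdg
      linear_combination v'.2 * h1 - v'.1 * h2
    exact hk''.cop.symm.dvd_of_dvd_mul_left ⟨_, e⟩
  · rcases Nat.eq_zero_or_pos K₁ with hj | hj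
    · subst hj
      have hm : max 1 (((0 : ℕ)) : ℤ) = 1 := by simp
      rw [hm, mul_one]
      refine (abs_wdg_le v' v'').trans ?_
      have := mul_le_mul hv' hv'' hn2 (by positivity)
      nlinarith
    · have hK1 : (1 : ℤ) ≤ K₁ := by exact_mod_cast hj
      have hm : max 1 (K₁ : ℤ) = K₁ := max_eq_right hK1
      rw [hm]
      have hqp : (0 : ℤ) < q' := by
        have h5 : 1 ≤ q' := hQ.trans hk''.qlo
        exact_mod_cast h5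
      have e : ((q' : ℤ) * k'' - α'' * M) * wdg v' v'' = (q' : ℤ) * wdg τ v' := by
        unfold wdg
        linear_combination v'.2 * h3 - v'.1 * h4
      have e' : |(q' : ℤ) * k'' - α'' * M| * |wdg v' v''| = (q' : ℤ) * |wdg τ v'| := by
        rw [← abs_mul, e, abs_mul, abs_of_pos hqp]
      have h6 : |wdg τ v'| ≤ 2 * (nm τ * nm v') := abs_wdg_le τ v'
      have hHz : (H : ℤ) ≤ Z := by exact_mod_cast hH
      have h7 : nm τ * nm v' ≤ (2 * (Z : ℤ)) * (3 * Z) :=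
        mul_le_mul (by linarith) hv' hn1 (by positivity)
      have h8 : |wdg τ v'| ≤ 18 * (Z : ℤ) ^ 2 := by
        nlinarith
      have h9 : (K₁ : ℤ) * q' * |wdg v' v''| ≤ (q' : ℤ) * (18 * (Z : ℤ) ^ 2) := by
        calc (K₁ : ℤ) * q' * |wdg v' v''|
            ≤ |(q' : ℤ) * k'' - α'' * M| * |wdg v' v''| :=
              mul_le_mul_of_nonneg_right hk''.rlo (abs_nonneg _)
          _ = (q' : ℤ) * |wdg τ v'| := e'
          _ ≤ _ := mul_le_mul_of_nonneg_left h8 hqp.le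
      refine le_of_mul_le_mul_left ?_ hqp
      calc (q' : ℤ) * (|wdg v' v''| * (K₁ : ℤ)) = (K₁ : ℤ) * q' * |wdg v' v''| := by ring
        _ ≤ _ := h9

/-- Row D1c (SHORT). Compare `LibNZ69.rel_same` (file G3): `|k' - k'' - c M| nm v' ≤ 2 H`. -/
theorem rel_samez {M H k q : ℕ} {α : ℤ} {v : ℤ × ℤ} {q' : ℕ} {z : ℤ × ℤ} (hq : 1 ≤ q)
    (hq' : 1 ≤ q') {k' : ℕ} {α' : ℤ} {v' : ℤ × ℤ} {k'' : ℕ} {α'' : ℤ}
    (h' : Rel M H k q α v k' q' α' v' z) (h'' : Rel M H k q α v k'' q' α'' v' z)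
    (Z C₀ : ℕ) (hv : IsCoprime v'.1 v'.2) (hH : H ≤ Z) (hv' : (Z : ℤ) ≤ C₀ * nm v') :
    ∃ c : ℤ, |(k' : ℤ) - k'' - c * M| ≤ 2 * C₀ := by
  obtain ⟨⟨ζ, hζ⟩, τ, hτ, hτe⟩ := rel_sub hq h' h''
  have h1 := congrArg Prod.fst hζ
  have h2 := congrArg Prod.snd hζ
  have h3 := congrArg Prod.fst hτe
  have h4 := congrArg Prod.snd hτe
  simp only [Prod.smul_fst, Prod.smul_snd, Prod.fst_sub, Prod.snd_sub, smul_eq_mul] at h1 h2 h3 h4
  have hq0 : (q' : ℤ) ≠ 0 := by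
    have : (1 : ℤ) ≤ q' := by exact_mod_cast hq'
    omega
  have hpos : 0 < nm v' := by
    rcases (nm_nonneg v').lt_or_eq with hp | hp
    · exact hp
    · exfalso
      have a1 : |v'.1| ≤ 0 := by rw [hp]; exact le_max_left _ _
      have a2 : |v'.2| ≤ 0 := by rw [hp]; exact le_max_right _ _
      have b1 : v'.1 = 0 := abs_nonpos_iff.1 a1
      have b2 : v'.2 = 0 := abs_nonpos_iff.1 a2
      rw [b1, b2] at hv
      obtain ⟨s, t, hst⟩ := hv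
      simp at hst
  obtain ⟨s, t, hst⟩ := hv
  have hc : α' - α'' = (q' : ℤ) * (s * ζ.1 + t * ζ.2) := by
    linear_combination (-(α' - α'')) * hst + s * h1 + t * h2
  refine ⟨s * ζ.1 + t * ζ.2, ?_⟩
  generalize s * ζ.1 + t * ζ.2 = c at hc
  have e1 : ((k' : ℤ) - k'' - c * M) * v'.1 = τ.1 := by
    refine mul_left_cancel₀ hq0 ?_
    linear_combination h3 + M * v'.1 * hc
  have e2 : ((k' : ℤ) - k'' - c * M) * v'.2 = τ.2 := by
    refine mul_left_cancel₀ hq0 ?_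
    linear_combination h4 + M * v'.2 * hc
  have e : ((k' : ℤ) - k'' - c * M) • v' = τ := Prod.ext e1 e2
  have en : |(k' : ℤ) - k'' - c * M| * nm v' ≤ 2 * H := by
    rw [← nm_smul, e]
    exact hτ
  have hHz : (H : ℤ) ≤ Z := by exact_mod_cast hH
  refine le_of_mul_le_mul_right ?_ hpos
  calc |(k' : ℤ) - k'' - c * M| * nm v' ≤ 2 * H := en
    _ ≤ 2 * Z := by linarith
    _ ≤ 2 * (C₀ * nm v') := by linarith
    _ = 2 * C₀ * nm v' := by ring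

end Pool.Agent.LibZD69
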