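import Pool.Agent.LibZD69.D3
import Pool.Agent.LibZD69.C5

set_option autoImplicit false

namespace Pool.Agent.LibZD69

open Pool.Agent.LibNZ69

private theorem D4_J (K₂ Q L : ℕ) (hQ : 1 ≤ Q) (hK : 1 ≤ K₂) (_hL : 1 ≤ L)
    (h : 400 * (K₂ ^ 2 * Q ^ 3) ≤ L ^ 2) : 8 * (7 * (K₂ * Q ^ 2) / L) ^ 2 < Q := by
  set J := 7 * (K₂ * Q ^ 2) / L with hJ
  have h1 : J * L ≤ 7 * (K₂ * Q ^ 2) := Nat.div_mul_le_self _ _
  have h2 : (J * L) ^ 2 ≤ (7 * (K₂ * Q ^ 2)) ^ 2 := Nat.pow_le_pow_left h1 2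
  by_contra hcon
  rw [not_lt] at hcon
  have h3 : Q * (400 * (K₂ ^ 2 * Q ^ 3)) ≤ 8 * J ^ 2 * L ^ 2 := Nat.mul_le_mul hcon h
  have h4 : 8 * J ^ 2 * L ^ 2 ≤ 8 * (7 * (K₂ * Q ^ 2)) ^ 2 := by
    calc 8 * J ^ 2 * L ^ 2 = 8 * (J * L) ^ 2 := by ring
      _ ≤ 8 * (7 * (K₂ * Q ^ 2)) ^ 2 := Nat.mul_le_mul_left 8 h2
  have h5 : Q * (400 * (K₂ ^ 2 * Q ^ 3)) = 400 * (K₂ ^ 2 * Q ^ 4) := by ring
  have h6 : 8 * (7 * (K₂ * Q ^ 2)) ^ 2 = 392 * (K₂ ^ 2 * Q ^ 4) := by ring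
  have h7 : 0 < K₂ ^ 2 * Q ^ 4 := by positivity
  omega

private theorem D4_num {s : ℝ} (h1 : 3 / 2 < s) (Z J q Q : ℕ) (hq : 1 ≤ q) (hQq : Q ≤ q)
    (hJ : 8 * J ^ 2 < Q) :
    (J : ℝ) ^ s * (1 + ((Z : ℝ) ^ 2 / q) ^ (s / 2)) ≤ (Z : ℝ) ^ s + (Q : ℝ) ^ (s / 2) := by
  have hqR : (0 : ℝ) < q := by exact_mod_cast hq
  have hJQ : (J : ℝ) ^ 2 ≤ Q := by
    have : J ^ 2 ≤ Q := by omega
    exact_mod_cast this
  have hJq : (J : ℝ) ^ 2 ≤ q := hJQ.trans (by exact_mod_cast hQq)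
  have hs0 : 0 ≤ s / 2 := by linarith
  have eJ : (J : ℝ) ^ s = ((J : ℝ) ^ 2) ^ (s / 2) := by
    rw [← Real.rpow_natCast (J : ℝ) 2, ← Real.rpow_mul (Nat.cast_nonneg J)]
    congr 1
    push_cast
    ring
  have eZ : (Z : ℝ) ^ s = ((Z : ℝ) ^ 2) ^ (s / 2) := by
    rw [← Real.rpow_natCast (Z : ℝ) 2, ← Real.rpow_mul (Nat.cast_nonneg Z)]
    congr 1
    push_cast
    ring
  have a1 : (J : ℝ) ^ s ≤ (Q : ℝ) ^ (s / 2) := by
    rw [eJ]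
    exact Real.rpow_le_rpow (by positivity) hJQ hs0
  have a2 : (J : ℝ) ^ s * ((Z : ℝ) ^ 2 / q) ^ (s / 2) ≤ (Z : ℝ) ^ s := by
    rw [eJ, eZ, ← Real.mul_rpow (by positivity) (by positivity)]
    refine Real.rpow_le_rpow (by positivity) ?_ hs0
    rw [← mul_div_assoc, div_le_iff₀ hqR, mul_comm]
    exact mul_le_mul_of_nonneg_left hJq (by positivity)
  rw [mul_add, mul_one]
  linarith

open scoped Classical in
/-- Row D4 (MEDIUM/LONG). Compare `LibNZ69/G7.lean` (finished). The number of the close pairs for one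
frequency `k`. Put `Z = M / (20 a L)`, `J = 7 K₂ Q² / L` (nat division), so `8 J² < Q ≤ q` (`8 · 49 < 400`).
`H ≤ Z`. Cover the set by: `w ∈ Wz`, `z` (`rel_of_close`) with `nm z ≤ J` (`zsize`, `vec_bounds`),
`q ∣ z ∧ vec w` (`rel_dvd`), `q'` in the set of `card_moduli` with `B = 2` (at most 2 values), and
`(k', w')` with `qf k' = q'` (`countTz`). The number of the `(w, z)`: `z = 0`: at most `C Z^s` (`card_wP`);
`z ≠ 0`: `sumJ`: `C J^s (1 + (Z²/q)^(s/2)) ≤ C (q^(s/2) + Z^s)` because `J² ≤ q`. -/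
theorem countRowz {A : Finset ℕ} {a : ℕ} {s : ℝ} (hp : PB A a s) (C₀ : ℕ) :
    ∃ C : ℝ, 1 ≤ C ∧ ∀ M H L Q K₁ K₂ : ℕ, 0 < M → 1 ≤ Q → 1 ≤ K₂ → 1 ≤ L → 24 * (a * (L * H)) ≤ M →
      400 * (K₂ ^ 2 * Q ^ 3) ≤ L ^ 2 → ∀ R : Finset ℕ, (∀ k ∈ R, k < M) →
      ∀ (qf : ℕ → ℕ) (af : ℕ → ℤ), (∀ k ∈ R, Fz M Q K₁ K₂ k (qf k) (af k)) → ∀ k ∈ R,
        (((Wz A (M / (20 * (a * L))) C₀ ×ˢ (R ×ˢ Wz A (M / (20 * (a * L))) C₀)).filter (fun p =>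
          close M H ((k : ℤ) • vec p.1) ((p.2.1 : ℤ) • vec p.2.2))).card : ℝ) ≤
          C * ((((M / (20 * (a * L)) : ℕ) : ℝ)) ^ s + (Q : ℝ) ^ (s / 2)) *
            (1 + ((((M / (20 * (a * L)) : ℕ) : ℝ)) ^ 2 / (Q * max 1 (K₁ : ℝ))) ^ (s / 2)) := by
  obtain ⟨C1, hC1, hcW⟩ := card_wP hp
  obtain ⟨C2, hC2, hsJ⟩ := sumJ hp
  obtain ⟨C3, hC3, hT3⟩ := countTz hp C₀
  refine ⟨2 * (C1 + C2) * C3, ?_, ?_⟩
  · nlinarith [mul_le_mul hC1 hC3 zero_le_one (by linarith : (0 : ℝ) ≤ C1),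
      mul_le_mul hC2 hC3 zero_le_one (by linarith : (0 : ℝ) ≤ C2)]
  intro M H L Q K₁ K₂ hM0 hQ1 hK2 hL1 hH hKQ R hR qf af hf k hk
  have ha4 : 4 ≤ a := hp.a4
  have hA1 : ∀ x ∈ A, 1 ≤ x := fun x hx => (hp.dig x hx).1
  have haL : 0 < 20 * (a * L) := by positivity
  set Z := M / (20 * (a * L)) with hZdef
  have hZM : Z * (20 * (a * L)) ≤ M := Nat.div_mul_le_self _ _
  have hHZ : H ≤ Z := by
    rw [hZdef, Nat.le_div_iff_mul_le haL]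
    calc H * (20 * (a * L)) = 20 * (a * (L * H)) := by ring
      _ ≤ 24 * (a * (L * H)) := Nat.mul_le_mul_right _ (by norm_num)
      _ ≤ M := hH
  have hZ4 : 4 * (L * Z) ≤ M := by
    calc 4 * (L * Z) = 4 * 1 * (L * Z) := by ring
      _ ≤ 20 * a * (L * Z) := Nat.mul_le_mul_right _ (Nat.mul_le_mul (by norm_num) (by omega))
      _ = Z * (20 * (a * L)) := by ring
      _ ≤ M := hZM
  have hH4 : 24 * (L * H) ≤ M := by
    calc 24 * (L * H) = 24 * (1 * (L * H)) := by ring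
      _ ≤ 24 * (a * (L * H)) := by
          refine Nat.mul_le_mul_left _ (Nat.mul_le_mul_right _ (by omega))
      _ ≤ M := hH
  have hZ4' : 4 * ((L : ℤ) * Z) ≤ M := by exact_mod_cast hZ4
  have hfk := hf k hk
  set q := qf k with hq
  set α := af k with hα
  have hq1 : 1 ≤ q := hQ1.trans hfk.qlo
  set J := 7 * (K₂ * Q ^ 2) / L with hJ
  have hJQ : 8 * J ^ 2 < Q := D4_J K₂ Q L hQ1 hK2 hL1 hKQ
  have hJq : 8 * J ^ 2 < q := hJQ.trans_le hfk.qlo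
  set T : ℝ := C3 * (1 + ((Z : ℝ) ^ 2 / (Q * max 1 (K₁ : ℝ))) ^ (s / 2)) with hT
  have hmx : (0 : ℝ) ≤ ((Z : ℝ) ^ 2 / (Q * max 1 (K₁ : ℝ))) ^ (s / 2) := by positivity
  have hT0 : 0 ≤ T := by
    have : 0 ≤ C3 := by linarith
    positivity
  have hnm : ∀ w ∈ Wz A Z C₀, nm (vec w) ≤ 3 * Z := by
    intro w hw
    rw [mem_Wz hA1] at hw
    obtain ⟨-, -, h3, -, h5⟩ := vec_bounds w (fun x hx => hA1 x (hw.1 x hx))
    rw [h3]
    have h6 : (kk w : ℤ) ≤ Z := by exact_mod_cast hw.2.1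
    linarith
  set Zs : List ℕ → Finset (ℤ × ℤ) := fun w => (zs J).filter (fun z => (q : ℤ) ∣ wdg z (vec w))
    with hZs
  set Mo : List ℕ → ℤ × ℤ → Finset ℕ := fun w z =>
    (Finset.Ico Q (2 * Q)).filter (fun q' : ℕ => (q : ℤ) ∣ α * q' * (vec w).1 - z.1 ∧
      (q : ℤ) ∣ α * q' * (vec w).2 - z.2) with hMo
  set Tt : List ℕ → ℤ × ℤ → ℕ → Finset (ℕ × List ℕ) := fun w z q' =>
    ((R.filter (fun k' => qf k' = q')) ×ˢ Wz A Z C₀).filter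
      (fun p => Rel M H k q α (vec w) p.1 q' (af p.1) (vec p.2) z) with hTt
  have hsub : ((Wz A Z C₀ ×ˢ (R ×ˢ Wz A Z C₀)).filter (fun p =>
      close M H ((k : ℤ) • vec p.1) ((p.2.1 : ℤ) • vec p.2.2))) ⊆
      (Wz A Z C₀).biUnion fun w => (Zs w).biUnion fun z => (Mo w z).biUnion fun q' =>
        (Tt w z q').image (fun p => (w, p)) := by
    rintro ⟨w, k', w'⟩ hp'
    rw [Finset.mem_filter, Finset.mem_product, Finset.mem_product] at hp'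
    obtain ⟨⟨hw, hk', hw'⟩, hcl⟩ := hp'
    simp only at hw hk' hw' hcl
    have hfk' := hf k' hk'
    obtain ⟨z, hz⟩ := rel_of_close M H k q α (vec w) k' (qf k') (af k') (vec w') hcl
    obtain ⟨d1, d2, d3⟩ := rel_dvd hz
    have hLz := zsize hz Q K₁ K₂ Z L hfk hfk' (hnm w hw) (hnm w' hw') (by exact_mod_cast hZ4')
      (by exact_mod_cast hH4) hL1 hK2 hM0
    have hnz : nm z ≤ (J : ℤ) := by
      have hn0 : 0 ≤ nm z := nm_nonneg z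
      obtain ⟨n, hn⟩ := Int.eq_ofNat_of_zero_le hn0
      rw [hn] at hLz ⊢
      have h7 : n * L ≤ 7 * (K₂ * Q ^ 2) := by
        have h8 : (L : ℤ) * (n : ℤ) ≤ 7 * ((K₂ : ℤ) * Q ^ 2) := hLz
        have h9 : ((n * L : ℕ) : ℤ) ≤ ((7 * (K₂ * Q ^ 2) : ℕ) : ℤ) := by
          push_cast
          linarith
        exact_mod_cast h9
      have h10 : n ≤ J := by
        rw [hJ, Nat.le_div_iff_mul_le (by omega)]
        exact h7
      exact_mod_cast h10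
    rw [Finset.mem_biUnion]
    refine ⟨w, hw, ?_⟩
    rw [Finset.mem_biUnion]
    refine ⟨z, ?_, ?_⟩
    · rw [hZs, Finset.mem_filter, mem_zs]
      exact ⟨hnz, d3⟩
    rw [Finset.mem_biUnion]
    refine ⟨qf k', ?_, ?_⟩
    · rw [hMo, Finset.mem_filter, Finset.mem_Ico]
      exact ⟨⟨hfk'.qlo, hfk'.qhi⟩, d1, d2⟩
    rw [Finset.mem_image]
    refine ⟨(k', w'), ?_, rfl⟩
    rw [hTt, Finset.mem_filter, Finset.mem_product, Finset.mem_filter]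
    exact ⟨⟨⟨hk', rfl⟩, hw'⟩, hz⟩
  have hTt_le : ∀ w z q', ((Tt w z q').card : ℝ) ≤ T := by
    intro w z q'
    refine hT3 M H Z Q K₁ K₂ k q α (vec w) q' z hq1 hQ1 hHZ (R.filter (fun k' => qf k' = q'))
      (fun k' hk' => hR k' (Finset.mem_filter.1 hk').1) af (fun k' hk' => ?_)
    obtain ⟨h1, h2⟩ := Finset.mem_filter.1 hk'
    rw [← h2]
    exact hf k' h1
  have hMo_le : ∀ w z, ((Mo w z).card : ℝ) ≤ 2 := by
    intro w z
    have h1 := card_moduli 2 Q q hQ1 hfk.qlo α hfk.cop (vec w) z (coprime_vec w)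
    exact_mod_cast h1
  have hcard : (((Wz A Z C₀ ×ˢ (R ×ˢ Wz A Z C₀)).filter (fun p =>
      close M H ((k : ℤ) • vec p.1) ((p.2.1 : ℤ) • vec p.2.2))).card : ℝ) ≤
      ∑ w ∈ Wz A Z C₀, ∑ z ∈ Zs w, ∑ q' ∈ Mo w z, ((Tt w z q').card : ℝ) := by
    have h1 : ((Wz A Z C₀ ×ˢ (R ×ˢ Wz A Z C₀)).filter (fun p =>
      close M H ((k : ℤ) • vec p.1) ((p.2.1 : ℤ) • vec p.2.2))).card ≤
      ∑ w ∈ Wz A Z C₀, ∑ z ∈ Zs w, ∑ q' ∈ Mo w z, (Tt w z q').card := by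
      refine (Finset.card_le_card hsub).trans ?_
      refine Finset.card_biUnion_le.trans (Finset.sum_le_sum fun w _ => ?_)
      refine Finset.card_biUnion_le.trans (Finset.sum_le_sum fun z _ => ?_)
      refine Finset.card_biUnion_le.trans (Finset.sum_le_sum fun q' _ => ?_)
      exact Finset.card_image_le
    exact_mod_cast h1
  have hsum : ∑ w ∈ Wz A Z C₀, ∑ z ∈ Zs w, ∑ q' ∈ Mo w z, ((Tt w z q').card : ℝ) ≤
      (∑ w ∈ Wz A Z C₀, ((Zs w).card : ℝ)) * (2 * T) := by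
    rw [Finset.sum_mul]
    refine Finset.sum_le_sum fun w _ => ?_
    calc ∑ z ∈ Zs w, ∑ q' ∈ Mo w z, ((Tt w z q').card : ℝ) ≤ ∑ z ∈ Zs w, (2 : ℝ) * T := by
          refine Finset.sum_le_sum fun z _ => ?_
          calc ∑ q' ∈ Mo w z, ((Tt w z q').card : ℝ) ≤ ∑ q' ∈ Mo w z, T :=
                Finset.sum_le_sum fun q' _ => hTt_le w z q'
            _ = ((Mo w z).card : ℝ) * T := by rw [Finset.sum_const, nsmul_eq_mul]
            _ ≤ 2 * T := mul_le_mul_of_nonneg_right (hMo_le w z) hT0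
      _ = ((Zs w).card : ℝ) * (2 * T) := by rw [Finset.sum_const, nsmul_eq_mul]
  -- the number of the pairs `(w, z)`
  have hWsub : Wz A Z C₀ ⊆ wP A Z := by
    intro w hw
    rw [mem_Wz hA1] at hw
    rw [mem_wP hA1]
    exact ⟨hw.1, hw.2.1⟩
  have hZw : ∀ w, ((Zs w).card : ℝ) ≤
      1 + (((zs J).filter (fun z => z ≠ 0 ∧ (q : ℤ) ∣ wdg z (vec w))).card : ℝ) := by
    intro w
    have h1 : Zs w ⊆ insert 0 ((zs J).filter (fun z => z ≠ 0 ∧ (q : ℤ) ∣ wdg z (vec w))) := by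
      intro z hz
      rw [hZs, Finset.mem_filter] at hz
      rw [Finset.mem_insert, Finset.mem_filter]
      by_cases h0 : z = 0
      · exact Or.inl h0
      · exact Or.inr ⟨hz.1, h0, hz.2⟩
    have h2 := (Finset.card_le_card h1).trans (Finset.card_insert_le _ _)
    have h3 : ((Zs w).card : ℝ) ≤
        (((zs J).filter (fun z => z ≠ 0 ∧ (q : ℤ) ∣ wdg z (vec w))).card : ℝ) + 1 := by
      exact_mod_cast h2
    linarith
  have hpairs : (∑ w ∈ Wz A Z C₀, ((Zs w).card : ℝ)) ≤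
      (C1 + C2) * ((Z : ℝ) ^ s + (Q : ℝ) ^ (s / 2)) := by
    calc (∑ w ∈ Wz A Z C₀, ((Zs w).card : ℝ)) ≤ ∑ w ∈ wP A Z, ((Zs w).card : ℝ) :=
          Finset.sum_le_sum_of_subset_of_nonneg hWsub (fun _ _ _ => Nat.cast_nonneg _)
      _ ≤ ∑ w ∈ wP A Z,
          (1 + (((zs J).filter (fun z => z ≠ 0 ∧ (q : ℤ) ∣ wdg z (vec w))).card : ℝ)) :=
          Finset.sum_le_sum fun w _ => hZw w
      _ = ((wP A Z).card : ℝ) + ∑ w ∈ wP A Z,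
          (((zs J).filter (fun z => z ≠ 0 ∧ (q : ℤ) ∣ wdg z (vec w))).card : ℝ) := by
          rw [Finset.sum_add_distrib, Finset.sum_const, nsmul_eq_mul, mul_one]
      _ ≤ C1 * (Z : ℝ) ^ s + C2 * (J : ℝ) ^ s * (1 + ((Z : ℝ) ^ 2 / q) ^ (s / 2)) :=
          add_le_add (hcW Z) (hsJ Z q J hJq)
      _ ≤ C1 * ((Z : ℝ) ^ s + (Q : ℝ) ^ (s / 2)) +
          C2 * ((Z : ℝ) ^ s + (Q : ℝ) ^ (s / 2)) := by
          refine add_le_add ?_ ?_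
          · refine mul_le_mul_of_nonneg_left ?_ (by linarith)
            have : (0 : ℝ) ≤ (Q : ℝ) ^ (s / 2) := by positivity
            linarith
          · rw [mul_assoc]
            exact mul_le_mul_of_nonneg_left (D4_num hp.s1 Z J q Q hq1 hfk.qlo hJQ) (by linarith)
      _ = (C1 + C2) * ((Z : ℝ) ^ s + (Q : ℝ) ^ (s / 2)) := by ring
  refine (hcard.trans hsum).trans ?_
  calc (∑ w ∈ Wz A Z C₀, ((Zs w).card : ℝ)) * (2 * T) ≤
        (C1 + C2) * ((Z : ℝ) ^ s + (Q : ℝ) ^ (s / 2)) * (2 * T) :=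
        mul_le_mul_of_nonneg_right hpairs (by positivity)
    _ = 2 * (C1 + C2) * C3 * ((Z : ℝ) ^ s + (Q : ℝ) ^ (s / 2)) *
        (1 + ((Z : ℝ) ^ 2 / (Q * max 1 (K₁ : ℝ))) ^ (s / 2)) := by
        rw [hT]; ring

end Pool.Agent.LibZD69
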