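import Pool.Agent.LibZD69.D4
import Pool.Agent.LibNZ69.F3
import Pool.Agent.LibZD69.A4
import Pool.Agent.LibZD69.B6

set_option autoImplicit false

namespace Pool.Agent.LibZD69

open Pool.Agent.LibNZ69

/-- Row D5 (MEDIUM). The energy bound. `LibNZ69.dual` with `V = (Cut A a L).image vec` (`vec` is
injective on words with letters `< a`: `vec_inj`, as `wdg x x = 0`), box side `3 a L`
(`Cut_bounds`, `vec_bounds`), `W = Wz A (M / (20 a L)) C₀`, `u = vec`, `H = M / (24 a L) ≥ 1`, so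
`M / H ≤ 48 a L`, `8 (H · 3 a L) ≤ M`, and `ρ` = the bound of `countRowz`; `card_Cut_le`. -/
theorem energy {A : Finset ℕ} {a : ℕ} {s : ℝ} (hp : PB A a s) (C₀ : ℕ) :
    ∃ C : ℝ, 1 ≤ C ∧ ∀ M L Q K₁ K₂ : ℕ, 1 ≤ Q → 1 ≤ K₂ → 2 ≤ L → 24 * (a * L) ≤ M →
      400 * (K₂ ^ 2 * Q ^ 3) ≤ L ^ 2 → ∀ R : Finset ℕ, (∀ k ∈ R, k < M) →
      ∀ (qf : ℕ → ℕ) (af : ℕ → ℤ), (∀ k ∈ R, Fz M Q K₁ K₂ k (qf k) (af k)) →
        ∑ k ∈ R, ‖gh A a M L C₀ k‖ ^ 2 ≤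
          C * (L : ℝ) ^ (2 + s) * ((((M / (20 * (a * L)) : ℕ) : ℝ)) ^ s + (Q : ℝ) ^ (s / 2)) *
            (1 + ((((M / (20 * (a * L)) : ℕ) : ℝ)) ^ 2 / (Q * max 1 (K₁ : ℝ))) ^ (s / 2)) := by
  classical
  obtain ⟨C₁, hC₁, h₁⟩ := card_Cut_le hp
  obtain ⟨C₂, hC₂, h₂⟩ := countRowz hp C₀
  have ha1 : (1 : ℝ) ≤ a := by
    have := hp.a4
    exact_mod_cast (by omega : 1 ≤ a)
  refine ⟨4 * 48 ^ 2 * (a : ℝ) ^ 2 * C₁ * C₂, ?_, ?_⟩
  · have e1 : (1 : ℝ) ≤ (a : ℝ) ^ 2 := one_le_pow₀ ha1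
    have e2 : (1 : ℝ) ≤ 4 * 48 ^ 2 * (a : ℝ) ^ 2 := by nlinarith
    have e3 : (1 : ℝ) ≤ 4 * 48 ^ 2 * (a : ℝ) ^ 2 * C₁ := one_le_mul_of_one_le_of_one_le e2 hC₁
    exact one_le_mul_of_one_le_of_one_le e3 hC₂
  intro M L Q K₁ K₂ hQ hK₂ hL hM hQL R hR qf af hf
  have ha0 : 0 < a := by
    have := hp.a4
    omega
  have haL : 0 < a * L := Nat.mul_pos ha0 (by omega)
  have hM0 : 0 < M := by omega
  set H : ℕ := M / (24 * (a * L)) with hH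
  have hH1 : 1 ≤ H := (Nat.one_le_div_iff (by omega)).2 hM
  have hHM : H * (24 * (a * L)) ≤ M := by
    rw [hH]
    exact Nat.div_mul_le_self _ _
  have hMH : M ≤ 48 * (a * L) * H := by
    have h1 : M < 24 * (a * L) * (H + 1) := by
      have := Nat.lt_mul_div_succ M (show 0 < 24 * (a * L) by omega)
      rwa [← hH] at this
    nlinarith
  have hMHR : (M : ℝ) / H ≤ 48 * ((a : ℝ) * L) := by
    have hH0 : (0 : ℝ) < H := by exact_mod_cast hH1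
    rw [div_le_iff₀ hH0]
    exact_mod_cast hMH
  have hdig : ∀ {w : List ℕ}, WA A w → ∀ x ∈ w, 1 ≤ x ∧ x < a :=
    fun hw x hx => hp.dig x (hw x hx)
  set V : Finset (ℤ × ℤ) := (Cut A a L).image vec with hV
  have hinj : Set.InjOn vec (Cut A a L : Set (List ℕ)) := by
    intro v hv v' hv' he
    rw [Finset.mem_coe] at hv hv'
    refine vec_inj a hp.a4 v v' (hdig (Cut_bounds hp.dig hv).1) (hdig (Cut_bounds hp.dig hv').1) ?_
    rw [he]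
    unfold wdg
    ring
  have hVb : ∀ v ∈ V, 0 ≤ v.1 ∧ v.1 ≤ ((3 * (a * L) : ℕ) : ℤ) ∧ 0 ≤ v.2 ∧
      v.2 ≤ ((3 * (a * L) : ℕ) : ℤ) := by
    intro v hv
    rw [hV, Finset.mem_image] at hv
    obtain ⟨u, hu, rfl⟩ := hv
    obtain ⟨b1, b2, b3, b4⟩ := Cut_bounds hp.dig hu
    obtain ⟨c1, c2, c3, c4, c5⟩ := vec_bounds u (fun x hx => (hdig b1 x hx).1)
    have h3 : (kk u : ℤ) ≤ (a : ℤ) * L := by exact_mod_cast b3
    push_cast
    refine ⟨by linarith, by linarith, by linarith, by linarith⟩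
  have hVc : (V.card : ℝ) ≤ C₁ * (L : ℝ) ^ s := by
    rw [hV, Finset.card_image_of_injOn hinj]
    exact h₁ L
  set X : ℝ := ((((M / (20 * (a * L)) : ℕ) : ℝ)) ^ s + (Q : ℝ) ^ (s / 2)) with hX
  set Y : ℝ := (1 + ((((M / (20 * (a * L)) : ℕ) : ℝ)) ^ 2 / (Q * max 1 (K₁ : ℝ))) ^ (s / 2)) with hY
  have hX0 : 0 ≤ X := by
    rw [hX]
    positivity
  have hY0 : 0 ≤ Y := by
    rw [hY]
    have : (0 : ℝ) ≤ max 1 (K₁ : ℝ) := le_trans zero_le_one (le_max_left _ _)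
    positivity
  have hρ0 : 0 ≤ C₂ * X * Y := by
    have : (0 : ℝ) ≤ C₂ := by linarith
    positivity
  have hcount := h₂ M H L Q K₁ K₂ hM0 hQ hK₂ (by omega) (by
    calc 24 * (a * (L * H)) = H * (24 * (a * L)) := by ring
      _ ≤ M := hHM) hQL R hR qf af hf
  have hdual := dual M H (3 * (a * L)) hH1 (by omega) (by
    calc 8 * (H * (3 * (a * L))) = H * (24 * (a * L)) := by ring
      _ ≤ M := hHM) (by omega) V hVb (Wz A (M / (20 * (a * L))) C₀) vec R (C₂ * X * Y) hρ0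
    (fun k hk => hcount k hk)
  have hsum : ∀ k : ℕ, gh A a M L C₀ (k : ℤ) =
      ∑ v ∈ V, ∑ w ∈ Wz A (M / (20 * (a * L))) C₀, ch M ((k : ℤ) * dt v (vec w)) := by
    intro k
    rw [hV, Finset.sum_image hinj]
    rfl
  have hL0 : (0 : ℝ) < L := by exact_mod_cast (by omega : 0 < L)
  simp_rw [hsum]
  refine hdual.trans ?_
  have hMH0 : 0 ≤ (M : ℝ) / H := by positivity
  have hC₁0 : 0 ≤ C₁ := by linarith
  have hLs : (L : ℝ) ^ (2 + s) = (L : ℝ) ^ 2 * (L : ℝ) ^ s := by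
    rw [Real.rpow_add hL0]
    norm_num
  calc 4 * ((M : ℝ) / H) ^ 2 * V.card * (C₂ * X * Y)
      ≤ 4 * (48 * ((a : ℝ) * L)) ^ 2 * (C₁ * (L : ℝ) ^ s) * (C₂ * X * Y) := by gcongr
    _ = 4 * 48 ^ 2 * (a : ℝ) ^ 2 * C₁ * C₂ * (L : ℝ) ^ (2 + s) * X * Y := by
        rw [hLs]
        ring

end Pool.Agent.LibZD69
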