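import Pool.Agent.LibZD69.Defs

set_option autoImplicit false

namespace Pool.Agent.LibZD69

open Pool.Agent.LibNZ69

/-! Row E2 (SHORT/MEDIUM). The cutoff function. -/

theorem Ph_nonneg (r h : ℕ) (x : ℤ) : 0 ≤ Ph r h x := by
  induction r generalizing x with
  | zero =>
    simp only [Ph]
    split_ifs
    · exact zero_le_one
    · exact le_refl _
  | succ r ih =>
    simp only [Ph]
    exact div_nonneg (Finset.sum_nonneg fun u _ => ih _) (Nat.cast_nonneg _)

theorem Ph_le_one (r h : ℕ) (x : ℤ) : Ph r h x ≤ 1 := by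
  induction r generalizing x with
  | zero =>
    simp only [Ph]
    split_ifs
    · exact le_refl _
    · exact zero_le_one
  | succ r ih =>
    simp only [Ph]
    have h1 : ∑ u ∈ Finset.range h, Ph r h (x - u) ≤ (h : ℝ) := by
      calc ∑ u ∈ Finset.range h, Ph r h (x - u) ≤ ∑ _u ∈ Finset.range h, (1 : ℝ) :=
            Finset.sum_le_sum fun u _ => ih _
        _ = (h : ℝ) := by simp
    exact div_le_one_of_le₀ h1 (Nat.cast_nonneg _)

theorem Ph_support (r h : ℕ) (x : ℤ) (hx : Ph r h x ≠ 0) :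
    (h : ℤ) ≤ x ∧ x < ((r : ℤ) + 2) * h := by
  induction r generalizing x with
  | zero =>
    simp only [Ph] at hx
    split_ifs at hx with hc
    · refine ⟨hc.1, ?_⟩
      have := hc.2
      simpa using this
    · exact absurd rfl hx
  | succ r ih =>
    simp only [Ph] at hx
    have h1 : ∑ u ∈ Finset.range h, Ph r h (x - u) ≠ 0 := by
      intro h0
      rw [h0, zero_div] at hx
      exact hx rfl
    obtain ⟨u, hu, hne⟩ := Finset.exists_ne_zero_of_sum_ne_zero h1
    rw [Finset.mem_range] at hu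
    obtain ⟨h2, h3⟩ := ih _ hne
    have hu0 : (0 : ℤ) ≤ (u : ℤ) := Int.natCast_nonneg u
    have hu1 : (u : ℤ) < (h : ℤ) := by exact_mod_cast hu
    refine ⟨by linarith, ?_⟩
    push_cast
    have e : ((r : ℤ) + 1 + 2) * h = ((r : ℤ) + 2) * h + h := by ring
    rw [e]
    linarith

/-- lower bound in the middle, by induction on `r`: for `(4 + (r+1)) b ≤ x < (8 + 3 (r+1)) b` at
least `b` of the `4 b` values `u ∈ [0, 4b)` have `(4 + r) b ≤ x - u < (8 + 3 r) b` (if
`x < (8 + r) b` take `u ≤ b`... `u ≤ x - (4 + r) b`; otherwise `3 b ≤ u < 4 b`). -/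
theorem Ph_middle (r b : ℕ) (hb : 1 ≤ b) (x : ℤ) (h1 : (4 + (r : ℤ)) * b ≤ x)
    (h2 : x < (8 + 3 * (r : ℤ)) * b) : ((1 : ℝ) / 4) ^ r ≤ Ph r (4 * b) x := by
  induction r generalizing x with
  | zero =>
    simp only [Ph]
    have hc : (((4 * b : ℕ) : ℤ) ≤ x ∧ x < 2 * ((4 * b : ℕ) : ℤ)) := by
      push_cast
      push_cast at h1 h2
      constructor <;> linarith
    rw [if_pos hc]
    simp
  | succ r ih =>
    simp only [Ph]
    obtain ⟨q, hq⟩ : ∃ q : ℤ, q = (r : ℤ) * b := ⟨_, rfl⟩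
    have hq0 : 0 ≤ q := by
      rw [hq]
      positivity
    have hb1 : (1 : ℤ) ≤ (b : ℤ) := by exact_mod_cast hb
    have h1' : 4 * (b : ℤ) + q + b ≤ x := by
      have e : (4 + ((r + 1 : ℕ) : ℤ)) * (b : ℤ) = 4 * (b : ℤ) + q + b := by
        rw [hq]; push_cast; ring
      rw [← e]; exact h1
    have h2' : x < 8 * (b : ℤ) + 3 * q + 3 * b := by
      have e : (8 + 3 * ((r + 1 : ℕ) : ℤ)) * (b : ℤ) = 8 * (b : ℤ) + 3 * q + 3 * b := by
        rw [hq]; push_cast; ring
      rw [← e]; exact h2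
    obtain ⟨L, hL⟩ : ∃ L : ℕ, L = (x - (8 * (b : ℤ) + 3 * q) + 1).toNat := ⟨_, rfl⟩
    have hLb : L + b ≤ 4 * b := by omega
    have hsub : Finset.Ico L (L + b) ⊆ Finset.range (4 * b) := by
      intro u hu
      rw [Finset.mem_Ico] at hu
      rw [Finset.mem_range]
      omega
    have hlow : (b : ℝ) * ((1 : ℝ) / 4) ^ r ≤ ∑ u ∈ Finset.range (4 * b), Ph r (4 * b) (x - u) := by
      calc (b : ℝ) * ((1 : ℝ) / 4) ^ r = ∑ _u ∈ Finset.Ico L (L + b), ((1 : ℝ) / 4) ^ r := by
            rw [Finset.sum_const, Nat.card_Ico, nsmul_eq_mul]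
            congr 2
            omega
        _ ≤ ∑ u ∈ Finset.Ico L (L + b), Ph r (4 * b) (x - u) := by
            refine Finset.sum_le_sum fun u hu => ?_
            rw [Finset.mem_Ico] at hu
            refine ih _ ?_ ?_
            · have e : (4 + (r : ℤ)) * (b : ℤ) = 4 * (b : ℤ) + q := by rw [hq]; ring
              rw [e]
              omega
            · have e : (8 + 3 * (r : ℤ)) * (b : ℤ) = 8 * (b : ℤ) + 3 * q := by rw [hq]; ring
              rw [e]
              omega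
        _ ≤ ∑ u ∈ Finset.range (4 * b), Ph r (4 * b) (x - u) :=
            Finset.sum_le_sum_of_subset_of_nonneg hsub (fun u _ _ => Ph_nonneg r _ _)
    have hb0 : (0 : ℝ) < ((4 * b : ℕ) : ℝ) := by
      have : 0 < 4 * b := by omega
      exact_mod_cast this
    rw [le_div_iff₀ hb0]
    calc ((1 : ℝ) / 4) ^ (r + 1) * ((4 * b : ℕ) : ℝ) = (b : ℝ) * ((1 : ℝ) / 4) ^ r := by
          push_cast
          ring
      _ ≤ _ := hlow

end Pool.Agent.LibZD69
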