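import Pool.Agent.LibZD69.E3
import Pool.Agent.LibZD69.E4

set_option autoImplicit false

namespace Pool.Agent.LibZD69

open Pool.Agent.LibNZ69

/-- Row E5a (SHORT/MEDIUM). Insert `Ph_fourier` (`pair_lt`) into `fh_pairs` and exchange the sums. -/
theorem fh_eq {A : Finset ℕ} {a : ℕ} {s : ℝ} (hp : PB A a s) (r b L : ℕ) (hb : 1 ≤ b)
    (hL : 2 ≤ L) (hLb : 3 * L ≤ b) (k : ℤ) :
    fh A a r b k = (1 / (5 * (a : ℂ) * ((r : ℂ) + 3))) *
      ∑ m ∈ sym a r b, tau (MM a r b) (4 * b) m ^ (r + 1) * ch (MM a r b) (4 * b * m) *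
        gh A a (MM a r b) L (5 * a * (r + 3)) (k - m) := by
  have ha : 1 ≤ a := le_trans (by norm_num) hp.a4
  have hM : 0 < MM a r b := by
    unfold MM
    positivity
  rw [fh_pairs hp r b L hb hL hLb k]
  have h1 : ∀ v ∈ Cut A a L, ∀ w ∈ Wz A (MM a r b / (20 * (a * L))) (5 * a * (r + 3)),
      (Ph r (4 * b) (dt (vec v) (vec w)) : ℂ) * ch (MM a r b) (k * dt (vec v) (vec w)) =
      (1 / (5 * (a : ℂ) * ((r : ℂ) + 3))) *
        ∑ m ∈ sym a r b, tau (MM a r b) (4 * b) m ^ (r + 1) * ch (MM a r b) (4 * b * m) *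
          ch (MM a r b) ((k - m) * dt (vec v) (vec w)) := by
    intro v hv w hw
    obtain ⟨h2, h3⟩ := pair_lt hp.dig (MM a r b) L (5 * a * (r + 3)) hL hM v w hv hw
    rw [Ph_fourier a r b ha hb _ h2.le h3, mul_assoc, Finset.sum_mul]
    congr 1
    refine Finset.sum_congr rfl fun m _ => ?_
    rw [mul_assoc, mul_assoc, ← ch_add, ← ch_add]
    congr 2
    ring
  rw [Finset.sum_congr rfl (fun v hv => Finset.sum_congr rfl (fun w hw => h1 v hv w hw))]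
  simp_rw [← Finset.mul_sum]
  congr 1
  have h4 : ∀ v ∈ Cut A a L,
      (∑ w ∈ Wz A (MM a r b / (20 * (a * L))) (5 * a * (r + 3)),
        ∑ m ∈ sym a r b, tau (MM a r b) (4 * b) m ^ (r + 1) * ch (MM a r b) (4 * b * m) *
          ch (MM a r b) ((k - m) * dt (vec v) (vec w))) =
      ∑ m ∈ sym a r b, ∑ w ∈ Wz A (MM a r b / (20 * (a * L))) (5 * a * (r + 3)),
        tau (MM a r b) (4 * b) m ^ (r + 1) * ch (MM a r b) (4 * b * m) *
          ch (MM a r b) ((k - m) * dt (vec v) (vec w)) := fun v _ => Finset.sum_comm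
  rw [Finset.sum_congr rfl h4, Finset.sum_comm]
  refine Finset.sum_congr rfl fun m _ => ?_
  unfold gh
  rw [Finset.mul_sum]
  refine Finset.sum_congr rfl fun v _ => ?_
  rw [Finset.mul_sum]

private theorem E5_nat (N : ℕ) :
    ∑ j ∈ Finset.range (N + 1), (1 / (1 + (j : ℝ))) ^ 2 ≤ 2 - 1 / ((N : ℝ) + 1) := by
  induction N with
  | zero => simp; norm_num
  | succ n ih =>
    rw [Finset.sum_range_succ]
    have h1 : (0 : ℝ) < (n : ℝ) + 1 := by positivity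
    have h2 : (0 : ℝ) < (n : ℝ) + 2 := by positivity
    have h3 : (1 / (1 + ((n + 1 : ℕ) : ℝ))) ^ 2 ≤ 1 / ((n : ℝ) + 1) - 1 / ((n : ℝ) + 2) := by
      have e1 : (1 : ℝ) + ((n + 1 : ℕ) : ℝ) = (n : ℝ) + 2 := by push_cast; ring
      rw [e1]
      have e2 : 1 / ((n : ℝ) + 1) - 1 / ((n : ℝ) + 2) = 1 / (((n : ℝ) + 1) * ((n : ℝ) + 2)) := by
        field_simp
        ring
      rw [e2, div_pow, one_pow]
      apply one_div_le_one_div_of_le
      · positivity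
      · nlinarith
    have e3 : ((n + 1 : ℕ) : ℝ) + 1 = (n : ℝ) + 2 := by push_cast; ring
    rw [e3]
    linarith

private theorem E5_half (s : Finset ℤ) (hs : Set.InjOn Int.natAbs (s : Set ℤ)) :
    ∑ m ∈ s, (1 / (1 + |(m : ℝ)|)) ^ 2 ≤ 2 := by
  have e : ∀ m ∈ s, (1 / (1 + |(m : ℝ)|)) ^ 2 = (fun j : ℕ => (1 / (1 + (j : ℝ))) ^ 2) m.natAbs := by
    intro m _
    have : |(m : ℝ)| = ((m.natAbs : ℕ) : ℝ) := by
      rw [Nat.cast_natAbs, Int.cast_abs]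
    simp only [this]
  rw [Finset.sum_congr rfl e, ← Finset.sum_image (g := Int.natAbs) (s := s)
    (f := fun j : ℕ => (1 / (1 + (j : ℝ))) ^ 2) hs]
  have h1 : s.image Int.natAbs ⊆ Finset.range ((s.image Int.natAbs).sup id + 1) := by
    intro j hj
    rw [Finset.mem_range]
    exact Nat.lt_succ_of_le (Finset.le_sup (f := id) hj)
  refine (Finset.sum_le_sum_of_subset_of_nonneg h1 (fun j _ _ => by positivity)).trans ?_
  refine (E5_nat _).trans ?_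
  have : (0 : ℝ) ≤ 1 / ((((s.image Int.natAbs).sup id : ℕ) : ℝ) + 1) := by positivity
  linarith

private theorem E5_sum (s : Finset ℤ) : ∑ m ∈ s, (1 / (1 + |(m : ℝ)|)) ^ 2 ≤ 4 := by
  rw [← Finset.sum_filter_add_sum_filter_not s (fun m => 0 ≤ m)]
  have h1 : ∑ m ∈ s.filter (fun m => 0 ≤ m), (1 / (1 + |(m : ℝ)|)) ^ 2 ≤ 2 := by
    apply E5_half
    intro x hx y hy hxy
    simp only [Finset.coe_filter, Set.mem_ofPred_eq] at hx hy
    have hxy' : x.natAbs = y.natAbs := hxy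
    omega
  have h2 : ∑ m ∈ s.filter (fun m => ¬ 0 ≤ m), (1 / (1 + |(m : ℝ)|)) ^ 2 ≤ 2 := by
    apply E5_half
    intro x hx y hy hxy
    simp only [Finset.coe_filter, Set.mem_ofPred_eq] at hx hy
    have hxy' : x.natAbs = y.natAbs := hxy
    omega
  linarith

/-- Row E5 (MEDIUM). By `fh_eq` and `norm_tau_le` (for `m ∈ sym a r b`, `2 |m| ≤ M`)
`‖fh k‖ ≤ ∑_m B_m ‖gh (k - m)‖`, `B_m = (5 a (r+3))^(r+1) / (1+|m|)^(r+1)`, and `∑_m B_m ≤ C` as
`r + 1 ≥ 2` (`∑_{m ∈ ℤ} 1/(1+|m|)^2 ≤ 4`); Cauchy-Schwarz. -/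
theorem transfer {A : Finset ℕ} {a : ℕ} {s : ℝ} (hp : PB A a s) (r : ℕ) (hr : 1 ≤ r) :
    ∃ C : ℝ, 1 ≤ C ∧ ∀ b L : ℕ, 1 ≤ b → 2 ≤ L → 3 * L ≤ b → ∀ k : ℤ,
      ‖fh A a r b k‖ ^ 2 ≤ C * ∑ m ∈ sym a r b, (1 / (1 + |(m : ℝ)|)) ^ (r + 1) *
        ‖gh A a (MM a r b) L (5 * a * (r + 3)) (k - m)‖ ^ 2 := by
  have ha : 1 ≤ a := le_trans (by norm_num) hp.a4
  have haR : (1 : ℝ) ≤ a := by exact_mod_cast ha
  have hrR : (0 : ℝ) ≤ r := Nat.cast_nonneg r
  obtain ⟨D, hD⟩ : ∃ D : ℝ, D = 5 * (a : ℝ) * ((r : ℝ) + 3) := ⟨_, rfl⟩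
  have hD1 : 1 ≤ D := by
    rw [hD]
    nlinarith
  have hD0 : 0 < D := by linarith
  refine ⟨4 * (D ^ r) ^ 2, ?_, ?_⟩
  · have h1 : 1 ≤ D ^ r := one_le_pow₀ hD1
    nlinarith
  intro b L hb hL hLb k
  set g : ℤ → ℝ := fun m => ‖gh A a (MM a r b) L (5 * a * (r + 3)) (k - m)‖ with hg
  set B : ℤ → ℝ := fun m => (1 / (1 + |(m : ℝ)|)) ^ (r + 1) with hB
  have hB0 : ∀ m, 0 ≤ B m := fun m => by simp only [hB]; positivity
  have hg0 : ∀ m, 0 ≤ g m := fun m => norm_nonneg _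
  have hmain : ‖fh A a r b k‖ ≤ D ^ r * ∑ m ∈ sym a r b, B m * g m := by
    rw [fh_eq hp r b L hb hL hLb k, norm_mul]
    have e1 : ‖(1 / (5 * (a : ℂ) * ((r : ℂ) + 3)))‖ = 1 / D := by
      have : (5 * (a : ℂ) * ((r : ℂ) + 3)) = ((D : ℝ) : ℂ) := by
        rw [hD]
        push_cast
        ring
      rw [this, norm_div, norm_one, Complex.norm_real, Real.norm_of_nonneg hD0.le]
    rw [e1]
    have h2 : ‖∑ m ∈ sym a r b, tau (MM a r b) (4 * b) m ^ (r + 1) * ch (MM a r b) (4 * b * m) *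
        gh A a (MM a r b) L (5 * a * (r + 3)) (k - m)‖ ≤
        ∑ m ∈ sym a r b, D ^ (r + 1) * (B m * g m) := by
      refine (norm_sum_le _ _).trans (Finset.sum_le_sum fun m hm => ?_)
      rw [norm_mul, norm_mul, norm_pow, norm_ch, mul_one]
      have h3 : 2 * |m| ≤ ((MM a r b : ℕ) : ℤ) := by
        have hm' := Finset.mem_Ico.1 hm
        have e2 : ((MM a r b : ℕ) : ℤ) = 2 * (10 * (a : ℤ) * ((r : ℤ) + 3) * b) := by
          unfold MM
          push_cast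
          ring
        rw [e2]
        have h4 : |m| ≤ 10 * (a : ℤ) * ((r : ℤ) + 3) * b := abs_le.2 ⟨hm'.1, hm'.2.le⟩
        linarith
      have h5 := norm_tau_le a r b ha hb m h3
      have h6 : ‖tau (MM a r b) (4 * b) m‖ ^ (r + 1) ≤ D ^ (r + 1) * B m := by
        have h7 : ‖tau (MM a r b) (4 * b) m‖ ≤ D * (1 / (1 + |(m : ℝ)|)) := by
          rw [mul_one_div, hD]
          exact h5
        have h8 := pow_le_pow_left₀ (norm_nonneg _) h7 (r + 1)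
        rw [mul_pow] at h8
        exact h8
      calc ‖tau (MM a r b) (4 * b) m‖ ^ (r + 1) *
            ‖gh A a (MM a r b) L (5 * a * (r + 3)) (k - m)‖
          ≤ (D ^ (r + 1) * B m) * g m := mul_le_mul_of_nonneg_right h6 (norm_nonneg _)
        _ = D ^ (r + 1) * (B m * g m) := by ring
    calc 1 / D * ‖∑ m ∈ sym a r b, tau (MM a r b) (4 * b) m ^ (r + 1) *
          ch (MM a r b) (4 * b * m) * gh A a (MM a r b) L (5 * a * (r + 3)) (k - m)‖
        ≤ 1 / D * ∑ m ∈ sym a r b, D ^ (r + 1) * (B m * g m) :=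
          mul_le_mul_of_nonneg_left h2 (by positivity)
      _ = D ^ r * ∑ m ∈ sym a r b, B m * g m := by
          rw [← Finset.mul_sum, pow_succ]
          field_simp
  have hcs : (∑ m ∈ sym a r b, B m * g m) ^ 2 ≤ 4 * ∑ m ∈ sym a r b, B m * g m ^ 2 := by
    have h1 : (∑ m ∈ sym a r b, B m * g m) ^ 2 ≤
        (∑ m ∈ sym a r b, B m) * ∑ m ∈ sym a r b, B m * g m ^ 2 := by
      apply Finset.sum_sq_le_sum_mul_sum_of_sq_le_mul
      · intro m _
        exact hB0 m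
      · intro m _
        exact mul_nonneg (hB0 m) (sq_nonneg _)
      · intro m _
        exact le_of_eq (by ring)
    have h2 : ∑ m ∈ sym a r b, B m ≤ 4 := by
      refine le_trans (Finset.sum_le_sum fun m _ => ?_) (E5_sum (sym a r b))
      simp only [hB]
      have h3 : (0 : ℝ) ≤ |(m : ℝ)| := abs_nonneg _
      apply pow_le_pow_of_le_one
      · positivity
      · rw [div_le_one (by linarith)]
        linarith
      · omega
    refine h1.trans (mul_le_mul_of_nonneg_right h2 ?_)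
    exact Finset.sum_nonneg fun m _ => mul_nonneg (hB0 m) (sq_nonneg _)
  have h9 : ‖fh A a r b k‖ ^ 2 ≤ (D ^ r * ∑ m ∈ sym a r b, B m * g m) ^ 2 :=
    pow_le_pow_left₀ (norm_nonneg _) hmain 2
  calc ‖fh A a r b k‖ ^ 2 ≤ (D ^ r * ∑ m ∈ sym a r b, B m * g m) ^ 2 := h9
    _ = (D ^ r) ^ 2 * (∑ m ∈ sym a r b, B m * g m) ^ 2 := by ring
    _ ≤ (D ^ r) ^ 2 * (4 * ∑ m ∈ sym a r b, B m * g m ^ 2) :=
        mul_le_mul_of_nonneg_left hcs (sq_nonneg _)
    _ = 4 * (D ^ r) ^ 2 * ∑ m ∈ sym a r b, B m * g m ^ 2 := by ring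

end Pool.Agent.LibZD69
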