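import Pool.Agent.LibZD69.E5
import Pool.Agent.LibZD69.E6
import Pool.Agent.LibZD69.D5

set_option autoImplicit false

namespace Pool.Agent.LibZD69

open Pool.Agent.LibNZ69

private lemma E7_tel (X N : ℕ) (h : X ≤ N) :
    ∑ n ∈ Finset.Ioc X N, (1 / (1 + (n : ℝ))) ^ 2 ≤ 1 / (1 + (X : ℝ)) - 1 / (1 + (N : ℝ)) := by
  induction N, h using Nat.le_induction with
  | base => simp
  | succ n hn ih =>
    rw [Finset.sum_Ioc_succ_top hn]
    have h0 : (0 : ℝ) ≤ n := Nat.cast_nonneg n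
    have h1 : (1 / (1 + ((n + 1 : ℕ) : ℝ))) ^ 2 ≤ 1 / (1 + (n : ℝ)) - 1 / (1 + ((n + 1 : ℕ) : ℝ)) := by
      push_cast
      rw [div_sub_div _ _ (by positivity) (by positivity), div_pow,
        div_le_div_iff₀ (by positivity) (by positivity)]
      nlinarith
    linarith

private lemma E7_sum2 (T : Finset ℤ) (X : ℕ) (hT : ∀ m ∈ T, (X : ℤ) < |m|) :
    ∑ m ∈ T, (1 / (1 + |(m : ℝ)|)) ^ 2 ≤ 2 / (1 + (X : ℝ)) := by
  have h1 : ∑ m ∈ T, (1 / (1 + |(m : ℝ)|)) ^ 2 =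
      ∑ m ∈ T, (fun n : ℕ => (1 / (1 + (n : ℝ))) ^ 2) (Int.natAbs m) := by
    refine Finset.sum_congr rfl fun m _ => ?_
    simp only [Nat.cast_natAbs, Int.cast_abs]
  rw [h1, Finset.sum_comp (fun n : ℕ => (1 / (1 + (n : ℝ))) ^ 2) Int.natAbs]
  have h2 : ∀ n ∈ T.image Int.natAbs,
      (T.filter (fun m => Int.natAbs m = n)).card • (1 / (1 + (n : ℝ))) ^ 2 ≤
        2 * (1 / (1 + (n : ℝ))) ^ 2 := by
    intro n _
    rw [nsmul_eq_mul]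
    refine mul_le_mul_of_nonneg_right ?_ (by positivity)
    have h3 : T.filter (fun m => Int.natAbs m = n) ⊆ {(n : ℤ), -(n : ℤ)} := by
      intro m hm
      rw [Finset.mem_filter] at hm
      simp only [Finset.mem_insert, Finset.mem_singleton]
      omega
    have h4 := (Finset.card_le_card h3).trans Finset.card_le_two
    exact_mod_cast h4
  refine (Finset.sum_le_sum h2).trans ?_
  rw [← Finset.mul_sum]
  obtain ⟨N, hN⟩ : ∃ N : ℕ, X ≤ N ∧ ∀ m ∈ T, Int.natAbs m ≤ N := by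
    refine ⟨max X (T.sup Int.natAbs), le_max_left _ _, fun m hm => ?_⟩
    exact (Finset.le_sup (f := Int.natAbs) hm).trans (le_max_right _ _)
  have h5 : T.image Int.natAbs ⊆ Finset.Ioc X N := by
    intro n hn
    rw [Finset.mem_image] at hn
    obtain ⟨m, hm, rfl⟩ := hn
    rw [Finset.mem_Ioc]
    refine ⟨?_, hN.2 m hm⟩
    have h10 := hT m hm
    rw [Int.abs_eq_natAbs] at h10
    exact_mod_cast h10
  have h6 := Finset.sum_le_sum_of_subset_of_nonneg (f := fun n : ℕ => (1 / (1 + (n : ℝ))) ^ 2) h5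
    (fun n _ _ => by positivity)
  have h7 := E7_tel X N hN.1
  have h8 : (0 : ℝ) ≤ 1 / (1 + (N : ℝ)) := by positivity
  have h9 : (2 : ℝ) / (1 + (X : ℝ)) = 2 * (1 / (1 + (X : ℝ))) := by ring
  rw [h9]
  linarith

private lemma E7_sum (r : ℕ) (hr : 1 ≤ r) (T : Finset ℤ) (X : ℕ) (hT : ∀ m ∈ T, (X : ℤ) < |m|) :
    ∑ m ∈ T, (1 / (1 + |(m : ℝ)|)) ^ (r + 1) ≤ 2 * (1 / (1 + (X : ℝ))) ^ r := by
  have h1 : ∀ m ∈ T, (1 / (1 + |(m : ℝ)|)) ^ (r + 1) ≤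
      (1 / (1 + (X : ℝ))) ^ (r - 1) * (1 / (1 + |(m : ℝ)|)) ^ 2 := by
    intro m hm
    have h2 : r + 1 = (r - 1) + 2 := by omega
    rw [h2, pow_add]
    refine mul_le_mul_of_nonneg_right ?_ (by positivity)
    refine pow_le_pow_left₀ (by positivity) ?_ _
    refine one_div_le_one_div_of_le (by positivity) ?_
    have h3 : ((X : ℤ) : ℝ) < ((|m| : ℤ) : ℝ) := by exact_mod_cast hT m hm
    rw [Int.cast_abs] at h3
    have h4 : ((X : ℤ) : ℝ) = (X : ℝ) := by norm_cast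
    linarith
  refine (Finset.sum_le_sum h1).trans ?_
  rw [← Finset.mul_sum]
  refine (mul_le_mul_of_nonneg_left (E7_sum2 T X hT) (by positivity)).trans ?_
  have h5 : r = (r - 1) + 1 := by omega
  have h6 : (1 / (1 + (X : ℝ))) ^ r = (1 / (1 + (X : ℝ))) ^ (r - 1) * (1 / (1 + (X : ℝ))) := by
    conv_lhs => rw [h5]
    rw [pow_succ]
  rw [h6]
  apply le_of_eq
  ring

private lemma E7_tot (r : ℕ) (hr : 1 ≤ r) (T : Finset ℤ) :
    ∑ m ∈ T, (1 / (1 + |(m : ℝ)|)) ^ (r + 1) ≤ 3 := by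
  classical
  have h1 := Finset.sum_filter_add_sum_filter_not T (fun m : ℤ => m = 0)
    (fun m : ℤ => (1 / (1 + |(m : ℝ)|)) ^ (r + 1))
  have h2 : ∑ m ∈ T.filter (fun m : ℤ => ¬ m = 0), (1 / (1 + |(m : ℝ)|)) ^ (r + 1) ≤ 2 := by
    have h3 := E7_sum r hr (T.filter (fun m : ℤ => ¬ m = 0)) 0 (by
      intro m hm
      rw [Finset.mem_filter] at hm
      have := abs_pos.2 hm.2
      simpa using this)
    simpa using h3
  have h4 : ∑ m ∈ T.filter (fun m : ℤ => m = 0), (1 / (1 + |(m : ℝ)|)) ^ (r + 1) ≤ 1 := by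
    have h5 : T.filter (fun m : ℤ => m = 0) ⊆ {0} := by
      intro m hm
      rw [Finset.mem_filter] at hm
      simpa using hm.2
    have h6 := Finset.sum_le_sum_of_subset_of_nonneg
      (f := fun m : ℤ => (1 / (1 + |(m : ℝ)|)) ^ (r + 1)) h5 (fun m _ _ => by positivity)
    simpa using h6
  linarith

private lemma E7_S {A : Finset ℕ} {a : ℕ} {s : ℝ} (hp : PB A a s) (C₀ : ℕ) (C₂ : ℝ)
    (hC₂ : 1 ≤ C₂)
    (h₂ : ∀ M L Q K₁ K₂ : ℕ, 1 ≤ Q → 1 ≤ K₂ → 2 ≤ L → 24 * (a * L) ≤ M →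
      400 * (K₂ ^ 2 * Q ^ 3) ≤ L ^ 2 → ∀ R : Finset ℕ, (∀ k ∈ R, k < M) →
      ∀ (qf : ℕ → ℕ) (af : ℕ → ℤ), (∀ k ∈ R, Fz M Q K₁ K₂ k (qf k) (af k)) →
        ∑ k ∈ R, ‖gh A a M L C₀ k‖ ^ 2 ≤
          C₂ * (L : ℝ) ^ (2 + s) * ((((M / (20 * (a * L)) : ℕ) : ℝ)) ^ s + (Q : ℝ) ^ (s / 2)) *
            (1 + ((((M / (20 * (a * L)) : ℕ) : ℝ)) ^ 2 / (Q * max 1 (K₁ : ℝ))) ^ (s / 2)))
    (M L i K₁ K₂ m₁ : ℕ) (hM : 0 < M) (hK : 1 ≤ K₂) (hL : 2 ≤ L) (hLM : 24 * (a * L) ≤ M)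
    (hc : 400 * ((K₂ + m₁) ^ 2 * (2 ^ i) ^ 3) ≤ L ^ 2) (R : Finset ℕ) (hR : ∀ k ∈ R, k < M)
    (qf : ℕ → ℕ) (af : ℕ → ℤ) (hf : ∀ k ∈ R, Fz M (2 ^ i) K₁ K₂ k (qf k) (af k)) (m : ℤ)
    (hm : |m| ≤ m₁) (D : ℝ) (hD0 : 0 < D)
    (hD : D ≤ (2 : ℝ) ^ i * max 1 (((K₁ - m₁ : ℕ) : ℝ))) :
    ∑ k ∈ R, ‖gh A a M L C₀ ((k : ℤ) - m)‖ ^ 2 ≤
      C₂ * ((L : ℝ) ^ (2 + s) * (((M : ℝ) / L) ^ s + ((2 : ℝ) ^ i) ^ (s / 2)) *
        (1 + (((M : ℝ) / L) ^ 2 / D) ^ (s / 2))) := by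
  obtain ⟨R', qf', af', hR', hf', hG⟩ := shift M (2 ^ i) K₁ K₂ m₁ hM R hR qf af hf m hm
  have h1 := hG (fun x => ‖gh A a M L C₀ x‖ ^ 2) (fun x => by
    simp only [gh_periodic A a M L C₀ hM x])
  beta_reduce at h1
  rw [h1]
  have h3 := h₂ M L (2 ^ i) (K₁ - m₁) (K₂ + m₁) Nat.one_le_two_pow (by omega) hL hLM hc R' hR'
    qf' af' hf'
  refine h3.trans ?_
  have hs0 : 0 ≤ s := by linarith [hp.s1]
  have hs2 : 0 ≤ s / 2 := by linarith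
  have ha : 4 ≤ a := hp.a4
  have hLr : (0 : ℝ) < L := by
    have : 0 < L := by omega
    exact_mod_cast this
  have har : (1 : ℝ) ≤ 20 * (a : ℝ) := by
    have : (4 : ℝ) ≤ a := by exact_mod_cast ha
    linarith
  have hZ : ((M / (20 * (a * L)) : ℕ) : ℝ) ≤ (M : ℝ) / L := by
    refine Nat.cast_div_le.trans ?_
    push_cast
    refine div_le_div_of_nonneg_left (Nat.cast_nonneg M) hLr ?_
    nlinarith
  have hZ0 : (0 : ℝ) ≤ ((M / (20 * (a * L)) : ℕ) : ℝ) := Nat.cast_nonneg _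
  push_cast at hZ hZ0 ⊢
  rw [mul_assoc, mul_assoc, mul_assoc]
  refine mul_le_mul_of_nonneg_left ?_ (by linarith)
  refine mul_le_mul_of_nonneg_left ?_ (Real.rpow_nonneg hLr.le _)
  refine mul_le_mul ?_ ?_ ?_ ?_
  · exact add_le_add (Real.rpow_le_rpow hZ0 hZ hs0) le_rfl
  · refine add_le_add le_rfl (Real.rpow_le_rpow (by positivity) ?_ hs2)
    refine div_le_div₀ (by positivity) (pow_le_pow_left₀ hZ0 hZ 2) hD0 ?_
    exact hD
  · refine add_nonneg zero_le_one (Real.rpow_nonneg (by positivity) _)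
  · refine add_nonneg (Real.rpow_nonneg (by positivity) _) (Real.rpow_nonneg (by positivity) _)

private lemma E7_cond (i j d K m L : ℕ) (hL : L = 2 ^ (6 + j + d + (3 * i + 1) / 2))
    (hK : K + m ≤ 2 ^ (j + d + 1)) : 400 * ((K + m) ^ 2 * (2 ^ i) ^ 3) ≤ L ^ 2 := by
  have h1 : (K + m) ^ 2 ≤ (2 ^ (j + d + 1)) ^ 2 := Nat.pow_le_pow_left hK 2
  have h2 : (2 : ℕ) ^ (3 * i) ≤ 2 ^ (2 * ((3 * i + 1) / 2)) :=
    Nat.pow_le_pow_right (by norm_num) (by omega)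
  have h3 : ((2 : ℕ) ^ i) ^ 3 = 2 ^ (3 * i) := by rw [← pow_mul, mul_comm]
  have h4 : ((2 : ℕ) ^ (j + d + 1)) ^ 2 = 4 * 2 ^ (2 * (j + d)) := by
    rw [← pow_mul, show (j + d + 1) * 2 = 2 * (j + d) + 2 by ring, pow_add]
    ring
  have h5 : L ^ 2 = 4096 * (2 ^ (2 * (j + d)) * 2 ^ (2 * ((3 * i + 1) / 2))) := by
    rw [hL, ← pow_mul, ← pow_add, show (4096 : ℕ) = 2 ^ 12 by norm_num, ← pow_add]
    congr 1
    ring
  rw [h5, h3]
  rw [h4] at h1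
  calc 400 * ((K + m) ^ 2 * 2 ^ (3 * i))
      ≤ 400 * ((4 * 2 ^ (2 * (j + d))) * 2 ^ (2 * ((3 * i + 1) / 2))) :=
        Nat.mul_le_mul_left _ (Nat.mul_le_mul h1 h2)
    _ = 1600 * (2 ^ (2 * (j + d)) * 2 ^ (2 * ((3 * i + 1) / 2))) := by ring
    _ ≤ 4096 * (2 ^ (2 * (j + d)) * 2 ^ (2 * ((3 * i + 1) / 2))) :=
        Nat.mul_le_mul_right _ (by norm_num)

/-- Row E7 (MEDIUM/LONG). One class of frequencies, before the choice of `d`. `M = MM a r b`,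
`Z = M / (20 a L)`, `Q = 2^i`, `K₁ = 2^j` (`0` if `j = 0`), `K₂ = 2^(j+1)` (`fz_of_fr`), `C₀ = 5 a (r+3)`.
Sum `transfer` over `k ∈ R` and split the sum over `m`:
(1) `|m| ≤ m₁ = 2^j / 2` (nat): `shift` with `m₁`, then `energy` with `K₁ - m₁ ≥ 2^(j-1)` (so
`Q max 1 (K₁ - m₁) ≥ 2^(i+j) / 2`), `K₂ + m₁ ≤ 2^(j+d+1)`: bound (I) (total weight `≤ C`);
(2) `2^j / 2 < |m| ≤ 2^(j+d)`: `shift` with `m₁ = 2^(j+d)`, `energy` with `K₁ = 0`,
`K₂ = 2^(j+1) + 2^(j+d) ≤ 2^(j+d+1)`: bound (II), total weight `≤ C 2^(-r j)`;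
(3) `|m| > 2^(j+d)`: `gh_le`, `card_freq` (`#R ≤ 21 4^i 2^(j+1)`, and `2^(j+1) ≤ M`), weight
`≤ C 2^(-r (j+d))`.
In (1), (2) the condition of `energy` is `400 · 4 · 4^(j+d) 8^i ≤ L² = 4^6 4^(j+d) 4^((3i+1)/2)`.
(`∑_{|m| > x} (1+|m|)^(-(r+1)) ≤ 4 (1+x)^(-r)`.) -/
theorem combine {A : Finset ℕ} {a : ℕ} {s : ℝ} (hp : PB A a s) (r : ℕ) (hr : 1 ≤ r) :
    ∃ C : ℝ, 1 ≤ C ∧ ∀ b i j d M L : ℕ, M = MM a r b → L = 2 ^ (6 + j + d + (3 * i + 1) / 2) →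
      1 ≤ b → 1 ≤ d → 3 * L ≤ b → 24 * (a * L) ≤ M → 2 ^ (2 * i + j) ≤ M →
      2 ^ (2 * (i + j)) ≤ M → ∀ R : Finset ℕ, (∀ k ∈ R, k < M) →
      ∀ (qf : ℕ → ℕ) (af : ℕ → ℤ), (∀ k ∈ R, Fr M 2 i j k (qf k) (af k)) →
        ∑ k ∈ R, ‖fh A a r b k‖ ^ 2 ≤
          C * ((L : ℝ) ^ (2 + s) * (((M : ℝ) / L) ^ s + ((2 : ℝ) ^ i) ^ (s / 2)) *
              (1 + (((M : ℝ) / L) ^ 2 / 2 ^ (i + j)) ^ (s / 2)) +
            (1 / 2 : ℝ) ^ (r * j) * ((L : ℝ) ^ (2 + s) *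
              (((M : ℝ) / L) ^ s + ((2 : ℝ) ^ i) ^ (s / 2)) *
              (1 + (((M : ℝ) / L) ^ 2 / 2 ^ i) ^ (s / 2))) +
            (1 / 2 : ℝ) ^ (r * (j + d)) * 2 ^ (2 * i + j) * (M : ℝ) ^ (2 * s)) := by
  obtain ⟨C₁, hC₁, h₁⟩ := transfer hp r hr
  obtain ⟨C₂, hC₂, h₂⟩ := energy hp (5 * a * (r + 3))
  obtain ⟨C₃, hC₃, h₃⟩ := gh_le hp
  have hCt : (1 : ℝ) ≤ 6 * C₂ + 2 * 2 ^ r * C₂ + 84 * C₃ ^ 2 := by
    have : (0 : ℝ) ≤ 2 * 2 ^ r * C₂ := by positivity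
    nlinarith
  refine ⟨C₁ * (6 * C₂ + 2 * 2 ^ r * C₂ + 84 * C₃ ^ 2), by nlinarith, ?_⟩
  intro b i j d M L hM hL hb hd hLb hLM hM1 hM2 R hR qf af hf
  have ha : 4 ≤ a := hp.a4
  have hs0 : 0 ≤ s := by linarith [hp.s1]
  have hs2 : 0 ≤ s / 2 := by linarith
  have hL64 : 64 ≤ L := by
    rw [hL]
    calc 64 = 2 ^ 6 := by norm_num
      _ ≤ 2 ^ (6 + j + d + (3 * i + 1) / 2) := Nat.pow_le_pow_right (by norm_num) (by omega)
  have hMpos : 2 ≤ M := by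
    have h1 : 1 * 64 ≤ a * L := Nat.mul_le_mul (by omega) hL64
    omega
  have hM0 : 0 < M := by omega
  have hMr : (0 : ℝ) < M := by exact_mod_cast hM0
  have hLr : (0 : ℝ) < L := by
    have : 0 < L := by omega
    exact_mod_cast this
  have hfz : ∀ k ∈ R, Fz M (2 ^ i) (if j = 0 then 0 else 2 ^ j) (2 ^ (j + 1)) k (qf k) (af k) :=
    fun k hk => fz_of_fr (hf k hk)
  have hK1 : (if j = 0 then 0 else 2 ^ j) ≤ 2 ^ (j + d) := by
    split_ifs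
    · exact Nat.zero_le _
    · exact Nat.pow_le_pow_right (by norm_num) (by omega)
  -- the three bounds
  set X : ℝ := (L : ℝ) ^ (2 + s) * (((M : ℝ) / L) ^ s + ((2 : ℝ) ^ i) ^ (s / 2)) with hX
  have hX0 : 0 ≤ X := by
    rw [hX]
    exact mul_nonneg (Real.rpow_nonneg hLr.le _) (add_nonneg (Real.rpow_nonneg (by positivity) _)
      (Real.rpow_nonneg (by positivity) _))
  set u : ℝ := (((M : ℝ) / L) ^ 2 / 2 ^ (i + j)) ^ (s / 2) with hu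
  set v : ℝ := (((M : ℝ) / L) ^ 2 / 2 ^ i) ^ (s / 2) with hv
  have hu0 : 0 ≤ u := Real.rpow_nonneg (by positivity) _
  have hv0 : 0 ≤ v := Real.rpow_nonneg (by positivity) _
  have hB1 : ∀ m : ℤ, |m| ≤ ((2 ^ j / 2 : ℕ) : ℤ) →
      ∑ k ∈ R, ‖gh A a M L (5 * a * (r + 3)) ((k : ℤ) - m)‖ ^ 2 ≤ 2 * C₂ * (X * (1 + u)) := by
    intro m hm
    have hj2 : 2 ^ (j + 1) + 2 ^ j / 2 ≤ 2 ^ (j + d + 1) := by
      have h1 : 2 ^ (j + 2) ≤ 2 ^ (j + d + 1) := Nat.pow_le_pow_right (by norm_num) (by omega)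
      have h2 : 2 ^ (j + 1) = 2 * 2 ^ j := by ring
      have h3 : 2 ^ (j + 2) = 4 * 2 ^ j := by ring
      omega
    have h1 := E7_S hp (5 * a * (r + 3)) C₂ hC₂ h₂ M L i (if j = 0 then 0 else 2 ^ j) (2 ^ (j + 1))
      (2 ^ j / 2) hM0 Nat.one_le_two_pow (by omega) hLM (E7_cond i j d _ _ L hL hj2) R hR qf af
      hfz m hm ((2 : ℝ) ^ (i + j) / 2) (by positivity) (by
        rw [pow_add, mul_div_assoc]
        refine mul_le_mul_of_nonneg_left ?_ (by positivity)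
        by_cases hj : j = 0
        · subst hj
          refine le_trans ?_ (le_max_left _ _)
          norm_num
        · refine le_trans ?_ (le_max_right _ _)
          rw [if_neg hj]
          have h5 : 2 ^ j - 2 ^ j / 2 = 2 ^ (j - 1) := by
            have h6 : 2 ^ j = 2 * 2 ^ (j - 1) := by
              rw [← pow_succ']
              congr 1
              omega
            omega
          rw [h5]
          have h7 : (2 : ℝ) ^ j = 2 * 2 ^ (j - 1) := by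
            rw [← pow_succ']
            congr 1
            omega
          rw [h7]
          push_cast
          apply le_of_eq
          ring)
    refine h1.trans ?_
    rw [← hX]
    have h2 : (((M : ℝ) / L) ^ 2 / ((2 : ℝ) ^ (i + j) / 2)) ^ (s / 2) ≤ 2 * u := by
      have h3 : ((M : ℝ) / L) ^ 2 / ((2 : ℝ) ^ (i + j) / 2) =
          2 * (((M : ℝ) / L) ^ 2 / 2 ^ (i + j)) := by
        field_simp
      rw [h3, Real.mul_rpow (by norm_num) (by positivity), ← hu]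
      refine mul_le_mul_of_nonneg_right ?_ hu0
      calc (2 : ℝ) ^ (s / 2) ≤ 2 ^ (1 : ℝ) :=
            Real.rpow_le_rpow_of_exponent_le (by norm_num) (by linarith [hp.s2])
        _ = 2 := Real.rpow_one 2
    have h4 : X * (1 + (((M : ℝ) / L) ^ 2 / ((2 : ℝ) ^ (i + j) / 2)) ^ (s / 2)) ≤
        2 * (X * (1 + u)) := by
      calc X * (1 + (((M : ℝ) / L) ^ 2 / ((2 : ℝ) ^ (i + j) / 2)) ^ (s / 2))
          ≤ X * (2 * (1 + u)) := mul_le_mul_of_nonneg_left (by linarith) hX0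
        _ = 2 * (X * (1 + u)) := by ring
    calc C₂ * (X * (1 + (((M : ℝ) / L) ^ 2 / ((2 : ℝ) ^ (i + j) / 2)) ^ (s / 2)))
        ≤ C₂ * (2 * (X * (1 + u))) := mul_le_mul_of_nonneg_left h4 (by linarith)
      _ = 2 * C₂ * (X * (1 + u)) := by ring
  have hB2 : ∀ m : ℤ, |m| ≤ ((2 ^ (j + d) : ℕ) : ℤ) →
      ∑ k ∈ R, ‖gh A a M L (5 * a * (r + 3)) ((k : ℤ) - m)‖ ^ 2 ≤ C₂ * (X * (1 + v)) := by
    intro m hm
    have hj2 : 2 ^ (j + 1) + 2 ^ (j + d) ≤ 2 ^ (j + d + 1) := by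
      have h1 : 2 ^ (j + 1) ≤ 2 ^ (j + d) := Nat.pow_le_pow_right (by norm_num) (by omega)
      have h2 : 2 ^ (j + d + 1) = 2 * 2 ^ (j + d) := by ring
      omega
    have h1 := E7_S hp (5 * a * (r + 3)) C₂ hC₂ h₂ M L i (if j = 0 then 0 else 2 ^ j) (2 ^ (j + 1))
      (2 ^ (j + d)) hM0 Nat.one_le_two_pow (by omega) hLM (E7_cond i j d _ _ L hL hj2) R hR qf af
      hfz m hm ((2 : ℝ) ^ i) (by positivity) (by
        refine le_mul_of_one_le_right (by positivity) (le_max_left _ _))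
    exact h1
  have hB3 : ∀ m : ℤ,
      ∑ k ∈ R, ‖gh A a M L (5 * a * (r + 3)) ((k : ℤ) - m)‖ ^ 2 ≤
        42 * C₃ ^ 2 * (2 ^ (2 * i + j) * (M : ℝ) ^ (2 * s)) := by
    intro m
    have hcard : R.card ≤ 21 * (2 ^ i) ^ 2 * 2 ^ (j + 1) := by
      refine card_freq M (2 ^ i) (if j = 0 then 0 else 2 ^ j) (2 ^ (j + 1)) Nat.one_le_two_pow
        Nat.one_le_two_pow ?_ R hR (fun k hk => ⟨qf k, af k, hfz k hk⟩)
      by_cases hj : j = 0
      · subst hj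
        simpa using hMpos
      · refine le_trans ?_ hM2
        exact Nat.pow_le_pow_right (by norm_num) (by omega)
    have h1 : ∀ k ∈ R, ‖gh A a M L (5 * a * (r + 3)) ((k : ℤ) - m)‖ ^ 2 ≤
        C₃ ^ 2 * (M : ℝ) ^ (2 * s) := by
      intro k _
      have h2 := h₃ M L (5 * a * (r + 3)) ((k : ℤ) - m) (by omega)
      have h3 := pow_le_pow_left₀ (norm_nonneg _) h2 2
      refine h3.trans (le_of_eq ?_)
      rw [mul_pow]
      congr 1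
      rw [mul_comm 2 s, Real.rpow_mul hMr.le]
      norm_cast
    refine (Finset.sum_le_sum h1).trans ?_
    rw [Finset.sum_const, nsmul_eq_mul]
    have h4 : (R.card : ℝ) ≤ 21 * (2 ^ i) ^ 2 * 2 ^ (j + 1) := by exact_mod_cast hcard
    have h5 : (21 : ℝ) * (2 ^ i) ^ 2 * 2 ^ (j + 1) = 42 * 2 ^ (2 * i + j) := by
      rw [← pow_mul, mul_comm i 2, pow_add, pow_add]
      ring
    rw [h5] at h4
    have h6 : 0 ≤ C₃ ^ 2 * (M : ℝ) ^ (2 * s) := by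
      refine mul_nonneg (by positivity) (Real.rpow_nonneg hMr.le _)
    refine (mul_le_mul_of_nonneg_right h4 h6).trans (le_of_eq ?_)
    ring
  -- the sum
  have hT : ∑ k ∈ R, ‖fh A a r b k‖ ^ 2 ≤ C₁ * ∑ m ∈ sym a r b, (1 / (1 + |(m : ℝ)|)) ^ (r + 1) *
      ∑ k ∈ R, ‖gh A a M L (5 * a * (r + 3)) ((k : ℤ) - m)‖ ^ 2 := by
    have h1 : ∀ k ∈ R, ‖fh A a r b k‖ ^ 2 ≤ C₁ * ∑ m ∈ sym a r b,
        (1 / (1 + |(m : ℝ)|)) ^ (r + 1) *
          ‖gh A a M L (5 * a * (r + 3)) ((k : ℤ) - m)‖ ^ 2 := by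
      intro k _
      have h2 := h₁ b L hb (by omega) hLb (k : ℤ)
      rw [← hM] at h2
      exact h2
    refine (Finset.sum_le_sum h1).trans (le_of_eq ?_)
    rw [← Finset.mul_sum, Finset.sum_comm]
    congr 1
    refine Finset.sum_congr rfl fun m _ => ?_
    rw [Finset.mul_sum]
  have hW : 0 ≤ (2 : ℝ) ^ (2 * i + j) * (M : ℝ) ^ (2 * s) :=
    mul_nonneg (by positivity) (Real.rpow_nonneg hMr.le _)
  generalize hWd : (2 : ℝ) ^ (2 * i + j) * (M : ℝ) ^ (2 * s) = W at hB3 hW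
  have hI : 0 ≤ X * (1 + u) := mul_nonneg hX0 (by linarith)
  have hII : 0 ≤ X * (1 + v) := mul_nonneg hX0 (by linarith)
  have hgoal : (X * (1 + u) + (1 / 2 : ℝ) ^ (r * j) * (X * (1 + v)) +
      (1 / 2 : ℝ) ^ (r * (j + d)) * 2 ^ (2 * i + j) * (M : ℝ) ^ (2 * s)) =
      X * (1 + u) + (1 / 2 : ℝ) ^ (r * j) * (X * (1 + v)) + (1 / 2 : ℝ) ^ (r * (j + d)) * W := by
    rw [← hWd]
    ring
  rw [hgoal]
  generalize X * (1 + u) = I at hB1 hI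
  generalize X * (1 + v) = J at hB2 hII
  clear hgoal hWd
  refine hT.trans ?_
  rw [mul_assoc C₁]
  refine mul_le_mul_of_nonneg_left ?_ (by linarith)
  have hP : ∀ m ∈ sym a r b, (1 / (1 + |(m : ℝ)|)) ^ (r + 1) *
      ∑ k ∈ R, ‖gh A a M L (5 * a * (r + 3)) ((k : ℤ) - m)‖ ^ 2 ≤
      (1 / (1 + |(m : ℝ)|)) ^ (r + 1) * (2 * C₂ * I) +
      (if ((2 ^ j / 2 : ℕ) : ℤ) < |m| then (1 / (1 + |(m : ℝ)|)) ^ (r + 1) * (C₂ * J) else 0) +
      (if ((2 ^ (j + d) : ℕ) : ℤ) < |m| then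
        (1 / (1 + |(m : ℝ)|)) ^ (r + 1) * (42 * C₃ ^ 2 * W) else 0) := by
    intro m _
    have hw : (0 : ℝ) ≤ (1 / (1 + |(m : ℝ)|)) ^ (r + 1) := by positivity
    generalize (1 / (1 + |(m : ℝ)|)) ^ (r + 1) = w at hw
    have e1 : 0 ≤ w * (2 * C₂ * I) := by positivity
    have e2 : 0 ≤ w * (C₂ * J) := by positivity
    have e3 : 0 ≤ w * (42 * C₃ ^ 2 * W) := by positivity
    by_cases c1 : ((2 ^ j / 2 : ℕ) : ℤ) < |m|
    · by_cases c2 : ((2 ^ (j + d) : ℕ) : ℤ) < |m|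
      · rw [if_pos c1, if_pos c2]
        have := mul_le_mul_of_nonneg_left (hB3 m) hw
        linarith
      · rw [if_pos c1, if_neg c2]
        have := mul_le_mul_of_nonneg_left (hB2 m (not_lt.1 c2)) hw
        linarith
    · have h7 := mul_le_mul_of_nonneg_left (hB1 m (not_lt.1 c1)) hw
      rw [if_neg c1]
      have h8 : 0 ≤ (if ((2 ^ (j + d) : ℕ) : ℤ) < |m| then w * (42 * C₃ ^ 2 * W) else 0) := by
        split_ifs
        · exact e3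
        · exact le_rfl
      linarith
  refine (Finset.sum_le_sum hP).trans ?_
  rw [Finset.sum_add_distrib, Finset.sum_add_distrib, ← Finset.sum_filter, ← Finset.sum_filter,
    ← Finset.sum_mul, ← Finset.sum_mul, ← Finset.sum_mul]
  have t1 := E7_tot r hr (sym a r b)
  have t2 := E7_sum r hr ((sym a r b).filter (fun m => ((2 ^ j / 2 : ℕ) : ℤ) < |m|)) (2 ^ j / 2)
    (fun m hm => (Finset.mem_filter.1 hm).2)
  have t3 := E7_sum r hr ((sym a r b).filter (fun m => ((2 ^ (j + d) : ℕ) : ℤ) < |m|))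
    (2 ^ (j + d)) (fun m hm => (Finset.mem_filter.1 hm).2)
  have t2' : (1 / (1 + ((2 ^ j / 2 : ℕ) : ℝ))) ^ r ≤ 2 ^ r * (1 / 2 : ℝ) ^ (r * j) := by
    rw [mul_comm r j, pow_mul, ← mul_pow]
    refine pow_le_pow_left₀ (by positivity) ?_ r
    have h1 : 2 ^ j ≤ 2 * (1 + 2 ^ j / 2) := by omega
    have h2 : (2 : ℝ) ^ j ≤ 2 * (1 + ((2 ^ j / 2 : ℕ) : ℝ)) := by exact_mod_cast h1
    rw [div_pow, one_pow, mul_one_div, div_le_div_iff₀ (by positivity) (by positivity)]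
    linarith
  have t3' : (1 / (1 + ((2 ^ (j + d) : ℕ) : ℝ))) ^ r ≤ (1 / 2 : ℝ) ^ (r * (j + d)) := by
    rw [mul_comm r (j + d), pow_mul]
    refine pow_le_pow_left₀ (by positivity) ?_ r
    rw [div_pow, one_pow]
    refine one_div_le_one_div_of_le (by positivity) ?_
    push_cast
    linarith
  have u1 := mul_le_mul_of_nonneg_right t1 (show 0 ≤ 2 * C₂ * I by positivity)
  have u2 := mul_le_mul_of_nonneg_right (t2.trans (mul_le_mul_of_nonneg_left t2' zero_le_two))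
    (show 0 ≤ C₂ * J by positivity)
  have u3 := mul_le_mul_of_nonneg_right (t3.trans (mul_le_mul_of_nonneg_left t3' zero_le_two))
    (show 0 ≤ 42 * C₃ ^ 2 * W by positivity)
  refine (add_le_add (add_le_add u1 u2) u3).trans ?_
  have p1 : 0 ≤ (1 / 2 : ℝ) ^ (r * j) := by positivity
  have p2 : 0 ≤ (1 / 2 : ℝ) ^ (r * (j + d)) := by positivity
  have p3 : (0 : ℝ) ≤ 2 ^ r := by positivity
  generalize (1 / 2 : ℝ) ^ (r * j) = α at p1
  generalize (1 / 2 : ℝ) ^ (r * (j + d)) = β at p2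
  generalize (2 : ℝ) ^ r = γ at p3
  have q1 : 0 ≤ C₂ := by linarith
  have q2 : 0 ≤ C₃ ^ 2 := by positivity
  have w1 : 0 ≤ C₂ * (α * J) := by positivity
  have w2 : 0 ≤ C₂ * (β * W) := by positivity
  have w3 : 0 ≤ γ * C₂ * I := by positivity
  have w4 : 0 ≤ γ * C₂ * (β * W) := by positivity
  have w5 : 0 ≤ C₃ ^ 2 * I := by positivity
  have w6 : 0 ≤ C₃ ^ 2 * (α * J) := by positivity
  have e0 : (6 * C₂ + 2 * γ * C₂ + 84 * C₃ ^ 2) * (I + α * J + β * W) =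
      (3 * (2 * C₂ * I) + 2 * (γ * α) * (C₂ * J) + 2 * β * (42 * C₃ ^ 2 * W)) +
      (6 * (C₂ * (α * J)) + 6 * (C₂ * (β * W)) + 2 * (γ * C₂ * I) +
        2 * (γ * C₂ * (β * W)) + 84 * (C₃ ^ 2 * I) + 84 * (C₃ ^ 2 * (α * J))) := by
    ring
  rw [e0]
  linarith

end Pool.Agent.LibZD69
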