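import Pool.Agent.LibZD69.Defs

set_option autoImplicit false

namespace Pool.Agent.LibZD69

private theorem E8_pow (x : ℝ) (n : ℕ) : ((2 : ℝ) ^ x) ^ n = (2 : ℝ) ^ (x * n) := by
  rw [Real.rpow_mul (by norm_num), Real.rpow_natCast]

private theorem E8_T1 (s μ l n i j d : ℝ) (h1 : 3 / 2 < s) (hi : 0 ≤ i) (hj : 0 ≤ j)
    (hn : n = i + j) (hd : d ≤ (2 * s - 3) * n / 16 + 1) (hl : l ≤ 7 + j + d + 3 * i / 2)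
    (h2 : s ≤ 2) (hμ : 2 * n ≤ μ) :
    2 * l + s * μ ≤ 40 + 2 * s * μ - (2 * s - 3) / 2 * n := by
  subst hn
  nlinarith [mul_nonneg (sub_nonneg.mpr h1.le) (sub_nonneg.mpr hμ), mul_nonneg (sub_nonneg.mpr h1.le) hi,
    mul_nonneg (sub_nonneg.mpr h1.le) hj]

private theorem E8_T2 (s l n i j d : ℝ) (h1 : 3 / 2 < s) (h2 : s ≤ 2) (hi : 0 ≤ i) (hj : 0 ≤ j)
    (hn : n = i + j) (hd0 : 0 ≤ d) (hd : d ≤ (2 * s - 3) * n / 16 + 1)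
    (hl : l ≤ 7 + j + d + 3 * i / 2) :
    (2 - s) * l - s / 2 * n ≤ 40 - (2 * s - 3) / 2 * n := by
  subst hn
  have h3 : (2 - s) * l ≤ (2 - s) * (7 + j + d + 3 * i / 2) :=
    mul_le_mul_of_nonneg_left hl (by linarith)
  have h4 : (2 - s) * d ≤ 1 / 2 * d := mul_le_mul_of_nonneg_right (by linarith) hd0
  nlinarith [mul_nonneg (sub_nonneg.mpr h1.le) hi, mul_nonneg (sub_nonneg.mpr h1.le) hj]

private theorem E8_T3 (s μ l n i j d : ℝ) (h1 : 3 / 2 < s) (h2 : s ≤ 2) (hi : 0 ≤ i) (hj : 0 ≤ j)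
    (hn : n = i + j) (hd0 : 0 ≤ d) (hd : d ≤ (2 * s - 3) * n / 16 + 1)
    (hl : l ≤ 7 + j + d + 3 * i / 2) (hμ : 2 * n ≤ μ) :
    (2 + s) * l + i * (s / 2) ≤ 40 + 2 * s * μ - (2 * s - 3) / 2 * n := by
  subst hn
  have h3 : (2 + s) * l ≤ (2 + s) * (7 + j + d + 3 * i / 2) :=
    mul_le_mul_of_nonneg_left hl (by linarith)
  have h4 : (2 + s) * d ≤ 4 * d := mul_le_mul_of_nonneg_right (by linarith) hd0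
  have h5 : s * (2 * (i + j)) ≤ s * μ := mul_le_mul_of_nonneg_left hμ (by linarith)
  nlinarith [mul_nonneg (sub_nonneg.mpr h1.le) hi, mul_nonneg (sub_nonneg.mpr h1.le) hj]

private theorem E8_T6 (s l n i j d r : ℝ) (h1 : 3 / 2 < s) (h2 : s ≤ 2) (hi : 0 ≤ i) (hj : 0 ≤ j)
    (hn : n = i + j) (hd0 : 0 ≤ d) (hd : d ≤ (2 * s - 3) * n / 16 + 1)
    (hl : l ≤ 7 + j + d + 3 * i / 2) (hr : 48 ≤ r) :
    -(r * j) + (2 - s) * l - s / 2 * i ≤ 40 - (2 * s - 3) / 2 * n := by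
  subst hn
  have h3 : (2 - s) * l ≤ (2 - s) * (7 + j + d + 3 * i / 2) :=
    mul_le_mul_of_nonneg_left hl (by linarith)
  have h4 : (2 - s) * d ≤ 1 / 2 * d := mul_le_mul_of_nonneg_right (by linarith) hd0
  have h5 : 48 * j ≤ r * j := mul_le_mul_of_nonneg_right hr hj
  nlinarith [mul_nonneg (sub_nonneg.mpr h1.le) hi, mul_nonneg (sub_nonneg.mpr h1.le) hj,
    mul_nonneg (sub_nonneg.mpr h2) hj]

private theorem E8_T9 (s n i j d r : ℝ) (h1 : 3 / 2 < s) (h2 : s ≤ 2) (hi : 0 ≤ i) (hj : 0 ≤ j)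
    (hn : n = i + j) (hd : (2 * s - 3) * n / 16 ≤ d) (hr : 48 ≤ r * (2 * s - 3)) (hr0 : 0 ≤ r) :
    -(r * (j + d)) + (2 * i + j) ≤ 40 - (2 * s - 3) / 2 * n := by
  subst hn
  have h3 : r * ((2 * s - 3) * (i + j) / 16) ≤ r * d := mul_le_mul_of_nonneg_left hd hr0
  have h4 : 48 * (i + j) ≤ r * (2 * s - 3) * (i + j) :=
    mul_le_mul_of_nonneg_right hr (by linarith)
  have h5 : 0 ≤ r * j := mul_nonneg hr0 hj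
  nlinarith [mul_nonneg (sub_nonneg.mpr h2) hi, mul_nonneg (sub_nonneg.mpr h2) hj]

/-- Row E8 (MEDIUM, real exponents). The bookkeeping. `θ = 2 s - 3 ∈ (0, 1]`, `n = i + j`,
`θ n / 16 ≤ d ≤ θ n / 16 + 1`, `48 ≤ r θ`, `L ≤ 2^(7 + d) 2^(3i/2 + j)`, `2^(3i+2j) = 2^(2n) 2^i ≤ M^(3/2)`
(`2^(2n) ≤ M`, `2^(2i) ≤ M`), `M^(-θ/2) ≤ 2^(-θ n)`. Multiply out; every term is
`≤ C 2^(-θ n / 2) M^(2s)`:
* `L^(2+s) (M/L)^s = L² M^s ≤ 2^(14+2d) M^(3/2+s) = 2^(14+2d) M^(2s) M^(-θ/2)`;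
* `L^(2+s) (M/L)^(2s) 2^(-ns/2) = L^(2-s) M^(2s) 2^(-ns/2)`, and `(2-s)(3i/2+j) - (s/2)(i+j) =
  (3-2s) i + (2-3s/2) j ≤ -θ n` (`2 - 3s/2 = -1/4 - 3θ/4 ≤ -θ`), `(2-s)(7+d) ≤ 4 + θ n/32`;
* `L^(2+s) 2^(is/2) ≤ 2^(4(7+d)) M^((3/4)(2+s)) M^(s/4) = 2^(28+4d) M^(3/2+s)`;
* `L^(2+s) 2^(is/2) (M/L)^s 2^(-ns/2) ≤ L² M^s`;
* the second group: the same with `2^(-is/2)` instead of `2^(-ns/2)` and the factor `2^(-rj) ≤ 2^(-js/2)`;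
* the third: `2^(-r(j+d)) 2^(2i+j) ≤ 2^(2n - r d) ≤ 2^(-n)` as `r d ≥ 3 n`. -/
theorem book (s : ℝ) (h1 : 3 / 2 < s) (h2 : s ≤ 2) (r : ℕ) (hr : 48 ≤ (r : ℝ) * (2 * s - 3)) :
    ∃ C : ℝ, 1 ≤ C ∧ ∀ i j d M L : ℕ, L = 2 ^ (6 + j + d + (3 * i + 1) / 2) →
      (2 * s - 3) * ((i : ℝ) + j) / 16 ≤ d → (d : ℝ) ≤ (2 * s - 3) * ((i : ℝ) + j) / 16 + 1 →
      2 ^ (2 * i + j) ≤ M → 2 ^ (2 * (i + j)) ≤ M →
        ((L : ℝ) ^ (2 + s) * (((M : ℝ) / L) ^ s + ((2 : ℝ) ^ i) ^ (s / 2)) *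
              (1 + (((M : ℝ) / L) ^ 2 / 2 ^ (i + j)) ^ (s / 2)) +
            (1 / 2 : ℝ) ^ (r * j) * ((L : ℝ) ^ (2 + s) *
              (((M : ℝ) / L) ^ s + ((2 : ℝ) ^ i) ^ (s / 2)) *
              (1 + (((M : ℝ) / L) ^ 2 / 2 ^ i) ^ (s / 2))) +
            (1 / 2 : ℝ) ^ (r * (j + d)) * 2 ^ (2 * i + j) * (M : ℝ) ^ (2 * s)) ≤
          C * (2 : ℝ) ^ (-((2 * s - 3) / 2 * ((i : ℝ) + j))) * (M : ℝ) ^ (2 * s) := by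
  refine ⟨9 * (2 : ℝ) ^ (40 : ℝ), ?_, ?_⟩
  · have : (1 : ℝ) ≤ (2 : ℝ) ^ (40 : ℝ) := Real.one_le_rpow (by norm_num) (by norm_num)
    linarith
  intro i j d M L hL hd1 hd2 _ hM2
  have h2p : (0 : ℝ) < 2 := by norm_num
  have hr0 : (0 : ℝ) ≤ r := Nat.cast_nonneg r
  have hr48 : (48 : ℝ) ≤ r := by nlinarith
  have hi : (0 : ℝ) ≤ i := Nat.cast_nonneg i
  have hj : (0 : ℝ) ≤ j := Nat.cast_nonneg j
  have hd0 : (0 : ℝ) ≤ d := Nat.cast_nonneg d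
  have hMpos : 0 < M := lt_of_lt_of_le (by positivity) hM2
  have hMr : (0 : ℝ) < M := by exact_mod_cast hMpos
  obtain ⟨μ, hμ⟩ : ∃ μ : ℝ, (M : ℝ) = (2 : ℝ) ^ μ :=
    ⟨Real.logb 2 M, (Real.rpow_logb h2p (by norm_num) hMr).symm⟩
  obtain ⟨l, hl⟩ : ∃ l : ℕ, l = 6 + j + d + (3 * i + 1) / 2 := ⟨_, rfl⟩
  have hLr : (L : ℝ) = (2 : ℝ) ^ (l : ℝ) := by
    rw [hL, ← hl, Real.rpow_natCast]; push_cast; rfl
  have hlr : (l : ℝ) ≤ 7 + j + d + 3 * i / 2 := by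
    have h3 : 2 * l ≤ 14 + 2 * j + 2 * d + 3 * i := by omega
    have h4 : (2 : ℝ) * l ≤ 14 + 2 * j + 2 * d + 3 * i := by exact_mod_cast h3
    linarith
  have hμ2 : 2 * ((i : ℝ) + j) ≤ μ := by
    have h3 : ((2 ^ (2 * (i + j)) : ℕ) : ℝ) ≤ (M : ℝ) := by exact_mod_cast hM2
    rw [hμ] at h3
    have h4 : ((2 ^ (2 * (i + j)) : ℕ) : ℝ) = (2 : ℝ) ^ (2 * ((i : ℝ) + j)) := by
      have : (2 * ((i : ℝ) + j)) = ((2 * (i + j) : ℕ) : ℝ) := by push_cast; ring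
      rw [this, Real.rpow_natCast]; push_cast; ring
    rw [h4] at h3
    exact (Real.rpow_le_rpow_left_iff (by norm_num)).mp h3
  set n : ℝ := (i : ℝ) + j with hn
  have hdiv : (M : ℝ) / L = (2 : ℝ) ^ (μ - l) := by
    rw [hμ, hLr, ← Real.rpow_sub h2p]
  have e1 : (L : ℝ) ^ (2 + s) = (2 : ℝ) ^ ((l : ℝ) * (2 + s)) := by
    rw [hLr, ← Real.rpow_mul h2p.le]
  have e2 : ((M : ℝ) / L) ^ s = (2 : ℝ) ^ ((μ - l) * s) := by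
    rw [hdiv, ← Real.rpow_mul h2p.le]
  have e3 : ((2 : ℝ) ^ i) ^ (s / 2) = (2 : ℝ) ^ ((i : ℝ) * (s / 2)) := by
    rw [← Real.rpow_natCast, ← Real.rpow_mul h2p.le]
  have e4 : (((M : ℝ) / L) ^ 2 / 2 ^ (i + j)) ^ (s / 2) = (2 : ℝ) ^ (((μ - l) * 2 - n) * (s / 2)) := by
    have h3 : ((2 : ℝ) ^ (i + j)) = (2 : ℝ) ^ n := by
      rw [hn, ← Nat.cast_add, Real.rpow_natCast]
    rw [hdiv, E8_pow, h3, ← Real.rpow_sub h2p, ← Real.rpow_mul h2p.le]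
    norm_num
  have e5 : (((M : ℝ) / L) ^ 2 / 2 ^ i) ^ (s / 2) = (2 : ℝ) ^ (((μ - l) * 2 - i) * (s / 2)) := by
    have h3 : ((2 : ℝ) ^ i) = (2 : ℝ) ^ (i : ℝ) := (Real.rpow_natCast _ _).symm
    rw [hdiv, E8_pow, h3, ← Real.rpow_sub h2p, ← Real.rpow_mul h2p.le]
    norm_num
  have e6 : (1 / 2 : ℝ) ^ (r * j) = (2 : ℝ) ^ (-((r : ℝ) * j)) := by
    rw [Real.rpow_neg h2p.le, ← Nat.cast_mul, Real.rpow_natCast, one_div, inv_pow]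
  have e7 : (1 / 2 : ℝ) ^ (r * (j + d)) = (2 : ℝ) ^ (-((r : ℝ) * (j + d))) := by
    rw [Real.rpow_neg h2p.le, ← Nat.cast_add, ← Nat.cast_mul, Real.rpow_natCast, one_div, inv_pow]
  have e8 : (2 : ℝ) ^ (2 * i + j) = (2 : ℝ) ^ (2 * (i : ℝ) + j) := by
    have : (2 * (i : ℝ) + j) = ((2 * i + j : ℕ) : ℝ) := by push_cast; ring
    rw [this, Real.rpow_natCast]
  have e9 : (M : ℝ) ^ (2 * s) = (2 : ℝ) ^ (μ * (2 * s)) := by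
    rw [hμ, ← Real.rpow_mul h2p.le]
  rw [e1, e2, e3, e4, e5, e6, e7, e8, e9]
  have key : ∀ x : ℝ, x ≤ 40 + 2 * s * μ - (2 * s - 3) / 2 * n →
      (2 : ℝ) ^ x ≤ (2 : ℝ) ^ (40 + 2 * s * μ - (2 * s - 3) / 2 * n) := fun x hx =>
    Real.rpow_le_rpow_of_exponent_le (by norm_num) hx
  have hin : (i : ℝ) ≤ n := by rw [hn]; linarith
  have hs0 : 0 ≤ s := by linarith
  have hrj : 0 ≤ (r : ℝ) * j := mul_nonneg hr0 hj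
  have t1 := E8_T1 s μ l n i j d h1 hi hj hn hd2 hlr h2 hμ2
  have t2 := E8_T2 s l n i j d h1 h2 hi hj hn hd0 hd2 hlr
  have t3 := E8_T3 s μ l n i j d h1 h2 hi hj hn hd0 hd2 hlr hμ2
  have t6 := E8_T6 s l n i j d r h1 h2 hi hj hn hd0 hd2 hlr hr48
  have t9 := E8_T9 s n i j d r h1 h2 hi hj hn hd1 hr hr0
  have hsin : i * (s / 2) ≤ n * (s / 2) := mul_le_mul_of_nonneg_right hin (by linarith)
  have k1 : (2 : ℝ) ^ ((l : ℝ) * (2 + s)) * (2 : ℝ) ^ ((μ - l) * s) ≤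
      (2 : ℝ) ^ (40 + 2 * s * μ - (2 * s - 3) / 2 * n) := by
    rw [← Real.rpow_add h2p]; apply key; linarith
  have k2 : (2 : ℝ) ^ ((l : ℝ) * (2 + s)) * (2 : ℝ) ^ ((μ - l) * s) *
      (2 : ℝ) ^ (((μ - l) * 2 - n) * (s / 2)) ≤
      (2 : ℝ) ^ (40 + 2 * s * μ - (2 * s - 3) / 2 * n) := by
    rw [← Real.rpow_add h2p, ← Real.rpow_add h2p]; apply key; linarith
  have k3 : (2 : ℝ) ^ ((l : ℝ) * (2 + s)) * (2 : ℝ) ^ ((i : ℝ) * (s / 2)) ≤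
      (2 : ℝ) ^ (40 + 2 * s * μ - (2 * s - 3) / 2 * n) := by
    rw [← Real.rpow_add h2p]; apply key; linarith
  have k4 : (2 : ℝ) ^ ((l : ℝ) * (2 + s)) * (2 : ℝ) ^ ((i : ℝ) * (s / 2)) *
      (2 : ℝ) ^ (((μ - l) * 2 - n) * (s / 2)) ≤
      (2 : ℝ) ^ (40 + 2 * s * μ - (2 * s - 3) / 2 * n) := by
    rw [← Real.rpow_add h2p, ← Real.rpow_add h2p]; apply key; linarith
  have k5 : (2 : ℝ) ^ (-((r : ℝ) * j)) * ((2 : ℝ) ^ ((l : ℝ) * (2 + s)) *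
      (2 : ℝ) ^ ((μ - l) * s)) ≤ (2 : ℝ) ^ (40 + 2 * s * μ - (2 * s - 3) / 2 * n) := by
    rw [← Real.rpow_add h2p, ← Real.rpow_add h2p]; apply key; linarith
  have k6 : (2 : ℝ) ^ (-((r : ℝ) * j)) * ((2 : ℝ) ^ ((l : ℝ) * (2 + s)) *
      (2 : ℝ) ^ ((μ - l) * s) * (2 : ℝ) ^ (((μ - l) * 2 - i) * (s / 2))) ≤
      (2 : ℝ) ^ (40 + 2 * s * μ - (2 * s - 3) / 2 * n) := by
    rw [← Real.rpow_add h2p, ← Real.rpow_add h2p, ← Real.rpow_add h2p]; apply key; linarith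
  have k7 : (2 : ℝ) ^ (-((r : ℝ) * j)) * ((2 : ℝ) ^ ((l : ℝ) * (2 + s)) *
      (2 : ℝ) ^ ((i : ℝ) * (s / 2))) ≤ (2 : ℝ) ^ (40 + 2 * s * μ - (2 * s - 3) / 2 * n) := by
    rw [← Real.rpow_add h2p, ← Real.rpow_add h2p]; apply key; linarith
  have k8 : (2 : ℝ) ^ (-((r : ℝ) * j)) * ((2 : ℝ) ^ ((l : ℝ) * (2 + s)) *
      (2 : ℝ) ^ ((i : ℝ) * (s / 2)) * (2 : ℝ) ^ (((μ - l) * 2 - i) * (s / 2))) ≤
      (2 : ℝ) ^ (40 + 2 * s * μ - (2 * s - 3) / 2 * n) := by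
    rw [← Real.rpow_add h2p, ← Real.rpow_add h2p, ← Real.rpow_add h2p]; apply key; linarith
  have k9 : (2 : ℝ) ^ (-((r : ℝ) * (j + d))) * (2 : ℝ) ^ (2 * (i : ℝ) + j) *
      (2 : ℝ) ^ (μ * (2 * s)) ≤ (2 : ℝ) ^ (40 + 2 * s * μ - (2 * s - 3) / 2 * n) := by
    rw [← Real.rpow_add h2p, ← Real.rpow_add h2p]; apply key; linarith
  have hfin : (9 * (2 : ℝ) ^ (40 : ℝ)) * (2 : ℝ) ^ (-((2 * s - 3) / 2 * n)) *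
      (2 : ℝ) ^ (μ * (2 * s)) = 9 * (2 : ℝ) ^ (40 + 2 * s * μ - (2 * s - 3) / 2 * n) := by
    rw [mul_assoc, mul_assoc, ← Real.rpow_add h2p, ← Real.rpow_add h2p]
    congr 2
    ring
  rw [hfin]
  calc _ = ((2 : ℝ) ^ ((l : ℝ) * (2 + s)) * (2 : ℝ) ^ ((μ - l) * s)) +
      ((2 : ℝ) ^ ((l : ℝ) * (2 + s)) * (2 : ℝ) ^ ((μ - l) * s) *
        (2 : ℝ) ^ (((μ - l) * 2 - n) * (s / 2))) +
      ((2 : ℝ) ^ ((l : ℝ) * (2 + s)) * (2 : ℝ) ^ ((i : ℝ) * (s / 2))) +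
      ((2 : ℝ) ^ ((l : ℝ) * (2 + s)) * (2 : ℝ) ^ ((i : ℝ) * (s / 2)) *
        (2 : ℝ) ^ (((μ - l) * 2 - n) * (s / 2))) +
      ((2 : ℝ) ^ (-((r : ℝ) * j)) * ((2 : ℝ) ^ ((l : ℝ) * (2 + s)) * (2 : ℝ) ^ ((μ - l) * s))) +
      ((2 : ℝ) ^ (-((r : ℝ) * j)) * ((2 : ℝ) ^ ((l : ℝ) * (2 + s)) *
        (2 : ℝ) ^ ((μ - l) * s) * (2 : ℝ) ^ (((μ - l) * 2 - i) * (s / 2)))) +
      ((2 : ℝ) ^ (-((r : ℝ) * j)) * ((2 : ℝ) ^ ((l : ℝ) * (2 + s)) *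
        (2 : ℝ) ^ ((i : ℝ) * (s / 2)))) +
      ((2 : ℝ) ^ (-((r : ℝ) * j)) * ((2 : ℝ) ^ ((l : ℝ) * (2 + s)) *
        (2 : ℝ) ^ ((i : ℝ) * (s / 2)) * (2 : ℝ) ^ (((μ - l) * 2 - i) * (s / 2)))) +
      ((2 : ℝ) ^ (-((r : ℝ) * (j + d))) * (2 : ℝ) ^ (2 * (i : ℝ) + j) *
        (2 : ℝ) ^ (μ * (2 * s))) := by ring
    _ ≤ _ := by linarith

end Pool.Agent.LibZD69
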