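import Pool.Agent.LibZD69.E7
import Pool.Agent.LibZD69.E8

set_option autoImplicit false

namespace Pool.Agent.LibZD69

open Pool.Agent.LibNZ69

private theorem E9_size (a r b i j d M L K c : ℕ) (hK : K = 3 ^ 32 * 2 ^ 240)
    (hc : c = 20 * a * (r + 3)) (hb : K * c ^ 25 ≤ b) (hb1 : 1 ≤ b) (hM : M = MM a r b)
    (hL : L = 2 ^ (6 + j + d + (3 * i + 1) / 2)) (hd : 16 * d ≤ i + j + 16)
    (h1 : 2 ^ (2 * i + j) ≤ M) (h2 : 2 ^ (2 * (i + j)) ≤ M) : 3 * L ≤ b := by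
  have hMc : M = c * b := by
    rw [hM, hc]
    unfold MM
    ring
  have hL32 : L ^ 32 ≤ 2 ^ 240 * M ^ 25 := by
    have e1 : L ^ 32 = 2 ^ ((6 + j + d + (3 * i + 1) / 2) * 32) := by
      rw [hL, ← pow_mul]
    have e2 : (6 + j + d + (3 * i + 1) / 2) * 32 ≤ 240 + ((2 * i + j) * 16 + 2 * (i + j) * 9) := by
      omega
    have e3 : (2 : ℕ) ^ (240 + ((2 * i + j) * 16 + 2 * (i + j) * 9)) =
        2 ^ 240 * ((2 ^ (2 * i + j)) ^ 16 * (2 ^ (2 * (i + j))) ^ 9) := by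
      rw [pow_add, pow_add, pow_mul 2 (2 * i + j) 16, pow_mul 2 (2 * (i + j)) 9]
    have e4 : (2 ^ (2 * i + j)) ^ 16 * (2 ^ (2 * (i + j))) ^ 9 ≤ M ^ 16 * M ^ 9 :=
      Nat.mul_le_mul (Nat.pow_le_pow_left h1 16) (Nat.pow_le_pow_left h2 9)
    have e5 : M ^ 16 * M ^ 9 = M ^ 25 := by rw [← pow_add]
    rw [e1]
    refine (Nat.pow_le_pow_right (by norm_num) e2).trans ?_
    rw [e3]
    refine Nat.mul_le_mul_left _ ?_
    rw [← e5]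
    exact e4
  have h3 : (3 * L) ^ 32 ≤ b ^ 32 := by
    have e1 : (3 * L) ^ 32 = 3 ^ 32 * L ^ 32 := mul_pow 3 L 32
    have e2 : 3 ^ 32 * (2 ^ 240 * M ^ 25) = K * c ^ 25 * b ^ 25 := by
      rw [hMc, hK, mul_pow c b 25]
      ring
    have e3 : K * c ^ 25 * b ^ 25 ≤ b * b ^ 25 := Nat.mul_le_mul_right _ hb
    have e4 : b * b ^ 25 = b ^ 26 := by rw [pow_succ b 25, mul_comm]
    have e5 : b ^ 26 ≤ b ^ 32 := Nat.pow_le_pow_right hb1 (by norm_num)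
    calc (3 * L) ^ 32 = 3 ^ 32 * L ^ 32 := e1
      _ ≤ 3 ^ 32 * (2 ^ 240 * M ^ 25) := Nat.mul_le_mul_left _ hL32
      _ = K * c ^ 25 * b ^ 25 := e2
      _ ≤ b * b ^ 25 := e3
      _ = b ^ 26 := e4
      _ ≤ b ^ 32 := e5
  exact le_of_pow_le_pow_left₀ (by norm_num) (Nat.zero_le b) h3

/-- Row E9a (MEDIUM). `combine` and `book` with `d = ⌊(2s-3)(i+j)/16⌋ + 1`. The conditions
`3 L ≤ b`, `24 a L ≤ M` hold for `b ≥ b₀`: `L ≤ 2^(7+d) M^(3/4) ≤ 2^8 · 2^((i+j)/16) M^(3/4) ≤ 2^8 M^(25/32)`. -/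
theorem classBound {A : Finset ℕ} {a : ℕ} {s : ℝ} (hp : PB A a s) (r : ℕ) (hr1 : 1 ≤ r)
    (hr : 48 ≤ (r : ℝ) * (2 * s - 3)) :
    ∃ C : ℝ, 1 ≤ C ∧ ∃ b₀ : ℕ, ∀ b i j M : ℕ, b₀ ≤ b → M = MM a r b → 2 ^ (2 * i + j) ≤ M →
      2 ^ (2 * (i + j)) ≤ M → ∀ R : Finset ℕ, (∀ k ∈ R, k < M) →
      ∀ (qf : ℕ → ℕ) (af : ℕ → ℤ), (∀ k ∈ R, Fr M 2 i j k (qf k) (af k)) →
        ∑ k ∈ R, ‖fh A a r b k‖ ^ 2 ≤
          C * (2 : ℝ) ^ (-((2 * s - 3) / 2 * ((i : ℝ) + j))) * (M : ℝ) ^ (2 * s) := by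
  obtain ⟨C1, hC1, hcomb⟩ := combine hp r hr1
  obtain ⟨C2, hC2, hbook⟩ := book s hp.s1 hp.s2 r hr
  obtain ⟨K, hK⟩ : ∃ K : ℕ, K = 3 ^ 32 * 2 ^ 240 := ⟨_, rfl⟩
  obtain ⟨c, hc⟩ : ∃ c : ℕ, c = 20 * a * (r + 3) := ⟨_, rfl⟩
  refine ⟨C1 * C2, one_le_mul_of_one_le_of_one_le hC1 hC2, K * c ^ 25 + 1, ?_⟩
  intro b i j M hb hM h1 h2 R hR qf af hf
  have hs1 := hp.s1
  have hs2 := hp.s2
  have hn0 : (0 : ℝ) ≤ (i : ℝ) + j := by positivity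
  have hx0 : 0 ≤ (2 * s - 3) * ((i : ℝ) + j) / 16 := by
    have : 0 ≤ 2 * s - 3 := by linarith
    positivity
  obtain ⟨m, hm⟩ : ∃ m : ℕ, m = ⌊(2 * s - 3) * ((i : ℝ) + j) / 16⌋₊ := ⟨_, rfl⟩
  have hm1 : (m : ℝ) ≤ (2 * s - 3) * ((i : ℝ) + j) / 16 := by
    rw [hm]
    exact Nat.floor_le hx0
  have hm2 : (2 * s - 3) * ((i : ℝ) + j) / 16 ≤ ((m + 1 : ℕ) : ℝ) := by
    rw [hm]
    push_cast
    exact (Nat.lt_floor_add_one _).le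
  have hm3 : ((m + 1 : ℕ) : ℝ) ≤ (2 * s - 3) * ((i : ℝ) + j) / 16 + 1 := by
    push_cast
    linarith
  have hd : 16 * (m + 1) ≤ i + j + 16 := by
    have e1 : (16 * (m : ℝ)) ≤ (i : ℝ) + j := by
      have : (2 * s - 3) * ((i : ℝ) + j) ≤ 1 * ((i : ℝ) + j) :=
        mul_le_mul_of_nonneg_right (by linarith) hn0
      linarith
    have e2 : 16 * m ≤ i + j := by exact_mod_cast e1
    omega
  have hb1 : 1 ≤ b := by omega
  have h3L := E9_size a r b i j (m + 1) M _ K c hK hc (by omega) hb1 hM rfl hd h1 h2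
  obtain ⟨L, hL⟩ : ∃ L : ℕ, L = 2 ^ (6 + j + (m + 1) + (3 * i + 1) / 2) := ⟨_, rfl⟩
  rw [← hL] at h3L
  have h24 : 24 * (a * L) ≤ M := by
    rw [hM]
    unfold MM
    calc 24 * (a * L) = 8 * a * (3 * L) := by ring
      _ ≤ 8 * a * b := Nat.mul_le_mul_left _ h3L
      _ ≤ 20 * a * (r + 3) * b := by
        refine Nat.mul_le_mul_right _ ?_
        nlinarith
  have e1 := hcomb b i j (m + 1) M L hM hL hb1 (by omega) h3L h24 h1 h2 R hR qf af hf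
  have e2 := hbook i j (m + 1) M L hL hm2 hm3 h1 h2
  refine e1.trans ?_
  have e3 := mul_le_mul_of_nonneg_left e2 (show (0 : ℝ) ≤ C1 by linarith)
  refine e3.trans (le_of_eq ?_)
  ring

private theorem E9_geom (x : ℝ) (hx0 : 0 ≤ x) (hx1 : x < 1) (P : Finset (ℕ × ℕ)) :
    ∑ p ∈ P, x ^ p.1 * x ^ p.2 ≤ (1 - x)⁻¹ * (1 - x)⁻¹ := by
  obtain ⟨N, hN⟩ : ∃ N : ℕ, ∀ p ∈ P, p.1 < N ∧ p.2 < N := by
    refine ⟨P.sup (fun p => p.1 + p.2) + 1, fun p hp => ?_⟩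
    have h : p.1 + p.2 ≤ P.sup (fun p => p.1 + p.2) :=
      Finset.le_sup (f := fun p : ℕ × ℕ => p.1 + p.2) hp
    constructor <;> omega
  have hsub : P ⊆ Finset.range N ×ˢ Finset.range N := by
    intro p hp
    rw [Finset.mem_product, Finset.mem_range, Finset.mem_range]
    exact hN p hp
  have hg : ∑ k ∈ Finset.range N, x ^ k ≤ (1 - x)⁻¹ := by
    rw [← tsum_geometric_of_lt_one hx0 hx1]
    exact (summable_geometric_of_lt_one hx0 hx1).sum_le_tsum _ (fun k _ => pow_nonneg hx0 k)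
  have hg0 : 0 ≤ ∑ k ∈ Finset.range N, x ^ k := Finset.sum_nonneg fun k _ => pow_nonneg hx0 k
  calc ∑ p ∈ P, x ^ p.1 * x ^ p.2
      ≤ ∑ p ∈ Finset.range N ×ˢ Finset.range N, x ^ p.1 * x ^ p.2 :=
        Finset.sum_le_sum_of_subset_of_nonneg hsub
          (fun p _ _ => mul_nonneg (pow_nonneg hx0 _) (pow_nonneg hx0 _))
    _ = (∑ k ∈ Finset.range N, x ^ k) * (∑ k ∈ Finset.range N, x ^ k) := by
        rw [Finset.sum_product, Finset.sum_mul_sum]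
    _ ≤ (1 - x)⁻¹ * (1 - x)⁻¹ := mul_le_mul hg hg hg0 (hg0.trans hg)

/-- Row E9 (MEDIUM). The sum over the classes with `i + j ≥ t₀`: choose the class of each `k ∈ R`,
`∑_{i + j ≥ t₀} 2^(-θ (i+j)/2) = ∑_{n ≥ t₀} (n+1) 2^(-θ n/2) ≤ C 2^(-θ t₀/4)` (summable over all pairs). -/
theorem tail {A : Finset ℕ} {a : ℕ} {s : ℝ} (hp : PB A a s) (r : ℕ) (hr1 : 1 ≤ r)
    (hr : 48 ≤ (r : ℝ) * (2 * s - 3)) :
    ∃ C : ℝ, 1 ≤ C ∧ ∃ b₀ : ℕ, ∀ b M : ℕ, b₀ ≤ b → M = MM a r b → ∀ t₀ : ℕ,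
      ∀ R : Finset ℕ, (∀ k ∈ R, k < M) → (∀ k ∈ R, ∃ (i j q : ℕ) (α : ℤ), Fr M 2 i j k q α ∧
        2 ^ (2 * i + j) ≤ M ∧ 2 ^ (2 * (i + j)) ≤ M ∧ t₀ ≤ i + j) →
        ∑ k ∈ R, ‖fh A a r b k‖ ^ 2 ≤
          C * (2 : ℝ) ^ (-((2 * s - 3) / 4 * (t₀ : ℝ))) * (M : ℝ) ^ (2 * s) := by
  classical
  obtain ⟨C, hC, b₀, hcb⟩ := classBound hp r hr1 hr
  have hs1 := hp.s1
  obtain ⟨x, hx⟩ : ∃ x : ℝ, x = (2 : ℝ) ^ (-((2 * s - 3) / 4)) := ⟨_, rfl⟩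
  have hx0 : 0 < x := by rw [hx]; positivity
  have hx1 : x < 1 := by
    rw [hx]
    exact Real.rpow_lt_one_of_one_lt_of_neg (by norm_num) (by linarith)
  have hxn : ∀ n : ℕ, (2 : ℝ) ^ (-((2 * s - 3) / 4 * (n : ℝ))) = x ^ n := by
    intro n
    rw [hx, ← Real.rpow_natCast, ← Real.rpow_mul (by norm_num)]
    congr 1
    ring
  have hG1 : 1 ≤ (1 - x)⁻¹ := by
    rw [one_le_inv₀ (by linarith)]
    linarith
  refine ⟨C * ((1 - x)⁻¹ * (1 - x)⁻¹), ?_, b₀, ?_⟩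
  · exact one_le_mul_of_one_le_of_one_le hC (one_le_mul_of_one_le_of_one_le hG1 hG1)
  intro b M hb hM t₀ R hR hfr
  choose! fi fj fq fa hF hc1 hc2 ht using hfr
  have hmaps : ∀ k ∈ R, (fi k, fj k) ∈ R.image (fun k => (fi k, fj k)) := fun k hk =>
    Finset.mem_image_of_mem _ hk
  rw [← Finset.sum_fiberwise_of_maps_to hmaps]
  have hcls : ∀ p ∈ R.image (fun k => (fi k, fj k)),
      ∑ k ∈ R with (fi k, fj k) = p, ‖fh A a r b k‖ ^ 2 ≤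
        C * (x ^ t₀ * (x ^ p.1 * x ^ p.2)) * (M : ℝ) ^ (2 * s) := by
    intro p hp'
    obtain ⟨k0, hk0, hk0p⟩ := Finset.mem_image.1 hp'
    have hp1 : fi k0 = p.1 := by rw [← hk0p]
    have hp2 : fj k0 = p.2 := by rw [← hk0p]
    have g1 : 2 ^ (2 * p.1 + p.2) ≤ M := by rw [← hp1, ← hp2]; exact hc1 k0 hk0
    have g2 : 2 ^ (2 * (p.1 + p.2)) ≤ M := by rw [← hp1, ← hp2]; exact hc2 k0 hk0
    have g3 : t₀ ≤ p.1 + p.2 := by rw [← hp1, ← hp2]; exact ht k0 hk0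
    have g4 := hcb b p.1 p.2 M hb hM g1 g2 (R.filter (fun k => (fi k, fj k) = p))
      (fun k hk => hR k (Finset.mem_filter.1 hk).1) fq fa (by
        intro k hk
        rw [Finset.mem_filter] at hk
        have e1 : fi k = p.1 := by rw [← hk.2]
        have e2 : fj k = p.2 := by rw [← hk.2]
        have := hF k hk.1
        rw [e1, e2] at this
        exact this)
    refine g4.trans ?_
    refine mul_le_mul_of_nonneg_right ?_ (by positivity)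
    refine mul_le_mul_of_nonneg_left ?_ (by linarith)
    have e1 : (2 : ℝ) ^ (-((2 * s - 3) / 2 * ((p.1 : ℝ) + p.2))) =
        x ^ (p.1 + p.2) * (x ^ p.1 * x ^ p.2) := by
      rw [← pow_add, ← hxn, ← Real.rpow_add (by norm_num)]
      congr 1
      push_cast
      ring
    rw [e1]
    refine mul_le_mul_of_nonneg_right ?_ (by positivity)
    exact pow_le_pow_of_le_one hx0.le hx1.le g3
  refine (Finset.sum_le_sum hcls).trans ?_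
  rw [← Finset.sum_mul, ← Finset.mul_sum, ← Finset.mul_sum, hxn]
  refine mul_le_mul_of_nonneg_right ?_ (by positivity)
  have h9 := E9_geom x hx0.le hx1 (R.image (fun k => (fi k, fj k)))
  calc C * (x ^ t₀ * ∑ p ∈ R.image (fun k => (fi k, fj k)), x ^ p.1 * x ^ p.2)
      ≤ C * (x ^ t₀ * ((1 - x)⁻¹ * (1 - x)⁻¹)) := by
        refine mul_le_mul_of_nonneg_left ?_ (by linarith)
        exact mul_le_mul_of_nonneg_left h9 (by positivity)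
    _ = C * ((1 - x)⁻¹ * (1 - x)⁻¹) * x ^ t₀ := by ring

end Pool.Agent.LibZD69
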