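import Pool.Agent.LibZD69.E1

set_option autoImplicit false

namespace Pool.Agent.LibZD69

open Pool.Agent.LibNZ69

private theorem F1_conj (M : ℕ) (x : ℤ) : (starRingEnd ℂ) (ch M x) = ch M (-x) := by
  unfold ch
  rw [← Complex.exp_conj]
  congr 1
  simp only [map_div₀, map_mul, Complex.conj_ofReal, Complex.conj_I, Complex.conj_natCast,
    map_intCast, map_ofNat]
  push_cast
  ring

private theorem F1_pars (M : ℕ) (hM : 0 < M) (c : ℕ → ℂ) :
    ∑ x ∈ Finset.range M, ‖∑ k ∈ Finset.range M, c k * ch M (-((k : ℤ) * x))‖ ^ 2 =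
      (M : ℝ) * ∑ k ∈ Finset.range M, ‖c k‖ ^ 2 := by
  have key : ∑ x ∈ Finset.range M,
      ((∑ k ∈ Finset.range M, c k * ch M (-((k : ℤ) * x))) *
        (starRingEnd ℂ) (∑ k ∈ Finset.range M, c k * ch M (-((k : ℤ) * x)))) =
      (M : ℂ) * ∑ k ∈ Finset.range M, c k * (starRingEnd ℂ) (c k) := by
    have h1 : ∀ x ∈ Finset.range M,
        ((∑ k ∈ Finset.range M, c k * ch M (-((k : ℤ) * x))) *
          (starRingEnd ℂ) (∑ k ∈ Finset.range M, c k * ch M (-((k : ℤ) * x)))) =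
        ∑ k ∈ Finset.range M, ∑ k' ∈ Finset.range M,
          (c k * (starRingEnd ℂ) (c k')) * ch M (x * ((k' : ℤ) - k)) := by
      intro x _
      rw [map_sum, Finset.sum_mul_sum]
      refine Finset.sum_congr rfl fun k _ => Finset.sum_congr rfl fun k' _ => ?_
      rw [map_mul, F1_conj]
      have h2 : ch M (x * ((k' : ℤ) - k)) = ch M (-((k : ℤ) * x)) * ch M (-(-((k' : ℤ) * x))) := by
        rw [← ch_add]
        congr 1
        ring
      rw [h2]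
      ring
    rw [Finset.sum_congr rfl h1, Finset.sum_comm]
    rw [Finset.mul_sum]
    refine Finset.sum_congr rfl fun k hk => ?_
    rw [Finset.sum_comm]
    have h3 : ∀ k' ∈ Finset.range M,
        ∑ x ∈ Finset.range M, (c k * (starRingEnd ℂ) (c k')) * ch M (x * ((k' : ℤ) - k)) =
        if k' = k then (M : ℂ) * (c k * (starRingEnd ℂ) (c k)) else 0 := by
      intro k' hk'
      rw [← Finset.mul_sum, ch_orth M hM]
      by_cases hkk : k' = k
      · subst hkk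
        simp
        ring
      · have : ¬ ((M : ℤ) ∣ (k' : ℤ) - k) := by
          intro hd
          apply hkk
          have h4 : ((k' : ℤ) - k) = 0 := by
            apply Int.eq_zero_of_abs_lt_dvd hd
            rw [Finset.mem_range] at hk hk'
            rw [abs_lt]
            constructor <;> omega
          omega
        rw [if_neg this, if_neg hkk, mul_zero]
    rw [Finset.sum_congr rfl h3, Finset.sum_ite_eq' (Finset.range M) k]
    rw [if_pos hk]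
  have e : ∀ z : ℂ, z * (starRingEnd ℂ) z = ((‖z‖ ^ 2 : ℝ) : ℂ) := by
    intro z
    rw [Complex.mul_conj, Complex.normSq_eq_norm_sq]
  simp only [e] at key
  exact_mod_cast key

private theorem F1_card (H₀ : ℕ) : ((Finset.Icc (-(H₀ : ℤ)) H₀).card : ℤ) = 2 * H₀ + 1 := by
  rw [Int.card_Icc]
  omega

/-- Row F1a (MEDIUM). Parseval for a periodic function and its average over a progression. With
`F x = ∑_z [M ∣ n z - x] φ z` one has `∑_x F x ch M (k x) = ∑_z φ z ch M (k n z)` and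
`∑_x F (x - q₀ h) ch M (k x) = ch M (k q₀ h) ∑_z φ z ch M (k n z)`; Parseval on `ℤ/M` (`ch_orth`). -/
theorem parseval (M : ℕ) (hM : 0 < M) {ι : Type*} (Ω : Finset ι) (n : ι → ℤ) (φ : ι → ℝ)
    (q₀ H₀ : ℕ) (F : ℤ → ℝ) (hF : ∀ x, F x = ∑ z ∈ Ω, if (M : ℤ) ∣ n z - x then φ z else 0) :
    ∑ x ∈ Finset.range M,
      (F x - (∑ h ∈ Finset.Icc (-(H₀ : ℤ)) H₀, F (x - q₀ * h)) / (2 * (H₀ : ℝ) + 1)) ^ 2 =
      (1 / (M : ℝ)) * ∑ k ∈ Finset.range M,
        ‖∑ z ∈ Ω, (φ z : ℂ) * ch M ((k : ℤ) * n z)‖ ^ 2 * ‖1 - psi M q₀ H₀ k‖ ^ 2 := by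
  have hMC : (M : ℂ) ≠ 0 := by exact_mod_cast hM.ne'
  have hMR : (M : ℝ) ≠ 0 := by exact_mod_cast hM.ne'
  have hH : (2 * (H₀ : ℂ) + 1) ≠ 0 := by
    have : ((2 * H₀ + 1 : ℕ) : ℂ) ≠ 0 := Nat.cast_ne_zero.mpr (Nat.succ_ne_zero (2 * H₀))
    push_cast at this
    exact this
  set S : ℕ → ℂ := fun k => ∑ z ∈ Ω, (φ z : ℂ) * ch M ((k : ℤ) * n z) with hS
  -- the Fourier expansion of `F`
  have hF1 : ∀ y : ℤ, (F y : ℂ) = (1 / (M : ℂ)) * ∑ k ∈ Finset.range M, S k * ch M (-((k : ℤ) * y)) := by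
    intro y
    rw [hF y]
    push_cast
    have h1 : ∑ k ∈ Finset.range M, S k * ch M (-((k : ℤ) * y)) =
        ∑ z ∈ Ω, (φ z : ℂ) * ∑ k ∈ Finset.range M, ch M (k * (n z - y)) := by
      simp only [hS, Finset.sum_mul, Finset.mul_sum]
      rw [Finset.sum_comm]
      refine Finset.sum_congr rfl fun z _ => Finset.sum_congr rfl fun k _ => ?_
      have : ch M (k * (n z - y)) = ch M ((k : ℤ) * n z) * ch M (-((k : ℤ) * y)) := by
        rw [← ch_add]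
        congr 1
        ring
      rw [this]
      ring
    rw [h1, Finset.mul_sum]
    refine Finset.sum_congr rfl fun z _ => ?_
    rw [ch_orth M hM]
    split_ifs with hd
    · field_simp
    · simp
  have hG : ∀ x : ℕ, ((F x - (∑ h ∈ Finset.Icc (-(H₀ : ℤ)) H₀, F (x - q₀ * h)) / (2 * (H₀ : ℝ) + 1) : ℝ) : ℂ)
      = (1 / (M : ℂ)) * ∑ k ∈ Finset.range M,
        (S k * (1 - psi M q₀ H₀ k)) * ch M (-((k : ℤ) * x)) := by
    intro x
    push_cast
    have h2 : ∑ h ∈ Finset.Icc (-(H₀ : ℤ)) H₀, (F (x - q₀ * h) : ℂ) =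
        (1 / (M : ℂ)) * ∑ k ∈ Finset.range M, S k * ch M (-((k : ℤ) * x)) *
          ∑ h ∈ Finset.Icc (-(H₀ : ℤ)) H₀, ch M (k * (q₀ * h)) := by
      simp only [hF1, ← Finset.mul_sum]
      congr 1
      rw [Finset.sum_comm]
      refine Finset.sum_congr rfl fun k _ => ?_
      rw [Finset.mul_sum]
      refine Finset.sum_congr rfl fun h _ => ?_
      rw [mul_assoc, ← ch_add]
      congr 2
      ring
    rw [h2, hF1]
    rw [mul_div_assoc, ← mul_sub, Finset.sum_div, ← Finset.sum_sub_distrib]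
    congr 1
    refine Finset.sum_congr rfl fun k _ => ?_
    unfold psi
    ring
  have hsq : ∀ x ∈ Finset.range M,
      (F x - (∑ h ∈ Finset.Icc (-(H₀ : ℤ)) H₀, F (x - q₀ * h)) / (2 * (H₀ : ℝ) + 1)) ^ 2 =
      (1 / (M : ℝ)) ^ 2 * ‖∑ k ∈ Finset.range M,
        (S k * (1 - psi M q₀ H₀ k)) * ch M (-((k : ℤ) * x))‖ ^ 2 := by
    intro x _
    have h3 := congrArg (fun z : ℂ => ‖z‖ ^ 2) (hG x)
    simp only [Complex.norm_real, Real.norm_eq_abs, sq_abs] at h3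
    rw [h3, norm_mul, mul_pow]
    congr 2
    rw [norm_div, norm_one, Complex.norm_natCast]
  rw [Finset.sum_congr rfl hsq, ← Finset.mul_sum, F1_pars M hM]
  have h5 : ∀ k ∈ Finset.range M, ‖S k * (1 - psi M q₀ H₀ k)‖ ^ 2 =
      ‖S k‖ ^ 2 * ‖1 - psi M q₀ H₀ k‖ ^ 2 := by
    intro k _
    rw [norm_mul, mul_pow]
  rw [Finset.sum_congr rfl h5, ← mul_assoc]
  congr 1
  field_simp

/-- Row F1b (SHORT). The case of `FF`, `GG`, `fh`. -/
theorem parseval_FF (A : Finset ℕ) (a r b q₀ H₀ : ℕ) (ha : 1 ≤ a) (hb : 1 ≤ b) :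
    ∑ x ∈ Finset.range (MM a r b), (FF A a r b x - GG A a r b q₀ H₀ x) ^ 2 =
      (1 / ((MM a r b : ℕ) : ℝ)) * ∑ k ∈ Finset.range (MM a r b),
        ‖fh A a r b k‖ ^ 2 * ‖1 - psi (MM a r b) q₀ H₀ k‖ ^ 2 := by
  have hM : 0 < MM a r b := by
    unfold MM
    positivity
  exact parseval (MM a r b) hM (wP A (NN r b)) nz (fun z => Ph r (4 * b) (nz z)) q₀ H₀
    (FF A a r b) (fun x => rfl)

theorem norm_psi_le (M q₀ H₀ : ℕ) (k : ℤ) : ‖psi M q₀ H₀ k‖ ≤ 1 := by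
  have hpos : (0 : ℝ) < 2 * (H₀ : ℝ) + 1 := by positivity
  have hn : ‖(2 * (H₀ : ℂ) + 1)‖ = 2 * (H₀ : ℝ) + 1 := by
    have : (2 * (H₀ : ℂ) + 1) = ((2 * (H₀ : ℝ) + 1 : ℝ) : ℂ) := by push_cast; rfl
    rw [this, Complex.norm_real, Real.norm_eq_abs, abs_of_pos hpos]
  unfold psi
  rw [norm_div, hn, div_le_one hpos]
  refine (norm_sum_le _ _).trans ?_
  simp only [norm_ch, Finset.sum_const, nsmul_eq_mul, mul_one]
  have := F1_card H₀
  have h2 : (((Finset.Icc (-(H₀ : ℤ)) H₀).card : ℤ) : ℝ) = ((2 * H₀ + 1 : ℤ) : ℝ) := by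
    exact_mod_cast this
  push_cast at h2
  rw [h2]

/-- Row F1c (SHORT/MEDIUM). `q k = α M + ρ`, `|ρ| ≤ T q`, `q ∣ q₀`: `k q₀ h / M = (q₀/q) α h + (q₀/q) ρ h / M`,
so `|1 - ch M (k q₀ h)| = |1 - ch M ((q₀/q) ρ h)| ≤ 2π (q₀/q) T q H₀ / M` (`norm_one_sub_ch`). -/
theorem psi_close (M q₀ H₀ T k q : ℕ) (α : ℤ) (hM : 0 < M) (hq : q ∣ q₀) (hq1 : 1 ≤ q)
    (h : |(q : ℤ) * k - α * M| ≤ (T : ℤ) * q) :
    ‖1 - psi M q₀ H₀ k‖ ≤ 2 * Real.pi * T * ((q₀ : ℝ) * H₀) / M := by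
  obtain ⟨d, rfl⟩ := hq
  have hMR : (0 : ℝ) < M := by exact_mod_cast hM
  have hpos : (0 : ℝ) < 2 * (H₀ : ℝ) + 1 := by positivity
  have hH : (2 * (H₀ : ℂ) + 1) ≠ 0 := by
    have : ((2 * H₀ + 1 : ℕ) : ℂ) ≠ 0 := Nat.cast_ne_zero.mpr (Nat.succ_ne_zero (2 * H₀))
    push_cast at this
    exact this
  have hn : ‖(2 * (H₀ : ℂ) + 1)‖ = 2 * (H₀ : ℝ) + 1 := by
    have : (2 * (H₀ : ℂ) + 1) = ((2 * (H₀ : ℝ) + 1 : ℝ) : ℂ) := by push_cast; rfl
    rw [this, Complex.norm_real, Real.norm_eq_abs, abs_of_pos hpos]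
  have hcard : (((Finset.Icc (-(H₀ : ℤ)) H₀).card : ℕ) : ℝ) = 2 * (H₀ : ℝ) + 1 := by
    have := F1_card H₀
    have h2 : (((Finset.Icc (-(H₀ : ℤ)) H₀).card : ℤ) : ℝ) = ((2 * H₀ + 1 : ℤ) : ℝ) := by
      exact_mod_cast this
    push_cast at h2
    exact h2
  have hcardC : (((Finset.Icc (-(H₀ : ℤ)) H₀).card : ℕ) : ℂ) = 2 * (H₀ : ℂ) + 1 := by
    exact_mod_cast hcard
  have e1 : 1 - psi M (q * d) H₀ k =
      (∑ h ∈ Finset.Icc (-(H₀ : ℤ)) H₀, (1 - ch M (k * ((q * d : ℕ) * h)))) / (2 * (H₀ : ℂ) + 1) := by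
    unfold psi
    rw [Finset.sum_sub_distrib, Finset.sum_const, nsmul_eq_mul, mul_one, hcardC, sub_div,
      div_self hH]
  rw [e1, norm_div, hn, div_le_iff₀ hpos]
  refine (norm_sum_le _ _).trans ?_
  have hb : ∀ j ∈ Finset.Icc (-(H₀ : ℤ)) H₀, ‖1 - ch M (k * ((q * d : ℕ) * j))‖ ≤
      2 * Real.pi * T * (((q * d : ℕ) : ℝ) * H₀) / M := by
    intro j hj
    rw [Finset.mem_Icc] at hj
    have e2 : ((k : ℤ) * ((q * d : ℕ) * j)) =
        (d * j * ((q : ℤ) * k - α * M)) + M * (α * d * j) := by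
      push_cast
      ring
    rw [e2, ch_periodic M hM]
    refine (norm_one_sub_ch M hM _).trans ?_
    have h3 : |((d * j * ((q : ℤ) * k - α * M) : ℤ) : ℝ)| ≤ (T : ℝ) * (((q * d : ℕ) : ℝ) * H₀) := by
      have h4 : |(d * j * ((q : ℤ) * k - α * M) : ℤ)| ≤ (T : ℤ) * ((q * d : ℕ) * H₀) := by
        rw [abs_mul, abs_mul, Nat.abs_cast]
        have hjb : |j| ≤ (H₀ : ℤ) := abs_le.mpr ⟨hj.1, hj.2⟩
        calc (d : ℤ) * |j| * |(q : ℤ) * k - α * M| ≤ (d : ℤ) * H₀ * (T * q) := by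
              apply mul_le_mul
              · exact mul_le_mul_of_nonneg_left hjb (by positivity)
              · exact h
              · exact abs_nonneg _
              · positivity
          _ = (T : ℤ) * ((q * d : ℕ) * H₀) := by push_cast; ring
      have h5 : ((|(d * j * ((q : ℤ) * k - α * M) : ℤ)| : ℤ) : ℝ) ≤ (((T : ℤ) * ((q * d : ℕ) * H₀) : ℤ) : ℝ) := by
        exact_mod_cast h4
      rw [Int.cast_abs] at h5
      refine h5.trans (le_of_eq ?_)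
      push_cast
      ring
    apply div_le_div_of_nonneg_right _ hMR.le
    have hpi : (0 : ℝ) ≤ 2 * Real.pi := by positivity
    calc 2 * Real.pi * |((d * j * ((q : ℤ) * k - α * M) : ℤ) : ℝ)|
        ≤ 2 * Real.pi * ((T : ℝ) * (((q * d : ℕ) : ℝ) * H₀)) := mul_le_mul_of_nonneg_left h3 hpi
      _ = 2 * Real.pi * T * (((q * d : ℕ) : ℝ) * H₀) := by ring
  refine (Finset.sum_le_sum hb).trans ?_
  rw [Finset.sum_const, nsmul_eq_mul, hcard]
  rw [mul_comm]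

end Pool.Agent.LibZD69
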