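import Pool.Agent.LibZD69.F1
import Pool.Agent.LibZD69.E9

set_option autoImplicit false

namespace Pool.Agent.LibZD69

open Pool.Agent.LibNZ69

private theorem F3_sq_le (t : ℕ) : t * t ≤ 2 * 2 ^ t := by
  induction t with
  | zero => simp
  | succ n ih =>
    rcases Nat.lt_or_ge n 3 with h | h
    · interval_cases n <;> norm_num
    · have h1 : 2 * n + 1 ≤ n * n := by nlinarith
      calc (n + 1) * (n + 1) = n * n + (2 * n + 1) := by ring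
        _ ≤ n * n + n * n := by omega
        _ ≤ 2 * 2 ^ n + 2 * 2 ^ n := by omega
        _ = 2 * 2 ^ (n + 1) := by ring

/-- the number of the frequencies with a small class -/
private theorem F3_card (M t₀ : ℕ) (hM2 : 2 ≤ M) (I J : ℕ → ℕ) (qf : ℕ → ℕ) (af : ℕ → ℤ)
    (hfr : ∀ k, Fr M 2 (I k) (J k) k (qf k) (af k)) (hM : ∀ k, 2 ^ (2 * (I k + J k)) ≤ M)
    (R : Finset ℕ) (hR : ∀ k ∈ R, k < M) (ht : ∀ k ∈ R, I k + J k < t₀) :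
    R.card ≤ 84 * 8 ^ t₀ := by
  classical
  have h1 : R.card ≤ (42 * 4 ^ t₀) * (R.image (fun k => (I k, J k))).card := by
    refine Finset.card_le_mul_card_image R (42 * 4 ^ t₀) ?_
    rintro ⟨i, j⟩ hp
    rw [Finset.mem_image] at hp
    obtain ⟨k, hk, hkp⟩ := hp
    have hi : I k = i := congrArg Prod.fst hkp
    have hj : J k = j := congrArg Prod.snd hkp
    have hij : i + j < t₀ := by
      have := ht k hk
      omega
    have hMij : 2 ^ (2 * (i + j)) ≤ M := by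
      have := hM k
      rwa [hi, hj] at this
    have hK : 2 ^ (j + 1) ≤ M := by
      rcases Nat.eq_zero_or_pos (i + j) with h0 | h0
      · have hj0 : j = 0 := by omega
        rw [hj0]
        simpa using hM2
      · exact le_trans (Nat.pow_le_pow_right (by norm_num) (by omega)) hMij
    have h2 := card_freq M (2 ^ i) (if j = 0 then 0 else 2 ^ j) (2 ^ (j + 1))
      (Nat.one_le_pow _ _ (by norm_num)) (Nat.one_le_pow _ _ (by norm_num)) hK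
      (R.filter fun x => (I x, J x) = (i, j))
      (fun k hk => hR k (Finset.mem_of_mem_filter k hk)) (fun k hk => by
        rw [Finset.mem_filter] at hk
        have hi' : I k = i := congrArg Prod.fst hk.2
        have hj' : J k = j := congrArg Prod.snd hk.2
        have h3 := fz_of_fr (hfr k)
        rw [hi', hj'] at h3
        exact ⟨_, _, h3⟩)
    refine h2.trans ?_
    have h4 : (2 ^ i) ^ 2 * 2 ^ (j + 1) ≤ 2 * 4 ^ t₀ := by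
      have h5 : (2 ^ i) ^ 2 * 2 ^ (j + 1) = 2 * 2 ^ (i * 2 + j) := by
        rw [← pow_mul, pow_succ 2 j, pow_add]
        ring
      have h6 : (4 : ℕ) ^ t₀ = 2 ^ (2 * t₀) := by
        rw [pow_mul]
        norm_num
      rw [h5, h6]
      exact Nat.mul_le_mul_left 2 (Nat.pow_le_pow_right (by norm_num) (by omega))
    calc 21 * (2 ^ i) ^ 2 * 2 ^ (j + 1) = 21 * ((2 ^ i) ^ 2 * 2 ^ (j + 1)) := by ring
      _ ≤ 21 * (2 * 4 ^ t₀) := Nat.mul_le_mul_left 21 h4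
      _ = 42 * 4 ^ t₀ := by ring
  have h2 : (R.image (fun k => (I k, J k))).card ≤ t₀ * t₀ := by
    have h3 : R.image (fun k => (I k, J k)) ⊆ Finset.range t₀ ×ˢ Finset.range t₀ := by
      intro p hp
      rw [Finset.mem_image] at hp
      obtain ⟨k, hk, rfl⟩ := hp
      have := ht k hk
      rw [Finset.mem_product, Finset.mem_range, Finset.mem_range]
      constructor <;> dsimp only <;> omega
    have h4 := Finset.card_le_card h3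
    rwa [Finset.card_product, Finset.card_range] at h4
  calc R.card ≤ (42 * 4 ^ t₀) * (R.image (fun k => (I k, J k))).card := h1
    _ ≤ (42 * 4 ^ t₀) * (t₀ * t₀) := Nat.mul_le_mul_left _ h2
    _ ≤ (42 * 4 ^ t₀) * (2 * 2 ^ t₀) := Nat.mul_le_mul_left _ (F3_sq_le t₀)
    _ = 84 * (4 ^ t₀ * 2 ^ t₀) := by ring
    _ = 84 * 8 ^ t₀ := by
        rw [← mul_pow]
        norm_num

/-- the kernel for a small class -/
private theorem F3_psi (M t₀ q₀ H₀ k i j q : ℕ) (α : ℤ) (hM : 0 < M) (hfr : Fr M 2 i j k q α)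
    (hij : i + j < t₀) (hq₀ : q₀ = (2 ^ t₀).factorial) (hH₀ : H₀ = M / (2 ^ (3 * t₀) * q₀)) :
    ‖1 - psi M q₀ H₀ k‖ ^ 2 ≤ 40 * ((1 : ℝ) / 16) ^ t₀ := by
  have hq1 : 1 ≤ q := le_trans (Nat.one_le_pow _ _ (by norm_num)) hfr.qlo
  have hq2 : q ≤ 2 ^ t₀ :=
    le_trans hfr.qhi.le (Nat.pow_le_pow_right (by norm_num) (by omega))
  have hqd : q ∣ q₀ := by
    rw [hq₀]
    exact Nat.dvd_factorial hq1 hq2
  have hr : |(q : ℤ) * k - α * M| ≤ ((2 ^ t₀ : ℕ) : ℤ) * q := by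
    refine hfr.rhi.le.trans ?_
    have h1 : (((2 : ℕ) : ℤ)) ^ (j + 1) ≤ ((2 ^ t₀ : ℕ) : ℤ) := by
      have h2 : (2 : ℕ) ^ (j + 1) ≤ 2 ^ t₀ := Nat.pow_le_pow_right (by norm_num) (by omega)
      exact_mod_cast h2
    exact mul_le_mul_of_nonneg_right h1 (Int.natCast_nonneg q)
  have h1 := psi_close M q₀ H₀ (2 ^ t₀) k q α hM hqd hq1 hr
  have hMr : (0 : ℝ) < M := by exact_mod_cast hM
  have hq₀p : 0 < q₀ := by
    rw [hq₀]
    exact Nat.factorial_pos _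
  have h2 : (2 : ℝ) ^ (3 * t₀) * ((q₀ : ℝ) * H₀) ≤ M := by
    have h3 : H₀ * (2 ^ (3 * t₀) * q₀) ≤ M := by
      rw [hH₀]
      exact Nat.div_mul_le_self _ _
    have h4 : ((H₀ * (2 ^ (3 * t₀) * q₀) : ℕ) : ℝ) ≤ M := by exact_mod_cast h3
    push_cast at h4
    linarith [h4, mul_comm (H₀ : ℝ) ((2 : ℝ) ^ (3 * t₀) * q₀),
      mul_assoc ((2 : ℝ) ^ (3 * t₀)) (q₀ : ℝ) (H₀ : ℝ)]
  have h3 : ‖1 - psi M q₀ H₀ k‖ ≤ 2 * Real.pi * ((1 : ℝ) / 4) ^ t₀ := by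
    refine h1.trans ?_
    rw [div_le_iff₀ hMr]
    have hpi := Real.pi_pos
    have h5 : ((2 ^ t₀ : ℕ) : ℝ) * ((q₀ : ℝ) * H₀) ≤ ((1 : ℝ) / 4) ^ t₀ * M := by
      have h6 : ((1 : ℝ) / 4) ^ t₀ * ((2 : ℝ) ^ (3 * t₀) * ((q₀ : ℝ) * H₀)) ≤
          ((1 : ℝ) / 4) ^ t₀ * M := mul_le_mul_of_nonneg_left h2 (by positivity)
      have h7 : ((1 : ℝ) / 4) ^ t₀ * (2 : ℝ) ^ (3 * t₀) = (2 : ℝ) ^ t₀ := by
        rw [pow_mul, ← mul_pow]
        norm_num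
      push_cast
      rw [← h7, mul_assoc]
      exact h6
    calc 2 * Real.pi * ((2 ^ t₀ : ℕ) : ℝ) * ((q₀ : ℝ) * H₀)
        = 2 * Real.pi * (((2 ^ t₀ : ℕ) : ℝ) * ((q₀ : ℝ) * H₀)) := by ring
      _ ≤ 2 * Real.pi * (((1 : ℝ) / 4) ^ t₀ * M) :=
        mul_le_mul_of_nonneg_left h5 (by positivity)
      _ = 2 * Real.pi * ((1 : ℝ) / 4) ^ t₀ * M := by ring
  have h4 : ‖1 - psi M q₀ H₀ k‖ ^ 2 ≤ (2 * Real.pi * ((1 : ℝ) / 4) ^ t₀) ^ 2 :=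
    pow_le_pow_left₀ (norm_nonneg _) h3 2
  refine h4.trans ?_
  have h5 : (2 * Real.pi * ((1 : ℝ) / 4) ^ t₀) ^ 2 = (4 * Real.pi ^ 2) * ((1 : ℝ) / 16) ^ t₀ := by
    rw [mul_pow, ← pow_mul, mul_comm t₀ 2, pow_mul]
    norm_num
    ring
  rw [h5]
  refine mul_le_mul_of_nonneg_right ?_ (by positivity)
  have h6 := Real.pi_lt_d2
  have h7 := Real.pi_pos
  nlinarith

/-- Row F3 (MEDIUM). `parseval_FF`. For each `k < M` take a class (`LibNZ69.exists_class` with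
`B = 2`). The `k` with `i + j ≥ t₀`: `‖1 - psi‖ ≤ 2` and `tail`. The others: `q < 2^(i+1) ≤ 2^t₀`, so
`q ∣ (2^t₀)! = q₀`, `|q k - α M| < 2^(j+1) q ≤ 2^t₀ q`, so by `psi_close` (`q₀ H₀ ≤ M / 2^(3 t₀)`)
`‖1 - psi‖ ≤ 2π 2^(-2 t₀)`; their number is at most `∑_{i+j<t₀} 21 · 4^i 2^(j+1) ≤ 42 t₀² 4^t₀ ≤ C 8^t₀`
(`card_freq`, `fz_of_fr`; `2^(j+1) ≤ M`), and `‖fh k‖² ≤ C M^(2s)` (`fh_le`): together
`≤ C 8^t₀ 40 · 2^(-4 t₀) M^(2s) ≤ C 2^(-t₀) M^(2s)`. `M^(2s) / M = M^(2s-1)`. -/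
theorem l2bound {A : Finset ℕ} {a : ℕ} {s : ℝ} (hp : PB A a s) (r : ℕ) (hr1 : 1 ≤ r)
    (hr : 48 ≤ (r : ℝ) * (2 * s - 3)) :
    ∃ C : ℝ, 1 ≤ C ∧ ∃ b₁ : ℕ, ∀ t₀ b M q₀ H₀ : ℕ, b₁ ≤ b → M = MM a r b →
      q₀ = (2 ^ t₀).factorial → H₀ = M / (2 ^ (3 * t₀) * q₀) →
        ∑ x ∈ Finset.range M, (FF A a r b x - GG A a r b q₀ H₀ x) ^ 2 ≤
          C * (2 : ℝ) ^ (-((2 * s - 3) / 4 * (t₀ : ℝ))) * (M : ℝ) ^ (2 * s - 1) := by
  classical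
  obtain ⟨C1, hC1, b0, htail⟩ := tail hp r hr1 hr
  obtain ⟨C2, hC2, hfh⟩ := fh_le hp
  refine ⟨4 * C1 + 3360 * C2 ^ 2, by nlinarith [sq_nonneg C2], b0 + 1, ?_⟩
  intro t₀ b M q₀ H₀ hb hMe hq₀ hH₀
  have ha1 : 1 ≤ a := le_trans (by norm_num) hp.a4
  have hb1 : 1 ≤ b := by omega
  have hM2 : 2 ≤ M := by
    rw [hMe]
    unfold MM
    have h1 : 1 ≤ a * (r + 3) * b := Nat.one_le_iff_ne_zero.2 (by positivity)
    calc 2 ≤ 20 * (a * (r + 3) * b) := by omega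
      _ = 20 * a * (r + 3) * b := by ring
  have hM0 : 0 < M := by omega
  have hMr : (0 : ℝ) < M := by exact_mod_cast hM0
  choose I J qf af hfr hM1 hM3 using fun k => exists_class M 2 hM0 le_rfl k
  set R1 := (Finset.range M).filter (fun k => t₀ ≤ I k + J k) with hR1
  set R2 := (Finset.range M).filter (fun k => ¬ t₀ ≤ I k + J k) with hR2
  set E : ℝ := (2 : ℝ) ^ (-((2 * s - 3) / 4 * (t₀ : ℝ))) with hE
  set P : ℝ := (M : ℝ) ^ (2 * s) with hP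
  have hP0 : 0 ≤ P := by positivity
  have hE0 : 0 ≤ E := by positivity
  have hpf := parseval_FF A a r b q₀ H₀ ha1 hb1
  rw [← hMe] at hpf
  rw [hpf]
  -- the classes with `t₀ ≤ i + j`
  have hS1 : ∑ k ∈ R1, ‖fh A a r b k‖ ^ 2 * ‖1 - psi M q₀ H₀ k‖ ^ 2 ≤ 4 * (C1 * E * P) := by
    have h1 : ∑ k ∈ R1, ‖fh A a r b k‖ ^ 2 * ‖1 - psi M q₀ H₀ k‖ ^ 2 ≤
        ∑ k ∈ R1, 4 * ‖fh A a r b k‖ ^ 2 := by
      refine Finset.sum_le_sum fun k _ => ?_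
      have h2 : ‖1 - psi M q₀ H₀ k‖ ≤ 2 := by
        calc ‖1 - psi M q₀ H₀ k‖ ≤ ‖(1 : ℂ)‖ + ‖psi M q₀ H₀ k‖ := norm_sub_le _ _
          _ ≤ 1 + 1 := add_le_add (by simp) (norm_psi_le _ _ _ _)
          _ = 2 := by norm_num
      have h3 : ‖1 - psi M q₀ H₀ k‖ ^ 2 ≤ 2 ^ 2 := pow_le_pow_left₀ (norm_nonneg _) h2 2
      calc ‖fh A a r b k‖ ^ 2 * ‖1 - psi M q₀ H₀ k‖ ^ 2
          ≤ ‖fh A a r b k‖ ^ 2 * 2 ^ 2 := mul_le_mul_of_nonneg_left h3 (by positivity)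
        _ = 4 * ‖fh A a r b k‖ ^ 2 := by ring
    refine h1.trans ?_
    rw [← Finset.mul_sum]
    refine mul_le_mul_of_nonneg_left ?_ (by norm_num)
    refine htail b M (by omega) hMe t₀ R1 ?_ ?_
    · intro k hk
      exact Finset.mem_range.1 (Finset.mem_of_mem_filter k hk)
    · intro k hk
      rw [hR1, Finset.mem_filter] at hk
      exact ⟨I k, J k, qf k, af k, hfr k, hM1 k, hM3 k, hk.2⟩
  -- the other classes
  have hcard : R2.card ≤ 84 * 8 ^ t₀ := by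
    refine F3_card M t₀ hM2 I J qf af hfr hM3 R2 ?_ ?_
    · intro k hk
      exact Finset.mem_range.1 (Finset.mem_of_mem_filter k hk)
    · intro k hk
      rw [hR2, Finset.mem_filter] at hk
      exact not_le.1 hk.2
  have hS2 : ∑ k ∈ R2, ‖fh A a r b k‖ ^ 2 * ‖1 - psi M q₀ H₀ k‖ ^ 2 ≤
      3360 * C2 ^ 2 * E * P := by
    have h1 : ∀ k ∈ R2, ‖fh A a r b k‖ ^ 2 * ‖1 - psi M q₀ H₀ k‖ ^ 2 ≤
        (C2 ^ 2 * P) * (40 * ((1 : ℝ) / 16) ^ t₀) := by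
      intro k hk
      rw [hR2, Finset.mem_filter] at hk
      have h2 := hfh r b (k : ℤ)
      rw [← hMe] at h2
      have h3 : ‖fh A a r b k‖ ^ 2 ≤ (C2 * (M : ℝ) ^ s) ^ 2 :=
        pow_le_pow_left₀ (norm_nonneg _) h2 2
      have h4 : (C2 * (M : ℝ) ^ s) ^ 2 = C2 ^ 2 * P := by
        rw [mul_pow, hP, ← Real.rpow_natCast ((M : ℝ) ^ s) 2, ← Real.rpow_mul hMr.le]
        congr 2
        push_cast
        ring
      rw [h4] at h3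
      have h5 := F3_psi M t₀ q₀ H₀ k (I k) (J k) (qf k) (af k) hM0 (hfr k) (not_le.1 hk.2) hq₀ hH₀
      exact mul_le_mul h3 h5 (by positivity) (by positivity)
    have h2 := Finset.sum_le_card_nsmul R2 _ _ h1
    refine h2.trans ?_
    rw [nsmul_eq_mul]
    have h3 : (R2.card : ℝ) ≤ 84 * 8 ^ t₀ := by exact_mod_cast hcard
    have h4 : ((1 : ℝ) / 2) ^ t₀ ≤ E := by
      rw [hE, ← Real.rpow_natCast, one_div, Real.inv_rpow (by norm_num), ← Real.rpow_neg (by norm_num)]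
      refine Real.rpow_le_rpow_of_exponent_le (by norm_num) ?_
      have h5 : (2 * s - 3) / 4 ≤ 1 := by linarith [hp.s2]
      have h6 : (0 : ℝ) ≤ t₀ := Nat.cast_nonneg _
      nlinarith
    calc (R2.card : ℝ) * ((C2 ^ 2 * P) * (40 * ((1 : ℝ) / 16) ^ t₀))
        ≤ (84 * 8 ^ t₀) * ((C2 ^ 2 * P) * (40 * ((1 : ℝ) / 16) ^ t₀)) :=
          mul_le_mul_of_nonneg_right h3 (by positivity)
      _ = 3360 * C2 ^ 2 * (8 ^ t₀ * ((1 : ℝ) / 16) ^ t₀) * P := by ring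
      _ = 3360 * C2 ^ 2 * ((1 : ℝ) / 2) ^ t₀ * P := by
          rw [← mul_pow]
          norm_num
      _ ≤ 3360 * C2 ^ 2 * E * P := by
          refine mul_le_mul_of_nonneg_right ?_ hP0
          exact mul_le_mul_of_nonneg_left h4 (by positivity)
  have hsplit : ∑ k ∈ Finset.range M, ‖fh A a r b k‖ ^ 2 * ‖1 - psi M q₀ H₀ k‖ ^ 2 =
      ∑ k ∈ R1, ‖fh A a r b k‖ ^ 2 * ‖1 - psi M q₀ H₀ k‖ ^ 2 +
      ∑ k ∈ R2, ‖fh A a r b k‖ ^ 2 * ‖1 - psi M q₀ H₀ k‖ ^ 2 := by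
    rw [hR1, hR2]
    exact (Finset.sum_filter_add_sum_filter_not _ _ _).symm
  rw [hsplit]
  have hPM : (M : ℝ) ^ (2 * s - 1) = P / M := by
    rw [hP, Real.rpow_sub_one hMr.ne']
  rw [hPM]
  calc 1 / (M : ℝ) * (∑ k ∈ R1, ‖fh A a r b k‖ ^ 2 * ‖1 - psi M q₀ H₀ k‖ ^ 2 +
      ∑ k ∈ R2, ‖fh A a r b k‖ ^ 2 * ‖1 - psi M q₀ H₀ k‖ ^ 2)
      ≤ 1 / (M : ℝ) * (4 * (C1 * E * P) + 3360 * C2 ^ 2 * E * P) :=
        mul_le_mul_of_nonneg_left (add_le_add hS1 hS2) (by positivity)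
    _ = (4 * C1 + 3360 * C2 ^ 2) * E * (P / M) := by ring

end Pool.Agent.LibZD69
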