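import Pool.Agent.LibZD69.G1
import Pool.Agent.LibZD69.G2

set_option autoImplicit false

namespace Pool.Agent.LibZD69

open Pool.Agent.LibNZ69

/-- the entries of the matrix of a word, modulo `q₀` -/
private def G3_key (q₀ : ℕ) (w : List ℕ) : (ZMod q₀ × ZMod q₀) × (ZMod q₀ × ZMod q₀) :=
  ((((act w (1, 0)).1 : ZMod q₀), ((act w (1, 0)).2 : ZMod q₀)),
    (((act w (0, 1)).1 : ZMod q₀), ((act w (0, 1)).2 : ZMod q₀)))

private theorem G3_act (w : List ℕ) (v : ℤ × ℤ) :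
    act w v = v.1 • act w (1, 0) + v.2 • act w (0, 1) := by
  rw [← act_smul, ← act_smul, ← act_add]
  congr 1
  ext <;> simp

private theorem G3_dvd_iff (q₀ : ℕ) (a b : ℤ) :
    (q₀ : ℤ) ∣ a - b ↔ (a : ZMod q₀) = (b : ZMod q₀) := by
  rw [eq_comm, ZMod.intCast_eq_intCast_iff_dvd_sub]

private theorem G3_cong_iff (q₀ : ℕ) (w w' : List ℕ) :
    cong q₀ w w' ↔ G3_key q₀ w = G3_key q₀ w' := by
  constructor
  · intro h
    have h1 := h (1, 0)
    have h2 := h (0, 1)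
    rw [G3_dvd_iff, G3_dvd_iff] at h1 h2
    unfold G3_key
    rw [h1.1, h1.2, h2.1, h2.2]
  · intro h v
    unfold G3_key at h
    rw [Prod.mk.injEq, Prod.mk.injEq, Prod.mk.injEq] at h
    rw [G3_dvd_iff, G3_dvd_iff, G3_act w v, G3_act w' v]
    simp only [Prod.fst_add, Prod.snd_add, Prod.smul_fst, Prod.smul_snd, smul_eq_mul,
      Int.cast_add, Int.cast_mul]
    rw [h.1.1, h.1.2, h.2.1, h.2.2]
    exact ⟨rfl, rfl⟩

private theorem G3_exists_T (q₀ : ℕ) (hq : 1 ≤ q₀) : ∃ T : Finset (List ℕ), T.Nonempty ∧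
    (∀ h ∈ T, W12 h) ∧ (∀ h ∈ T, ∀ h' ∈ T, cong q₀ h h' → h = h') ∧
    ∀ w, W12 w → ∃ h ∈ T, cong q₀ w h := by
  classical
  have : NeZero q₀ := ⟨by omega⟩
  let P : (ZMod q₀ × ZMod q₀) × (ZMod q₀ × ZMod q₀) → Prop := fun k => ∃ w, W12 w ∧ G3_key q₀ w = k
  let g : (ZMod q₀ × ZMod q₀) × (ZMod q₀ × ZMod q₀) → List ℕ :=
    fun k => if h : P k then h.choose else []
  have hg : ∀ k, P k → W12 (g k) ∧ G3_key q₀ (g k) = k := by
    intro k hk
    have : g k = hk.choose := by simp only [g, dif_pos hk]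
    rw [this]
    exact hk.choose_spec
  refine ⟨(Finset.univ.filter P).image g, ?_, ?_, ?_, ?_⟩
  · refine Finset.Nonempty.image ⟨G3_key q₀ [], ?_⟩ g
    rw [Finset.mem_filter]
    refine ⟨Finset.mem_univ _, [], ?_, rfl⟩
    intro x hx
    simp at hx
  · intro h hh
    rw [Finset.mem_image] at hh
    obtain ⟨k, hk, rfl⟩ := hh
    exact (hg k (Finset.mem_filter.mp hk).2).1
  · intro h hh h' hh' hc
    rw [Finset.mem_image] at hh hh'
    obtain ⟨k, hk, rfl⟩ := hh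
    obtain ⟨k', hk', rfl⟩ := hh'
    rw [G3_cong_iff, (hg k (Finset.mem_filter.mp hk).2).2,
      (hg k' (Finset.mem_filter.mp hk').2).2] at hc
    rw [hc]
  · intro w hw
    have hP : P (G3_key q₀ w) := ⟨w, hw, rfl⟩
    refine ⟨g (G3_key q₀ w), Finset.mem_image_of_mem g (Finset.mem_filter.mpr
      ⟨Finset.mem_univ _, hP⟩), ?_⟩
    rw [G3_cong_iff, (hg _ hP).2]

private theorem G3_W12_append {u w : List ℕ} (hu : W12 u) (hw : W12 w) : W12 (u ++ w) := by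
  intro x hx
  rcases List.mem_append.mp hx with h | h
  · exact hu x h
  · exact hw x h

/-- congruent vectors have congruent images -/
private theorem G3_act_congr (q₀ : ℕ) (w : List ℕ) (x y : ℤ × ℤ)
    (h1 : (q₀ : ℤ) ∣ x.1 - y.1) (h2 : (q₀ : ℤ) ∣ x.2 - y.2) :
    (q₀ : ℤ) ∣ (act w x).1 - (act w y).1 ∧ (q₀ : ℤ) ∣ (act w x).2 - (act w y).2 := by
  rw [G3_dvd_iff] at h1 h2
  rw [G3_dvd_iff, G3_dvd_iff, G3_act w x, G3_act w y]
  simp only [Prod.fst_add, Prod.snd_add, Prod.smul_fst, Prod.smul_snd, smul_eq_mul,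
    Int.cast_add, Int.cast_mul]
  rw [h1, h2]
  exact ⟨rfl, rfl⟩

/-- the residue of a vector -/
private def G3_res (q₀ : ℕ) (v : ℤ × ℤ) : ℕ × ℕ := ((v.1 % (q₀ : ℤ)).toNat, (v.2 % (q₀ : ℤ)).toNat)

private theorem G3_res_lt (q₀ : ℕ) (hq : 1 ≤ q₀) (a : ℤ) : (a % (q₀ : ℤ)).toNat < q₀ := by
  have h1 : 0 ≤ a % (q₀ : ℤ) := Int.emod_nonneg _ (by omega)
  have h2 : a % (q₀ : ℤ) < q₀ := Int.emod_lt_of_pos _ (by omega)
  omega

private theorem G3_res_dvd (q₀ : ℕ) (hq : 1 ≤ q₀) (a : ℤ) :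
    (q₀ : ℤ) ∣ a - ((a % (q₀ : ℤ)).toNat : ℤ) := by
  have h1 : 0 ≤ a % (q₀ : ℤ) := Int.emod_nonneg _ (by omega)
  rw [Int.toNat_of_nonneg h1]
  exact Int.dvd_self_sub_emod

private theorem G3_eq_of_dvd (q₀ : ℕ) (a b : ℕ) (ha : a < q₀) (hb : b < q₀)
    (h : (q₀ : ℤ) ∣ (a : ℤ) - (b : ℤ)) : a = b := by
  have h1 : (a : ℤ) % q₀ = (b : ℤ) % q₀ := Int.emod_eq_emod_iff_emod_sub_eq_zero.mpr
    (Int.emod_eq_zero_of_dvd h)
  rw [Int.emod_eq_of_lt (by omega) (by omega), Int.emod_eq_of_lt (by omega) (by omega)] at h1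
  omega

private theorem G3_primitive (q₀ : ℕ) (hq : 1 ≤ q₀) (v : ℤ × ℤ) (h : IsCoprime v.1 v.2) :
    Nat.gcd (Nat.gcd (G3_res q₀ v).1 (G3_res q₀ v).2) q₀ = 1 := by
  set d := Nat.gcd (Nat.gcd (G3_res q₀ v).1 (G3_res q₀ v).2) q₀ with hd
  have hdq : (d : ℤ) ∣ (q₀ : ℤ) := Int.natCast_dvd_natCast.mpr (Nat.gcd_dvd_right _ _)
  have h12 : d ∣ Nat.gcd (G3_res q₀ v).1 (G3_res q₀ v).2 := Nat.gcd_dvd_left _ _
  have h1 : (d : ℤ) ∣ v.1 := by
    have e1 : (d : ℤ) ∣ (((v.1 % (q₀ : ℤ)).toNat : ℕ) : ℤ) :=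
      Int.natCast_dvd_natCast.mpr (h12.trans (Nat.gcd_dvd_left _ _))
    have e2 := hdq.trans (G3_res_dvd q₀ hq v.1)
    have := dvd_add e2 e1
    simpa using this
  have h2 : (d : ℤ) ∣ v.2 := by
    have e1 : (d : ℤ) ∣ (((v.2 % (q₀ : ℤ)).toNat : ℕ) : ℤ) :=
      Int.natCast_dvd_natCast.mpr (h12.trans (Nat.gcd_dvd_right _ _))
    have e2 := hdq.trans (G3_res_dvd q₀ hq v.2)
    have := dvd_add e2 e1
    simpa using this
  have h3 : IsUnit (d : ℤ) := h.isUnit_of_dvd' h1 h2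
  have h4 := Int.isUnit_iff_natAbs_eq.mp h3
  simpa using h4

/-- `N(p) ≤ N(p')` -/
private theorem G3_le (q₀ : ℕ) (hq : 1 ≤ q₀) (T : Finset (List ℕ)) (hT : ∀ h ∈ T, W12 h)
    (hT1 : ∀ h ∈ T, ∀ h' ∈ T, cong q₀ h h' → h = h')
    (hT2 : ∀ w, W12 w → ∃ h ∈ T, cong q₀ w h) (s : ℤ × ℤ) (p p' : ℕ × ℕ)
    (hp : Nat.gcd (Nat.gcd p.1 p.2) q₀ = 1) (hp' : Nat.gcd (Nat.gcd p'.1 p'.2) q₀ = 1)
    (hl1 : p'.1 < q₀) (hl2 : p'.2 < q₀) :
    (T.filter (fun h => G3_res q₀ (act h s) = p)).card ≤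
      (T.filter (fun h => G3_res q₀ (act h s) = p')).card := by
  classical
  obtain ⟨w, hw, hw1, hw2⟩ := transitive q₀ hq ((p.1 : ℤ), (p.2 : ℤ)) ((p'.1 : ℤ), (p'.2 : ℤ))
    (by simpa [Int.gcd_natCast_natCast] using hp) (by simpa [Int.gcd_natCast_natCast] using hp')
  obtain ⟨w', hw', -, hinv⟩ := exists_inv q₀ hq w hw
  choose! f hf1 hf2 using hT2
  refine Finset.card_le_card_of_injOn (fun h => f (w ++ h)) ?_ ?_
  · intro h hh
    rw [Finset.mem_coe, Finset.mem_filter] at hh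
    have hW := G3_W12_append hw (hT h hh.1)
    rw [Finset.mem_coe, Finset.mem_filter]
    refine ⟨hf1 _ hW, ?_⟩
    have hc := hf2 _ hW s
    rw [act_append] at hc
    have hr1 := G3_res_dvd q₀ hq (act h s).1
    have hr2 := G3_res_dvd q₀ hq (act h s).2
    have e1 : (act h s).1 % (q₀ : ℤ) = (act h s).1 % (q₀ : ℤ) := rfl
    have hp1 : ((act h s).1 % (q₀ : ℤ)).toNat = p.1 := congrArg Prod.fst hh.2
    have hp2 : ((act h s).2 % (q₀ : ℤ)).toNat = p.2 := congrArg Prod.snd hh.2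
    rw [hp1] at hr1
    rw [hp2] at hr2
    have ha := G3_act_congr q₀ w (act h s) ((p.1 : ℤ), (p.2 : ℤ)) hr1 hr2
    set z := act (f (w ++ h)) s with hz
    have k1 : (q₀ : ℤ) ∣ z.1 - (p'.1 : ℤ) := by
      have e := dvd_add (dvd_add (dvd_neg.mpr hc.1) ha.1) hw1
      have e' : -((act w (act h s)).1 - z.1) + ((act w (act h s)).1 -
          (act w ((p.1 : ℤ), (p.2 : ℤ))).1) + ((act w ((p.1 : ℤ), (p.2 : ℤ))).1 - (p'.1 : ℤ)) =
          z.1 - (p'.1 : ℤ) := by ring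
      rw [e'] at e
      exact e
    have k2 : (q₀ : ℤ) ∣ z.2 - (p'.2 : ℤ) := by
      have e := dvd_add (dvd_add (dvd_neg.mpr hc.2) ha.2) hw2
      have e' : -((act w (act h s)).2 - z.2) + ((act w (act h s)).2 -
          (act w ((p.1 : ℤ), (p.2 : ℤ))).2) + ((act w ((p.1 : ℤ), (p.2 : ℤ))).2 - (p'.2 : ℤ)) =
          z.2 - (p'.2 : ℤ) := by ring
      rw [e'] at e
      exact e
    have m1 := G3_res_dvd q₀ hq z.1
    have m2 := G3_res_dvd q₀ hq z.2
    have n1 : ((z.1 % (q₀ : ℤ)).toNat) = p'.1 := by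
      refine G3_eq_of_dvd q₀ _ _ (G3_res_lt q₀ hq _) hl1 ?_
      have e := dvd_add (dvd_neg.mpr m1) k1
      have e' : -(z.1 - ((z.1 % (q₀ : ℤ)).toNat : ℤ)) + (z.1 - (p'.1 : ℤ)) =
          ((z.1 % (q₀ : ℤ)).toNat : ℤ) - (p'.1 : ℤ) := by ring
      rw [e'] at e
      exact e
    have n2 : ((z.2 % (q₀ : ℤ)).toNat) = p'.2 := by
      refine G3_eq_of_dvd q₀ _ _ (G3_res_lt q₀ hq _) hl2 ?_
      have e := dvd_add (dvd_neg.mpr m2) k2
      have e' : -(z.2 - ((z.2 % (q₀ : ℤ)).toNat : ℤ)) + (z.2 - (p'.2 : ℤ)) =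
          ((z.2 % (q₀ : ℤ)).toNat : ℤ) - (p'.2 : ℤ) := by ring
      rw [e'] at e
      exact e
    exact Prod.ext n1 n2
  · intro h hh h' hh' he
    rw [Finset.mem_coe, Finset.mem_filter] at hh hh'
    have hW := G3_W12_append hw (hT h hh.1)
    have hW' := G3_W12_append hw (hT h' hh'.1)
    have he' : f (w ++ h) = f (w ++ h') := he
    have c1 := hf2 _ hW
    have c2 := hf2 _ hW'
    rw [← he'] at c2
    have c3 : cong q₀ (w ++ h) (w ++ h') := cong_trans c1 (cong_symm c2)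
    have c4 : cong q₀ (w' ++ (w ++ h)) (w' ++ (w ++ h')) := cong_append (cong_refl q₀ w') c3
    rw [← List.append_assoc, ← List.append_assoc] at c4
    have c5 : cong q₀ ((w' ++ w) ++ h) ([] ++ h) := cong_append hinv (cong_refl q₀ h)
    have c6 : cong q₀ ((w' ++ w) ++ h') ([] ++ h') := cong_append hinv (cong_refl q₀ h')
    rw [List.nil_append] at c5 c6
    exact hT1 h hh.1 h' hh'.1 (cong_trans (cong_symm c5) (cong_trans c4 c6))

/-- Row G3 (MEDIUM). Uniform families. The words in `1, 2` fall into finitely many classes of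
`cong q₀` (determined by the entries modulo `q₀`); let `T` contain one word of each class. For `s`
coprime and a class `p` of primitive vectors modulo `q₀` let `N(p) = #{h ∈ T : act h s ≡ p}`. For primitive
`p, p'` let `w` map `p` to `p'` (`transitive`); `h ↦` (the element of `T` congruent to `w ++ h`) is a
bijection of `T` (`exists_inv`) and shows `N(p) ≤ N(p')`; so `N` is constant on the primitive classes,
whose number is `≤ q₀²`, and every `act h s` is primitive; so `N ≥ #T / q₀²`. With `line_count`: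
`#{h : ⟨r, act h s⟩ ≡ n} ≥ (#T / q₀²) (q₀ φ(n) / n)`. -/
theorem uni (q₀ : ℕ) (hq : 1 ≤ q₀) : ∃ T : Finset (List ℕ), T.Nonempty ∧ (∀ h ∈ T, W12 h) ∧
    (∀ h ∈ T, ∀ h' ∈ T, cong q₀ h h' → h = h') ∧
    ∀ r s : ℤ × ℤ, IsCoprime r.1 r.2 → IsCoprime s.1 s.2 → ∀ n : ℕ, 1 ≤ n →
      (T.card : ℝ) * n.totient ≤ (q₀ : ℝ) * n *
        ((T.filter (fun h => (q₀ : ℤ) ∣ dt r (act h s) - (n : ℤ))).card : ℝ) := by
  classical
  obtain ⟨T, hne, hT, hT1, hT2⟩ := G3_exists_T q₀ hq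
  refine ⟨T, hne, hT, hT1, ?_⟩
  intro r s hr hs n hn
  have hline := line_count q₀ hq r hr n hn
  set P := (Finset.range q₀ ×ˢ Finset.range q₀).filter
    (fun p : ℕ × ℕ => Nat.gcd (Nat.gcd p.1 p.2) q₀ = 1) with hPdef
  set Ln := (Finset.range q₀ ×ˢ Finset.range q₀).filter (fun p : ℕ × ℕ =>
      Nat.gcd (Nat.gcd p.1 p.2) q₀ = 1 ∧
        (q₀ : ℤ) ∣ dt r ((p.1 : ℤ), (p.2 : ℤ)) - (n : ℤ)) with hLdef
  set N : ℕ × ℕ → ℕ := fun p => (T.filter (fun h => G3_res q₀ (act h s) = p)).card with hN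
  set X := (T.filter (fun h => (q₀ : ℤ) ∣ dt r (act h s) - (n : ℤ))).card with hX
  have hmem : ∀ h ∈ T, G3_res q₀ (act h s) ∈ P := by
    intro h hh
    rw [hPdef, Finset.mem_filter, Finset.mem_product, Finset.mem_range, Finset.mem_range]
    exact ⟨⟨G3_res_lt q₀ hq _, G3_res_lt q₀ hq _⟩,
      G3_primitive q₀ hq _ (coprime_act h s hs)⟩
  have hTc : T.card = ∑ p ∈ P, N p := Finset.card_eq_sum_card_fiberwise hmem
  have hPc : P.card ≤ q₀ * q₀ := by
    refine (Finset.card_filter_le _ _).trans ?_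
    rw [Finset.card_product, Finset.card_range]
  have hLX : ∑ p ∈ Ln, N p ≤ X := by
    have e1 : ∑ p ∈ Ln, N p = (T.filter (fun h => G3_res q₀ (act h s) ∈ Ln)).card := by
      have e0 := Finset.card_eq_sum_card_fiberwise (f := fun h => G3_res q₀ (act h s))
        (s := T.filter (fun h => G3_res q₀ (act h s) ∈ Ln)) (t := Ln)
        (fun h hh => (Finset.mem_filter.mp hh).2)
      rw [e0]
      refine Finset.sum_congr rfl ?_
      intro p hp
      simp only [hN]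
      refine congrArg Finset.card ?_
      ext h
      simp only [Finset.mem_filter]
      constructor
      · intro e
        exact ⟨⟨e.1, by rw [e.2]; exact hp⟩, e.2⟩
      · intro e
        exact ⟨e.1.1, e.2⟩
    rw [e1, hX]
    refine Finset.card_le_card ?_
    intro h hh
    rw [Finset.mem_filter] at hh ⊢
    refine ⟨hh.1, ?_⟩
    have h2 := (Finset.mem_filter.mp hh.2).2.2
    have r1 := G3_res_dvd q₀ hq (act h s).1
    have r2 := G3_res_dvd q₀ hq (act h s).2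
    have e := dvd_add (dvd_add (Dvd.dvd.mul_left r1 r.1) (Dvd.dvd.mul_left r2 r.2)) h2
    have e' : r.1 * ((act h s).1 - (((act h s).1 % (q₀ : ℤ)).toNat : ℤ)) +
        r.2 * ((act h s).2 - (((act h s).2 % (q₀ : ℤ)).toNat : ℤ)) +
        (dt r (((G3_res q₀ (act h s)).1 : ℤ), ((G3_res q₀ (act h s)).2 : ℤ)) - (n : ℤ)) =
        dt r (act h s) - (n : ℤ) := by
      simp only [dt, G3_res]
      ring
    rw [e'] at e
    exact e
  have hLP : ∀ p ∈ Ln, p.1 < q₀ ∧ p.2 < q₀ ∧ Nat.gcd (Nat.gcd p.1 p.2) q₀ = 1 := by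
    intro p hp
    rw [hLdef, Finset.mem_filter, Finset.mem_product, Finset.mem_range, Finset.mem_range] at hp
    exact ⟨hp.1.1, hp.1.2, hp.2.1⟩
  have hmain : Ln.card * T.card ≤ q₀ * q₀ * X := by
    calc Ln.card * T.card = ∑ p' ∈ Ln, ∑ p ∈ P, N p := by
          rw [Finset.sum_const, smul_eq_mul, ← hTc]
      _ ≤ ∑ p' ∈ Ln, ∑ p ∈ P, N p' := by
          refine Finset.sum_le_sum fun p' hp' => Finset.sum_le_sum fun p hp => ?_
          have h1 := hLP p' hp'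
          exact G3_le q₀ hq T hT hT1 hT2 s p p' (Finset.mem_filter.mp hp).2 h1.2.2 h1.1 h1.2.1
      _ = P.card * ∑ p' ∈ Ln, N p' := by
          rw [Finset.mul_sum]
          refine Finset.sum_congr rfl fun p' _ => ?_
          rw [Finset.sum_const, smul_eq_mul]
      _ ≤ q₀ * q₀ * X := Nat.mul_le_mul hPc hLX
  have hfin : q₀ * (T.card * n.totient) ≤ q₀ * (q₀ * n * X) := by
    calc q₀ * (T.card * n.totient) = (q₀ * n.totient) * T.card := by ring
      _ ≤ (n * Ln.card) * T.card := Nat.mul_le_mul_right _ hline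
      _ = n * (Ln.card * T.card) := by ring
      _ ≤ n * (q₀ * q₀ * X) := Nat.mul_le_mul_left _ hmain
      _ = q₀ * (q₀ * n * X) := by ring
  have hfin' : T.card * n.totient ≤ q₀ * n * X := Nat.le_of_mul_le_mul_left hfin (by omega)
  exact_mod_cast hfin'

end Pool.Agent.LibZD69
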