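import Mathlib

set_option autoImplicit false

namespace Pool.Agent.LibZD69

open scoped Classical in
/-- One step: `f(n) ≤ f(R b) + #(S ∩ [R b, 2 R b))` with `b = n / (2 R) + 1`. -/
private theorem I2_step (S : Set ℕ) (R n : ℕ) (hR : 1 ≤ R) :
    ((Finset.range n).filter (fun x => x ∈ S)).card ≤
      ((Finset.range (R * (n / (2 * R) + 1))).filter (fun x => x ∈ S)).card +
      ((Finset.Ico (R * (n / (2 * R) + 1)) (2 * (R * (n / (2 * R) + 1)))).filter
        (fun x => x ∈ S)).card := by
  have h1 : n < 2 * (R * (n / (2 * R) + 1)) := by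
    have := Nat.lt_div_mul_add (a := n) (b := 2 * R) (by omega)
    calc n < n / (2 * R) * (2 * R) + 2 * R := this
      _ = 2 * (R * (n / (2 * R) + 1)) := by ring
  refine le_trans (Finset.card_le_card ?_) (Finset.card_union_le _ _)
  intro x hx
  simp only [Finset.mem_union, Finset.mem_filter, Finset.mem_range, Finset.mem_Ico] at hx ⊢
  by_cases hxx : x < R * (n / (2 * R) + 1)
  · exact Or.inl ⟨hxx, hx.2⟩
  · exact Or.inr ⟨⟨by omega, by omega⟩, hx.2⟩

open scoped Classical in
/-- Row I2 (MEDIUM, independent). From dyadic windows to density. Let `R ≥ 1`, and suppose that for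
every `η > 0` for all large `b` the window `[R b, 2 R b)` contains at most `η b` elements of `S`. Then
`#{x ≤ N : x ∈ S} ≤ ε N` for all large `N`. Proof: let `f(N) = #(S ∩ [0, N])`. For `N ≥ 2 R b₀` put
`b = ⌈(N+1)/(2R)⌉`…, so that `[R b, N]` is in the window and `R b - 1 ≤ N/2 + R`: `f(N) ≤ f(N/2 + R) + η b`. Iterate
(strong induction: `f(N) ≤ 2 η N + K` for a constant `K`). -/
theorem density_of_windows (S : Set ℕ) (R : ℕ) (hR : 1 ≤ R)
    (h : ∀ η : ℝ, 0 < η → ∃ b₀ : ℕ, ∀ b : ℕ, b₀ ≤ b →
      (((Finset.Ico (R * b) (2 * (R * b))).filter (fun x => x ∈ S)).card : ℝ) ≤ η * b)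
    (ε : ℝ) (hε : 0 < ε) : ∃ N₀ : ℕ, ∀ N : ℕ, N₀ ≤ N →
      (((Finset.range (N + 1)).filter (fun x => x ∈ S)).card : ℝ) ≤ ε * N := by
  obtain ⟨b₀, hb₀⟩ := h (ε / 8) (by positivity)
  set n₀ : ℕ := 4 * R * (b₀ + 1) with hn₀
  have hR' : (1 : ℝ) ≤ R := by exact_mod_cast hR
  have key : ∀ n : ℕ, (((Finset.range n).filter (fun x => x ∈ S)).card : ℝ) ≤
      ε / 2 * n + n₀ := by
    intro n
    induction n using Nat.strong_induction_on with
    | _ n ih =>
      by_cases hn : n < n₀
      · have h1 : ((Finset.range n).filter (fun x => x ∈ S)).card ≤ n := by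
          have := Finset.card_filter_le (Finset.range n) (fun x => x ∈ S)
          simpa using this
        have h2 : (((Finset.range n).filter (fun x => x ∈ S)).card : ℝ) ≤ n := by
          exact_mod_cast h1
        have h3 : (n : ℝ) ≤ n₀ := by exact_mod_cast hn.le
        have h4 : 0 ≤ ε / 2 * (n : ℝ) := by positivity
        linarith
      · have hn' : n₀ ≤ n := not_lt.mp hn
        have h4R : 4 * R ≤ n := by
          refine le_trans ?_ hn'
          rw [hn₀]
          exact Nat.le_mul_of_pos_right _ (Nat.succ_pos _)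
        set b : ℕ := n / (2 * R) + 1 with hb
        have hbb : b₀ ≤ b := by
          have h5 : b₀ ≤ n / (2 * R) := by
            rw [Nat.le_div_iff_mul_le (by omega)]
            refine le_trans ?_ hn'
            rw [hn₀]
            nlinarith
          omega
        have hdiv : n / (2 * R) * (2 * R) ≤ n := Nat.div_mul_le_self _ _
        have hRb : 2 * (R * b) ≤ n + 2 * R := by
          rw [hb]
          calc 2 * (R * (n / (2 * R) + 1)) = n / (2 * R) * (2 * R) + 2 * R := by ring
            _ ≤ n + 2 * R := by omega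
        have hlt : R * b < n := by omega
        have hih := ih (R * b) hlt
        have hst := I2_step S R n hR
        rw [← hb] at hst
        have hwin := hb₀ b hbb
        have hst' : (((Finset.range n).filter (fun x => x ∈ S)).card : ℝ) ≤
            (((Finset.range (R * b)).filter (fun x => x ∈ S)).card : ℝ) +
            (((Finset.Ico (R * b) (2 * (R * b))).filter (fun x => x ∈ S)).card : ℝ) := by
          exact_mod_cast hst
        have hRb' : 2 * ((R : ℝ) * b) ≤ n + 2 * R := by exact_mod_cast hRb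
        have h4R' : 4 * (R : ℝ) ≤ n := by exact_mod_cast h4R
        have hcast : ((R * b : ℕ) : ℝ) = (R : ℝ) * b := by push_cast; ring
        rw [hcast] at hih
        have hbR : (b : ℝ) ≤ (R : ℝ) * b := by
          have : (0 : ℝ) ≤ b := Nat.cast_nonneg b
          nlinarith
        nlinarith
  obtain ⟨N₁, hN₁⟩ := exists_nat_gt (1 + 2 * (n₀ : ℝ) / ε)
  refine ⟨N₁, fun N hN => ?_⟩
  have h1 := key (N + 1)
  have h2 : (N₁ : ℝ) ≤ N := by exact_mod_cast hN
  have h3 : 1 + 2 * (n₀ : ℝ) / ε ≤ N := by linarith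
  have h4 : ε / 2 * (1 + 2 * (n₀ : ℝ) / ε) ≤ ε / 2 * N :=
    mul_le_mul_of_nonneg_left h3 (by positivity)
  have h5 : ε / 2 * (1 + 2 * (n₀ : ℝ) / ε) = ε / 2 + n₀ := by
    field_simp
  rw [h5] at h4
  push_cast at h1
  linarith

end Pool.Agent.LibZD69
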