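import Pool.Agent.LibZD69.B1
import Pool.Agent.LibNW69.SEP

set_option autoImplicit false

namespace Pool.Agent.LibZD69

open Pool.Agent.LibNZ69

private theorem I4_low (r t y : ℝ) (hr : 0 < r) (ht : 0 < t) (h : t ^ 11 ≤ r ^ 17)
    (hy : r ≤ y) : t ≤ y ^ (17 / 11 : ℝ) := by
  have h2 : (t ^ 11) ^ (1 / 11 : ℝ) ≤ (r ^ 17) ^ (1 / 11 : ℝ) :=
    Real.rpow_le_rpow (by positivity) h (by norm_num)
  have h3 : (t ^ 11) ^ (1 / 11 : ℝ) = t := by
    rw [← Real.rpow_natCast, ← Real.rpow_mul ht.le]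
    norm_num
  have h4 : (r ^ 17) ^ (1 / 11 : ℝ) = r ^ (17 / 11 : ℝ) := by
    rw [← Real.rpow_natCast, ← Real.rpow_mul hr.le]
    norm_num
  rw [h3, h4] at h2
  exact h2.trans (Real.rpow_le_rpow hr.le hy (by norm_num))

private theorem I4_piece (x u v r1 r2 r3 r4 t1 t2 t3 t4 : ℝ) (hu : u ≤ x) (hv : x ≤ v)
    (hx0 : 0 ≤ x) (hr1 : 0 < r1) (hr2 : 0 < r2) (hr3 : 0 < r3) (hr4 : 0 < r4)
    (ht1 : 0 < t1) (ht2 : 0 < t2) (ht3 : 0 < t3) (ht4 : 0 < t4)
    (h1 : t1 ^ 11 ≤ r1 ^ 17) (h2 : t2 ^ 11 ≤ r2 ^ 17) (h3 : t3 ^ 11 ≤ r3 ^ 17)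
    (h4 : t4 ^ 11 ≤ r4 ^ 17)
    (m1 : 1 ≤ 2 * r1) (m2 : 2 * r2 ≤ 1) (m3 : 2 * r3 ≤ 1) (m4 : 2 * r4 ≤ 1)
    (b1 : r1 * (3 + 2 * v) ≤ 2 + v) (b2 : r2 * (5 + 2 * u) ≤ 2 + u)
    (b3 : r3 * (7 + 2 * u) ≤ 2 + u) (b4 : r4 * (9 + 2 * u) ≤ 2 + u)
    (hs : 1 ≤ t1 + t2 + t3 + t4) :
    1 ≤ ((2 + x) / (3 + 2 * x)) ^ (17 / 11 : ℝ) + ((2 + x) / (5 + 2 * x)) ^ (17 / 11 : ℝ) +
      ((2 + x) / (7 + 2 * x)) ^ (17 / 11 : ℝ) + ((2 + x) / (9 + 2 * x)) ^ (17 / 11 : ℝ) := by
  have k1 : r1 ≤ (2 + x) / (3 + 2 * x) := by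
    rw [le_div_iff₀ (by linarith)]; nlinarith
  have k2 : r2 ≤ (2 + x) / (5 + 2 * x) := by
    rw [le_div_iff₀ (by linarith)]; nlinarith
  have k3 : r3 ≤ (2 + x) / (7 + 2 * x) := by
    rw [le_div_iff₀ (by linarith)]; nlinarith
  have k4 : r4 ≤ (2 + x) / (9 + 2 * x) := by
    rw [le_div_iff₀ (by linarith)]; nlinarith
  have e1 := I4_low r1 t1 _ hr1 ht1 h1 k1
  have e2 := I4_low r2 t2 _ hr2 ht2 h2 k2
  have e3 := I4_low r3 t3 _ hr3 ht3 h3 k3
  have e4 := I4_low r4 t4 _ hr4 ht4 h4 k4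
  linarith

private theorem I4_all (x : ℝ) (h1 : 1 / 5 ≤ x) (h2 : x ≤ 5 / 6) :
    1 ≤ ((2 + x) / (3 + 2 * x)) ^ (17 / 11 : ℝ) + ((2 + x) / (5 + 2 * x)) ^ (17 / 11 : ℝ) +
      ((2 + x) / (7 + 2 * x)) ^ (17 / 11 : ℝ) + ((2 + x) / (9 + 2 * x)) ^ (17 / 11 : ℝ) := by
  rcases le_or_gt x (7/25) with c0 | c0
  · exact I4_piece x (1/5) (7/25) (57/89) (11/27) (11/37) (11/47) (251/500) (249/1000) (153/1000) (21/200)
      (by linarith) (by linarith) (by linarith)
      (by norm_num) (by norm_num) (by norm_num) (by norm_num) (by norm_num) (by norm_num)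
      (by norm_num) (by norm_num) (by norm_num) (by norm_num) (by norm_num) (by norm_num)
      (by norm_num) (by norm_num) (by norm_num) (by norm_num) (by norm_num) (by norm_num)
      (by norm_num) (by norm_num) (by norm_num)
  rcases le_or_gt x (9/25) with c1 | c1
  · exact I4_piece x (7/25) (9/25) (59/93) (57/139) (19/63) (57/239) (247/500) (63/250) (39/250) (109/1000)
      (by linarith) (by linarith) (by linarith)
      (by norm_num) (by norm_num) (by norm_num) (by norm_num) (by norm_num) (by norm_num)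
      (by norm_num) (by norm_num) (by norm_num) (by norm_num) (by norm_num) (by norm_num)
      (by norm_num) (by norm_num) (by norm_num) (by norm_num) (by norm_num) (by norm_num)
      (by norm_num) (by norm_num) (by norm_num)
  rcases le_or_gt x (11/25) with c2 | c2
  · exact I4_piece x (9/25) (11/25) (61/97) (59/143) (59/193) (59/243) (61/125) (127/500) (4/25) (14/125)
      (by linarith) (by linarith) (by linarith)
      (by norm_num) (by norm_num) (by norm_num) (by norm_num) (by norm_num) (by norm_num)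
      (by norm_num) (by norm_num) (by norm_num) (by norm_num) (by norm_num) (by norm_num)
      (by norm_num) (by norm_num) (by norm_num) (by norm_num) (by norm_num) (by norm_num)
      (by norm_num) (by norm_num) (by norm_num)
  rcases le_or_gt x (13/25) with c3 | c3
  · exact I4_piece x (11/25) (13/25) (63/101) (61/147) (61/197) (61/247) (241/500) (32/125) (163/1000) (23/200)
      (by linarith) (by linarith) (by linarith)
      (by norm_num) (by norm_num) (by norm_num) (by norm_num) (by norm_num) (by norm_num)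
      (by norm_num) (by norm_num) (by norm_num) (by norm_num) (by norm_num) (by norm_num)
      (by norm_num) (by norm_num) (by norm_num) (by norm_num) (by norm_num) (by norm_num)
      (by norm_num) (by norm_num) (by norm_num)
  rcases le_or_gt x (3/5) with c4 | c4
  · exact I4_piece x (13/25) (3/5) (13/21) (63/151) (21/67) (63/251) (119/250) (129/500) (83/500) (59/500)
      (by linarith) (by linarith) (by linarith)
      (by norm_num) (by norm_num) (by norm_num) (by norm_num) (by norm_num) (by norm_num)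
      (by norm_num) (by norm_num) (by norm_num) (by norm_num) (by norm_num) (by norm_num)
      (by norm_num) (by norm_num) (by norm_num) (by norm_num) (by norm_num) (by norm_num)
      (by norm_num) (by norm_num) (by norm_num)
  rcases le_or_gt x (17/25) with c5 | c5
  · exact I4_piece x (3/5) (17/25) (67/109) (13/31) (13/41) (13/51) (471/1000) (261/1000) (169/1000) (3/25)
      (by linarith) (by linarith) (by linarith)
      (by norm_num) (by norm_num) (by norm_num) (by norm_num) (by norm_num) (by norm_num)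
      (by norm_num) (by norm_num) (by norm_num) (by norm_num) (by norm_num) (by norm_num)
      (by norm_num) (by norm_num) (by norm_num) (by norm_num) (by norm_num) (by norm_num)
      (by norm_num) (by norm_num) (by norm_num)
  rcases le_or_gt x (19/25) with c6 | c6
  · exact I4_piece x (17/25) (19/25) (69/113) (67/159) (67/209) (67/259) (233/500) (263/1000) (43/250) (123/1000)
      (by linarith) (by linarith) (by linarith)
      (by norm_num) (by norm_num) (by norm_num) (by norm_num) (by norm_num) (by norm_num)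
      (by norm_num) (by norm_num) (by norm_num) (by norm_num) (by norm_num) (by norm_num)
      (by norm_num) (by norm_num) (by norm_num) (by norm_num) (by norm_num) (by norm_num)
      (by norm_num) (by norm_num) (by norm_num)
  exact I4_piece x (19/25) (5/6) (17/28) (69/163) (23/71) (69/263) (231/500) (33/125) (7/40) (63/500)
      (by linarith) (by linarith) (by linarith)
      (by norm_num) (by norm_num) (by norm_num) (by norm_num) (by norm_num) (by norm_num)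
      (by norm_num) (by norm_num) (by norm_num) (by norm_num) (by norm_num) (by norm_num)
      (by norm_num) (by norm_num) (by norm_num) (by norm_num) (by norm_num) (by norm_num)
      (by norm_num) (by norm_num) (by norm_num)

/-- Row I4a (SHORT/MEDIUM, numerical; compare `LibNW69/E1.lean`). Equivalent to
`F(x) = ∑_{k=1}^4 ρ_k(x)^(17/11) ≥ 1`, `ρ_k(x) = (1 + x/2) / (k + x + 1/2)`, for `x ∈ [1/5, 5/6]`; the minimum is
about 1.016. `ρ_1` is decreasing for... (check), each `ρ_k` is monotone; cut `[1/5, 5/6]` into 8 equal intervals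
(then the piecewise bound with the smaller end value of each `ρ_k` is `≥ 1.011`) and use rational lower
bounds `t ≤ ρ^(17/11)`, which follow from `t^11 ≤ ρ^17` (norm_num). -/
theorem cert4_ineq (x : ℝ) (h1 : 1 / 5 ≤ x) (h2 : x ≤ 5 / 6) :
    (1 + x / 2) ^ (-(17 / 11) : ℝ) ≤ (3 / 2 + x) ^ (-(17 / 11) : ℝ) +
      (5 / 2 + x) ^ (-(17 / 11) : ℝ) + (7 / 2 + x) ^ (-(17 / 11) : ℝ) +
      (9 / 2 + x) ^ (-(17 / 11) : ℝ) := by
  have h := I4_all x h1 h2
  have hp : 0 < 1 + x / 2 := by linarith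
  have key : ∀ c : ℝ, 0 < c → (c / 2 + x) ^ (-(17 / 11) : ℝ) =
      (1 + x / 2) ^ (-(17 / 11) : ℝ) * ((2 + x) / (c + 2 * x)) ^ (17 / 11 : ℝ) := by
    intro c hc
    have hc' : 0 < c / 2 + x := by linarith
    have h3 : (2 + x) / (c + 2 * x) = (1 + x / 2) / (c / 2 + x) := by
      rw [div_eq_div_iff (by linarith) (by linarith)]
      ring
    rw [h3, Real.div_rpow hp.le hc'.le, Real.rpow_neg hp.le, Real.rpow_neg hc'.le]
    have h4 : (1 + x / 2) ^ (17 / 11 : ℝ) ≠ 0 := (Real.rpow_pos_of_pos hp _).ne'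
    field_simp
  rw [key 3 (by norm_num), key 5 (by norm_num), key 7 (by norm_num), key 9 (by norm_num),
    ← mul_add, ← mul_add, ← mul_add]
  exact le_mul_of_one_le_right (Real.rpow_nonneg hp.le _) h

private noncomputable def I4_phi (X : ℤ × ℤ) : ℝ := ((X.2 : ℝ) + X.1 / 2) ^ (-(17 / 11) : ℝ)

private theorem I4_step (X : ℤ × ℤ) (h : Pool.Agent.LibNW69.Good 5 X) :
    I4_phi X ≤ I4_phi (gl 1 X) + I4_phi (gl 2 X) + I4_phi (gl 3 X) + I4_phi (gl 4 X) := by
  obtain ⟨h0, h1, h2⟩ := h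
  have y0 : (0 : ℝ) < X.2 := by exact_mod_cast h0
  have y1 : (X.2 : ℝ) ≤ 5 * X.1 := by exact_mod_cast h1
  have y2 : 6 * (X.1 : ℝ) ≤ 5 * X.2 := by
    have : ((5 : ℕ) + 1 : ℤ) * X.1 ≤ (5 : ℕ) * X.2 := h2
    push_cast at this
    have h3 : (6 : ℤ) * X.1 ≤ 5 * X.2 := by linarith
    exact_mod_cast h3
  have hx1 : 1 / 5 ≤ (X.1 : ℝ) / X.2 := by
    rw [le_div_iff₀ y0]; linarith
  have hx2 : (X.1 : ℝ) / X.2 ≤ 5 / 6 := by
    rw [div_le_iff₀ y0]; linarith
  have hc := cert4_ineq _ hx1 hx2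
  have hm : ∀ c : ℝ, 0 < c → ∀ t : ℝ, t = X.2 * c →
      t ^ (-(17 / 11) : ℝ) = (X.2 : ℝ) ^ (-(17 / 11) : ℝ) * c ^ (-(17 / 11) : ℝ) := by
    intro c hc t ht
    rw [ht, Real.mul_rpow y0.le hc.le]
  have hxp : 0 < (X.1 : ℝ) / X.2 := by linarith
  have e0 : I4_phi X = (X.2 : ℝ) ^ (-(17 / 11) : ℝ) *
      (1 + (X.1 : ℝ) / X.2 / 2) ^ (-(17 / 11) : ℝ) := by
    refine hm _ (by linarith) _ ?_
    field_simp
  have e1 : I4_phi (gl 1 X) = (X.2 : ℝ) ^ (-(17 / 11) : ℝ) *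
      (3 / 2 + (X.1 : ℝ) / X.2) ^ (-(17 / 11) : ℝ) := by
    refine hm _ (by linarith) _ ?_
    simp only [gl]; push_cast; field_simp; ring
  have e2 : I4_phi (gl 2 X) = (X.2 : ℝ) ^ (-(17 / 11) : ℝ) *
      (5 / 2 + (X.1 : ℝ) / X.2) ^ (-(17 / 11) : ℝ) := by
    refine hm _ (by linarith) _ ?_
    simp only [gl]; push_cast; field_simp; ring
  have e3 : I4_phi (gl 3 X) = (X.2 : ℝ) ^ (-(17 / 11) : ℝ) *
      (7 / 2 + (X.1 : ℝ) / X.2) ^ (-(17 / 11) : ℝ) := by
    refine hm _ (by linarith) _ ?_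
    simp only [gl]; push_cast; field_simp; ring
  have e4 : I4_phi (gl 4 X) = (X.2 : ℝ) ^ (-(17 / 11) : ℝ) *
      (9 / 2 + (X.1 : ℝ) / X.2) ^ (-(17 / 11) : ℝ) := by
    refine hm _ (by linarith) _ ?_
    simp only [gl]; push_cast; field_simp; ring
  rw [e0, e1, e2, e3, e4, ← mul_add, ← mul_add, ← mul_add]
  exact mul_le_mul_of_nonneg_left hc (Real.rpow_nonneg y0.le _)

private theorem I4_sum (l : ℕ) (f : List ℕ → ℝ) :
    ∑ w ∈ wd (Pool.Agent.LibNW69.letters {1, 2, 3, 4}) (l + 1), f w =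
      ∑ w ∈ wd (Pool.Agent.LibNW69.letters {1, 2, 3, 4}) l,
        (f (1 :: w) + f (2 :: w) + f (3 :: w) + f (4 :: w)) := by
  rw [wl_sum_succ, Finset.sum_comm]
  refine Finset.sum_congr rfl fun w _ => ?_
  rw [Finset.sum_insert (by decide), Finset.sum_insert (by decide),
    Finset.sum_insert (by decide), Finset.sum_singleton]
  ring

private theorem I4_dig (l : ℕ) (w : List ℕ)
    (hw : w ∈ wd (Pool.Agent.LibNW69.letters {1, 2, 3, 4}) l) : ∀ x ∈ w, 1 ≤ x ∧ x < 5 := by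
  intro x hx
  have h := ((Pool.Agent.LibNW69.mem_wd_letters _ _ _).1 hw).2 x hx
  fin_cases h <;> norm_num

private theorem I4_ind (l : ℕ) (X : ℤ × ℤ) (h : Pool.Agent.LibNW69.Good 5 X) :
    I4_phi X ≤ ∑ w ∈ wd (Pool.Agent.LibNW69.letters {1, 2, 3, 4}) l, I4_phi (act w X) := by
  induction l with
  | zero => simp [wd, act]
  | succ l ih =>
    rw [I4_sum l (fun w => I4_phi (act w X))]
    refine ih.trans (Finset.sum_le_sum fun w hw => ?_)
    exact I4_step _ (Pool.Agent.LibNW69.good_act 5 w (I4_dig l w hw) X h).1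

private theorem I4_pos (w : List ℕ) (hw : ∀ x ∈ w, 1 ≤ x) :
    2 * (kk w : ℤ) ≤ (act w (1, 2)).2 ∧ 2 * ((con w).2 : ℤ) ≤ (act w (1, 2)).1 := by
  induction w with
  | nil => simp [act, kk, con]
  | cons x w ih =>
    obtain ⟨a1, a2⟩ := ih fun y hy => hw y (List.mem_cons_of_mem _ hy)
    have hx : (0 : ℤ) ≤ x := Int.natCast_nonneg x
    rw [kk_cons, con_cons_snd]
    simp only [act, gl]
    push_cast
    refine ⟨?_, a1⟩
    nlinarith

/-- Row I4b (MEDIUM; compare `LibNW69/E4.lean`, finished, the case of `{1, 2, 3}`). With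
`Φ(x, y) = (y + x/2)^(-17/11)`, `cert4_ineq` gives `Φ(X) ≤ ∑_k Φ(gl k X)` for good `X` (ratio in `[1/5, 5/6]`,
`Good 5`), so `∑_w Φ(act w (1,2)) ≥ Φ(1, 2)` by induction, and `Φ(act w (1,2)) ≤ (2 kk w)^(-17/11)`. -/
theorem cert4 : ∃ c : ℝ, 0 < c ∧ ∀ l : ℕ, c ≤ ZZ {1, 2, 3, 4} (17 / 11) l := by
  refine ⟨(4 / 5 : ℝ) ^ (17 / 11 : ℝ), by positivity, fun l => ?_⟩
  have h1 := I4_ind l (1, 2) (by refine ⟨?_, ?_, ?_⟩ <;> norm_num)
  have h2 : ∀ w ∈ wd (Pool.Agent.LibNW69.letters {1, 2, 3, 4}) l,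
      I4_phi (act w (1, 2)) ≤ (2 : ℝ) ^ (-(17 / 11) : ℝ) * (kk w : ℝ) ^ (-(17 / 11) : ℝ) := by
    intro w hw
    have hw1 : ∀ x ∈ w, 1 ≤ x := fun x hx => (I4_dig l w hw x hx).1
    obtain ⟨a1, a2⟩ := I4_pos w hw1
    have b1 : 2 * (kk w : ℝ) ≤ ((act w (1, 2)).2 : ℝ) := by exact_mod_cast a1
    have b2 : 2 * ((con w).2 : ℝ) ≤ ((act w (1, 2)).1 : ℝ) := by exact_mod_cast a2
    have b3 : (0 : ℝ) ≤ ((con w).2 : ℝ) := Nat.cast_nonneg _
    have b4 : (1 : ℝ) ≤ (kk w : ℝ) := by exact_mod_cast kk_pos w hw1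
    rw [← Real.mul_rpow (by norm_num) (by linarith)]
    unfold I4_phi
    exact Real.rpow_le_rpow_of_nonpos (by linarith) (by linarith) (by norm_num)
  have h3 : I4_phi (1, 2) = (5 / 2 : ℝ) ^ (-(17 / 11) : ℝ) := by
    unfold I4_phi
    norm_num
  have h4 : (5 / 2 : ℝ) ^ (-(17 / 11) : ℝ) ≤ (2 : ℝ) ^ (-(17 / 11) : ℝ) * ZZ {1, 2, 3, 4} (17 / 11) l := by
    rw [← h3]
    refine h1.trans ?_
    unfold ZZ
    rw [Finset.mul_sum]
    exact Finset.sum_le_sum h2
  have h5 : (4 / 5 : ℝ) ^ (17 / 11 : ℝ) * (2 : ℝ) ^ (-(17 / 11) : ℝ) =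
      (5 / 2 : ℝ) ^ (-(17 / 11) : ℝ) := by
    rw [Real.rpow_neg (by norm_num), Real.rpow_neg (by norm_num), ← Real.inv_rpow (by norm_num),
      ← Real.inv_rpow (by norm_num), ← Real.mul_rpow (by norm_num) (by norm_num)]
    norm_num
  have h6 : (0 : ℝ) < (2 : ℝ) ^ (-(17 / 11) : ℝ) := by positivity
  refine le_of_mul_le_mul_right ?_ h6
  rw [h5, mul_comm (ZZ _ _ _)]
  exact h4

end Pool.Agent.LibZD69
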