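import Pool.Agent.LibZD69.I1
import Pool.Agent.LibZD69.I2
import Pool.Agent.LibZD69.I3
import Pool.Agent.LibZD69.I4
import Pool.Agent.LibZD69.B3
import Pool.Agent.LibNW69.H2

set_option autoImplicit false

namespace Pool.Agent.LibZD69

open Pool.Agent.LibNZ69 Filter Topology

open scoped Classical in
private theorem I5_count {A : Finset ℕ} {a : ℕ} {s : ℝ} (hp : PB A a s) (ε : ℝ) (hε : 0 < ε) :
    ∃ N₀ : ℕ, ∀ N : ℕ, N₀ ≤ N →
      (((Finset.range (N + 1)).filter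
        (fun x => ¬ x ∈ Pool.Agent.LibNW69.D A)).card : ℝ) ≤ ε * N := by
  obtain ⟨r, hr⟩ := window hp
  obtain ⟨S, hS⟩ : ∃ S : Set ℕ, ∀ x : ℕ, x ∈ S ↔ ¬ ∃ z : List ℕ, WA A z ∧ nz z = (x : ℤ) :=
    ⟨{x : ℕ | ¬ ∃ z : List ℕ, WA A z ∧ nz z = (x : ℤ)}, fun x => Iff.rfl⟩
  obtain ⟨N₀, hN⟩ := density_of_windows S (5 + r)
    (by omega) (fun η hη => by
      obtain ⟨b₀, hb⟩ := hr η hη
      refine ⟨b₀, fun b hb0 => ?_⟩
      have h1 := hb b hb0
      refine le_trans (le_of_eq ?_) h1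
      have h2 : ((Finset.Ico ((5 + r) * b) (2 * ((5 + r) * b))).filter (fun x => x ∈ S)) =
          ((Finset.Ico ((5 + r) * b) (2 * ((5 + r) * b))).filter
            (fun x : ℕ => ¬ ∃ z : List ℕ, WA A z ∧ nz z = (x : ℤ))) :=
        Finset.filter_congr fun x _ => hS x
      rw [h2]) ε hε
  refine ⟨N₀, fun N hN0 => ?_⟩
  refine le_trans (Nat.cast_le.2 (Finset.card_le_card ?_)) (hN N hN0)
  intro x hx
  rw [Finset.mem_filter] at hx ⊢
  refine ⟨hx.1, (hS x).2 ?_⟩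
  rintro ⟨z, hz, hz2⟩
  exact hx.2 (mem_D A (fun y hy => (hp.dig y hy).1) hp.two z hz x hz2)

/-- Row I5a (SHORT/MEDIUM). `window`, `density_of_windows` with `R = 5 + r` and
`S = {x : ¬ ∃ z, WA A z ∧ nz z = x}`, `mem_D`: the number of the `d ≤ N` not in `D A` is `≤ ε N`. -/
theorem main_PB {A : Finset ℕ} {a : ℕ} {s : ℝ} (hp : PB A a s) :
    Tendsto (fun N : ℕ => (({d : ℕ | d ∈ Pool.Agent.LibNW69.D A ∧ d ≤ N}.ncard : ℝ)) / N) atTop
      (𝓝 1) := by
  classical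
  rw [Metric.tendsto_atTop]
  intro ε hε
  obtain ⟨N₀, hN⟩ := I5_count hp (ε / 2) (by positivity)
  obtain ⟨N₁, hN₁⟩ := exists_nat_gt (2 / ε)
  refine ⟨max N₀ (N₁ + 1), fun N hN0 => ?_⟩
  have h1 : N₀ ≤ N := le_trans (le_max_left _ _) hN0
  have h2 : N₁ + 1 ≤ N := le_trans (le_max_right _ _) hN0
  have hNpos : (0 : ℝ) < (N : ℝ) := by
    have : 0 < N := by omega
    exact_mod_cast this
  have hNε : 2 / ε < (N : ℝ) := by
    have h3 : (N₁ : ℝ) ≤ (N : ℝ) := by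
      have : N₁ ≤ N := by omega
      exact_mod_cast this
    linarith
  have hset : {d : ℕ | d ∈ Pool.Agent.LibNW69.D A ∧ d ≤ N} =
      (((Finset.range (N + 1)).filter (fun x => x ∈ Pool.Agent.LibNW69.D A) : Finset ℕ) :
        Set ℕ) := by
    ext x
    simp only [Set.mem_ofPred_eq, Finset.coe_filter, Finset.mem_range, Nat.lt_succ_iff]
    exact and_comm
  rw [hset, Set.ncard_coe_finset]
  have hadd : ((Finset.range (N + 1)).filter (fun x => x ∈ Pool.Agent.LibNW69.D A)).card +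
      ((Finset.range (N + 1)).filter (fun x => ¬ x ∈ Pool.Agent.LibNW69.D A)).card = N + 1 := by
    rw [Finset.card_filter_add_card_filter_not, Finset.card_range]
  have h3 := hN N h1
  set P : ℝ := (((Finset.range (N + 1)).filter
    (fun x => x ∈ Pool.Agent.LibNW69.D A)).card : ℝ) with hP
  set Q : ℝ := (((Finset.range (N + 1)).filter
    (fun x => ¬ x ∈ Pool.Agent.LibNW69.D A)).card : ℝ) with hQ
  have hadd' : P + Q = N + 1 := by
    rw [hP, hQ]
    exact_mod_cast hadd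
  have hQ0 : 0 ≤ Q := Nat.cast_nonneg _
  have h4 : 1 < ε / 2 * N := by
    rw [div_lt_iff₀ hε] at hNε
    linarith
  have h5 : P / N - 1 = (P - N) / N := by
    field_simp
  rw [Real.dist_eq, h5, abs_div, abs_of_pos hNpos, div_lt_iff₀ hNpos, abs_lt]
  constructor <;> nlinarith

/-- Row I5b (SHORT). `cert_of_dimH` for some `σ > 3/2` with `σ/2 < dimH`, `act01`, `exists_PB` with
`a = max 4 (sup A + 1)`. -/
theorem main_dim (A : Finset ℕ) (hA : ∀ x ∈ A, 1 ≤ x) (h1 : 1 ∈ A) (h2 : 2 ∈ A)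
    (hd : 3 / 4 < dimH (Pool.Agent.LibNW69.E A)) :
    Tendsto (fun N : ℕ => (({d : ℕ | d ∈ Pool.Agent.LibNW69.D A ∧ d ≤ N}.ncard : ℝ)) / N) atTop
      (𝓝 1) := by
  obtain ⟨q, hq1, hq2⟩ := ENNReal.lt_iff_exists_nnreal_btwn.1 hd
  have hq3 : (3 / 4 : ℝ) < (q : ℝ) := by
    have h3 : ((3 / 4 : NNReal) : ENNReal) < (q : ENNReal) := by
      refine lt_of_eq_of_lt ?_ hq1
      rw [ENNReal.coe_div (by norm_num)]
      norm_num
    have h4 : (3 / 4 : NNReal) < q := by exact_mod_cast h3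
    have h5 : ((3 / 4 : NNReal) : ℝ) < (q : ℝ) := by exact_mod_cast h4
    have h6 : ((3 / 4 : NNReal) : ℝ) = 3 / 4 := by push_cast; rfl
    linarith
  obtain ⟨c, hc0, hc⟩ := Pool.Agent.LibNW69.cert_of_dimH A hA (2 * (q : ℝ)) (by linarith) (by
    have h3 : 2 * (q : ℝ) / 2 = (q : ℝ) := by ring
    rw [h3, ENNReal.ofReal_coe_nnreal]
    exact hq2)
  obtain ⟨s, hs⟩ := exists_PB A (max 4 (A.sup id + 1)) h1 h2 (fun x hx => by
      refine ⟨hA x hx, ?_⟩
      have h3 : id x ≤ A.sup id := Finset.le_sup hx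
      have h4 : x ≤ A.sup id := h3
      have h5 := le_max_right 4 (A.sup id + 1)
      omega) (le_max_left _ _) (2 * (q : ℝ)) c (by linarith) hc0 (fun l => by
      refine le_trans (hc l) (le_of_eq ?_)
      unfold ZZ
      refine Finset.sum_congr rfl fun w _ => ?_
      rw [act01]
      push_cast
      rfl)
  exact main_PB hs

/-- Row I5c (SHORT). `cert4`, `exists_PB` with `a = 5`, `σ = 17/11`. -/
theorem main_four :
    Tendsto (fun N : ℕ =>
      (({d : ℕ | d ∈ Pool.Agent.LibNW69.D {1, 2, 3, 4} ∧ d ≤ N}.ncard : ℝ)) / N) atTop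
      (𝓝 1) := by
  obtain ⟨c, hc0, hc⟩ := cert4
  obtain ⟨s, hs⟩ := exists_PB {1, 2, 3, 4} 5 (by simp) (by simp) (fun x hx => by
      simp only [Finset.mem_insert, Finset.mem_singleton] at hx
      omega) (by norm_num) (17 / 11) c (by norm_num) hc0 hc
  exact main_PB hs

end Pool.Agent.LibZD69
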