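import Pool.Agent.LibZD69.I1

set_option autoImplicit false

namespace Pool.Agent.LibZD69

open Pool.Agent.LibNZ69

open scoped Classical in
private theorem J1_FF_le {A : Finset ℕ} {a : ℕ} {s : ℝ} (hp : PB A a s) (r b x : ℕ)
    (hxM : x < MM a r b) :
    FF A a r b x ≤ (((wP A x).filter (fun z => nz z = (x : ℤ))).card : ℝ) := by
  have hA : ∀ y ∈ A, 1 ≤ y := fun y hy => (hp.dig y hy).1
  have h1 : FF A a r b x ≤ ∑ z ∈ wP A (NN r b), if nz z = (x : ℤ) then (1 : ℝ) else 0 := by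
    unfold FF
    refine Finset.sum_le_sum fun z hz => ?_
    have hz' := (mem_wP hA _ _).1 hz
    have hz1 : ∀ y ∈ z, 1 ≤ y := fun y hy => hA y (hz'.1 y hy)
    have hb := nz_bounds z hz1
    by_cases hd : ((MM a r b : ℕ) : ℤ) ∣ nz z - (x : ℤ)
    · have hNM : 9 * NN r b ≤ MM a r b := by
        unfold NN MM
        have ha := hp.a4
        calc 9 * (4 * (r + 3) * b) ≤ 20 * 4 * (r + 3) * b := by nlinarith [Nat.zero_le ((r + 3) * b)]
          _ ≤ 20 * a * (r + 3) * b := by gcongr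
      have h2 : nz z < (MM a r b : ℕ) := by
        rcases Nat.eq_zero_or_pos (MM a r b) with h0 | h0
        · omega
        · rcases Nat.eq_zero_or_pos b with hb0 | hb0
          · exfalso
            rw [hb0] at h0
            simp [MM] at h0
          · have h3 : 9 * NN r b < MM a r b := by
              unfold NN MM
              have ha := hp.a4
              have hpos : 0 < (r + 3) * b := by positivity
              calc 9 * (4 * (r + 3) * b) < 20 * 4 * (r + 3) * b := by nlinarith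
                _ ≤ 20 * a * (r + 3) * b := by gcongr
            have h4 : kk z ≤ NN r b := hz'.2
            have h5 : 9 * kk z < MM a r b := by omega
            have h6 : (9 * (kk z : ℤ)) < (MM a r b : ℕ) := by exact_mod_cast h5
            omega
      have h3 : 0 ≤ nz z := by
        have := hb.1
        have h0 : (0 : ℤ) ≤ kk z := by positivity
        omega
      have h4 : nz z = (x : ℤ) := by
        obtain ⟨m, hm⟩ := hd
        have hx' : (x : ℤ) < (MM a r b : ℕ) := by exact_mod_cast hxM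
        have hx0 : (0 : ℤ) ≤ x := by positivity
        have hm1 : m < 1 := by
          by_contra hcon
          push Not at hcon
          have : ((MM a r b : ℕ) : ℤ) * 1 ≤ (MM a r b : ℕ) * m :=
            mul_le_mul_of_nonneg_left hcon (by positivity)
          omega
        have hm2 : -1 < m := by
          by_contra hcon
          push Not at hcon
          have : ((MM a r b : ℕ) : ℤ) * m ≤ (MM a r b : ℕ) * (-1) :=
            mul_le_mul_of_nonneg_left hcon (by positivity)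
          omega
        have hm0 : m = 0 := by omega
        rw [hm0, mul_zero] at hm
        omega
      rw [if_pos hd, if_pos h4]
      exact Ph_le_one _ _ _
    · rw [if_neg hd]
      split_ifs
      · exact zero_le_one
      · exact le_refl _
  refine h1.trans ?_
  rw [Finset.sum_ite, Finset.sum_const_zero, add_zero, Finset.sum_const, nsmul_eq_mul, mul_one]
  have h2 : ((wP A (NN r b)).filter (fun z => nz z = (x : ℤ))) ⊆
      ((wP A x).filter (fun z => nz z = (x : ℤ))) := by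
    intro z hz
    rw [Finset.mem_filter] at hz ⊢
    have hz' := (mem_wP hA _ _).1 hz.1
    have hz1 : ∀ y ∈ z, 1 ≤ y := fun y hy => hA y (hz'.1 y hy)
    have hb := nz_bounds z hz1
    refine ⟨(mem_wP hA _ _).2 ⟨hz'.1, ?_⟩, hz.2⟩
    have h3 := hb.1
    rw [hz.2] at h3
    omega
  exact_mod_cast Finset.card_le_card h2

private theorem J1_cheb (F : ℕ → ℝ) (M : ℕ) (g B : ℝ) (hg : 0 < g)
    (h : ∑ x ∈ Finset.range M, F x ^ 2 ≤ B) (S : Finset ℕ) (hS : ∀ x ∈ S, x < M ∧ g ^ 2 ≤ F x ^ 2) :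
    (S.card : ℝ) ≤ B / g ^ 2 := by
  rw [le_div_iff₀ (by positivity)]
  have h1 : S ⊆ Finset.range M := fun x hx => Finset.mem_range.2 (hS x hx).1
  calc (S.card : ℝ) * g ^ 2 = ∑ _x ∈ S, g ^ 2 := by rw [Finset.sum_const, nsmul_eq_mul]
    _ ≤ ∑ x ∈ S, F x ^ 2 := Finset.sum_le_sum fun x hx => (hS x hx).2
    _ ≤ ∑ x ∈ Finset.range M, F x ^ 2 :=
        Finset.sum_le_sum_of_subset_of_nonneg h1 fun x _ _ => sq_nonneg _
    _ ≤ B := h

open scoped Classical in
/-- Row J1 (MEDIUM). The window with the number of the representations. As `window` (row I1b): for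
`x` in the window with `φ(x)/x ≥ κ₁` we have `GG x ≥ c₀ κ₁ M^(s-1) =: 2 g` (`GG_lower`). Either
`FF x ≥ g`, and then `#{z ∈ wP A x : nz z = x} ≥ FF x ≥ g ≥ c x^(s-1)` (`Ph ≤ 1`; in `FF x` only the `z` with
`nz z = x` contribute because `nz z ≤ 9 kk z ≤ 9 NN < M`, `x < M`; and `4 kk z ≤ nz z = x`), or
`(FF x - GG x)² ≥ g²`: by `l2bound` there are at most `C 2^(-(2s-3)/4 t₀) M^(2s-1) / g²` such `x`. The `x` with
`φ(x)/x < κ₁`: `totient_small`. Given `η` choose `κ₁`, then `t₀`, then `c`, `b₀`. -/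
theorem window2 {A : Finset ℕ} {a : ℕ} {s : ℝ} (hp : PB A a s) :
    ∃ r : ℕ, ∀ η : ℝ, 0 < η → ∃ c : ℝ, 0 < c ∧ ∃ b₀ : ℕ, ∀ b : ℕ, b₀ ≤ b →
      (((Finset.Ico ((5 + r) * b) (2 * ((5 + r) * b))).filter (fun x : ℕ =>
        (((wP A x).filter (fun z => nz z = (x : ℤ))).card : ℝ) < c * (x : ℝ) ^ (s - 1))).card : ℝ)
        ≤ η * b := by
  have hδ : 0 < 2 * s - 3 := by have := hp.s1; linarith
  obtain ⟨r₁, hr₁⟩ := exists_nat_gt (48 / (2 * s - 3))
  set r : ℕ := max 3 r₁ with hr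
  have hr3 : 3 ≤ r := le_max_left _ _
  have hr48 : 48 ≤ (r : ℝ) * (2 * s - 3) := by
    have h1 : (r₁ : ℝ) ≤ r := by exact_mod_cast le_max_right 3 r₁
    have h2 : 48 < (r₁ : ℝ) * (2 * s - 3) := (div_lt_iff₀ hδ).1 hr₁
    nlinarith
  obtain ⟨c0, hc0, t₁, hG⟩ := GG_lower hp r hr3
  obtain ⟨C, hC, b₁, hL⟩ := l2bound hp r (by omega) hr48
  refine ⟨r, fun η hη => ?_⟩
  obtain ⟨κ, hκ, hT⟩ := totient_small (η / (4 * (5 + r))) (by positivity)
  have hm1 : (0 : ℝ) < 20 * a * (r + 3) := by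
    have : (4 : ℝ) ≤ a := by exact_mod_cast hp.a4
    positivity
  -- choice of `t₀`
  have hD : 0 < 4 * C / (c0 * κ) ^ 2 * (20 * a * (r + 3)) := by positivity
  have hlim : Filter.Tendsto (fun t : ℕ => (2 : ℝ) ^ (-((2 * s - 3) / 4 * (t : ℝ))))
      Filter.atTop (nhds 0) := by
    have h1 : ∀ t : ℕ, (2 : ℝ) ^ (-((2 * s - 3) / 4 * (t : ℝ))) =
        ((2 : ℝ) ^ (-((2 * s - 3) / 4))) ^ t := by
      intro t
      rw [← Real.rpow_natCast, ← Real.rpow_mul (by norm_num)]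
      congr 1
      ring
    simp_rw [h1]
    refine tendsto_pow_atTop_nhds_zero_of_lt_one (by positivity) ?_
    exact Real.rpow_lt_one_of_one_lt_of_neg (by norm_num) (by linarith)
  have hev := hlim.eventually (gt_mem_nhds (show (0 : ℝ) <
    η / 2 / (4 * C / (c0 * κ) ^ 2 * (20 * a * (r + 3))) by positivity))
  obtain ⟨t₀, ht₀1, ht₀⟩ := (hev.and (Filter.eventually_ge_atTop t₁)).exists
  obtain ⟨b₂, hG2⟩ := hG t₀ ht₀
  refine ⟨c0 * κ / 2, by positivity, max (max b₁ b₂) 1, fun b hb => ?_⟩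
  have hb1 : b₁ ≤ b := le_trans (le_trans (le_max_left _ _) (le_max_left _ _)) hb
  have hb2 : b₂ ≤ b := le_trans (le_trans (le_max_right _ _) (le_max_left _ _)) hb
  have hb0 : 1 ≤ b := le_trans (le_max_right _ _) hb
  have hbR : (1 : ℝ) ≤ b := by exact_mod_cast hb0
  set M : ℕ := MM a r b with hM
  set q₀ : ℕ := (2 ^ t₀).factorial with hq₀
  set H₀ : ℕ := M / (2 ^ (3 * t₀) * q₀) with hH₀
  have hMR : (M : ℝ) = 20 * a * (r + 3) * b := by
    rw [hM, MM]
    push_cast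
    ring
  have hMpos : (0 : ℝ) < M := by rw [hMR]; positivity
  have hL2 := hL t₀ b M q₀ H₀ hb1 hM hq₀ hH₀
  have hG3 := hG2 b M q₀ H₀ hb2 hM hq₀ hH₀
  have hs1 : 0 < s - 1 := by have := hp.s1; linarith
  have hMs : 0 < (M : ℝ) ^ (s - 1) := Real.rpow_pos_of_pos hMpos _
  have hWM : 2 * ((5 + r) * b) ≤ M := by
    rw [hM, MM]
    have ha := hp.a4
    calc 2 * ((5 + r) * b) ≤ 20 * 4 * (r + 3) * b := by nlinarith [Nat.zero_le (r * b)]
      _ ≤ 20 * a * (r + 3) * b := by gcongr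
  set g : ℝ := c0 * κ / 2 * (M : ℝ) ^ (s - 1) with hg
  have hgpos : 0 < g := by positivity
  set N : ℕ := 2 * ((5 + r) * b) with hN
  let S1 : Finset ℕ := (Finset.range (N + 1)).filter
    (fun n : ℕ => 1 ≤ n ∧ ((n.totient : ℝ) / n) < κ)
  let S2 : Finset ℕ := (Finset.range M).filter
    (fun x : ℕ => g ^ 2 ≤ (FF A a r b x - GG A a r b q₀ H₀ x) ^ 2)
  have hsub : ((Finset.Ico ((5 + r) * b) N).filter (fun x : ℕ =>
        (((wP A x).filter (fun z => nz z = (x : ℤ))).card : ℝ) <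
          c0 * κ / 2 * (x : ℝ) ^ (s - 1))) ⊆ S1 ∪ S2 := by
    intro x hx
    rw [Finset.mem_filter, Finset.mem_Ico] at hx
    obtain ⟨⟨hx1, hx2⟩, hx3⟩ := hx
    have hx0 : 1 ≤ x := le_trans (Nat.one_le_iff_ne_zero.2 (by positivity)) hx1
    by_cases hφ : ((x.totient : ℝ) / x) < κ
    · exact Finset.mem_union_left _ (Finset.mem_filter.2
        ⟨Finset.mem_range.2 (by omega), hx0, hφ⟩)
    · push Not at hφ
      have hxM : x < M := lt_of_lt_of_le hx2 hWM
      refine Finset.mem_union_right _ (Finset.mem_filter.2 ⟨Finset.mem_range.2 hxM, ?_⟩)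
      have h1 := hG3 x hx1 hx2
      have h2 := J1_FF_le hp r b x hxM
      have h3 : (x : ℝ) ^ (s - 1) ≤ (M : ℝ) ^ (s - 1) :=
        Real.rpow_le_rpow (by positivity) (by exact_mod_cast hxM.le) hs1.le
      have h4 : c0 * κ / 2 * (x : ℝ) ^ (s - 1) ≤ g := by
        rw [hg]
        exact mul_le_mul_of_nonneg_left h3 (by positivity)
      have h5 : 2 * g ≤ GG A a r b q₀ H₀ x := by
        refine le_trans ?_ h1
        rw [hg]
        calc 2 * (c0 * κ / 2 * (M : ℝ) ^ (s - 1)) = c0 * (M : ℝ) ^ (s - 1) * κ := by ring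
          _ ≤ c0 * (M : ℝ) ^ (s - 1) * ((x.totient : ℝ) / x) :=
              mul_le_mul_of_nonneg_left hφ (by positivity)
      have h6 : FF A a r b x < g := lt_of_le_of_lt h2 (lt_of_lt_of_le hx3 h4)
      have h7 : g ≤ GG A a r b q₀ H₀ x - FF A a r b x := by linarith
      calc g ^ 2 ≤ (GG A a r b q₀ H₀ x - FF A a r b x) ^ 2 :=
            pow_le_pow_left₀ hgpos.le h7 2
        _ = _ := by ring
  have hc1 : (S1.card : ℝ) ≤ η / 2 * b := by
    refine (hT N).trans (le_of_eq ?_)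
    rw [hN]
    push_cast
    have : (5 + (r : ℝ)) ≠ 0 := by positivity
    field_simp
    ring
  have hc2 : (S2.card : ℝ) ≤ η / 2 * b := by
    have h1 := J1_cheb (fun x : ℕ => FF A a r b x - GG A a r b q₀ H₀ x) M g _ hgpos hL2 S2
      (fun x hx => by
        have hx' := Finset.mem_filter.1 hx
        exact ⟨Finset.mem_range.1 hx'.1, hx'.2⟩)
    refine h1.trans ?_
    have h2 : (M : ℝ) ^ (2 * s - 1) = ((M : ℝ) ^ (s - 1)) ^ 2 * M := by
      rw [show 2 * s - 1 = (s - 1) + (s - 1) + 1 by ring, Real.rpow_add hMpos,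
        Real.rpow_add hMpos, Real.rpow_one]
      ring
    have h3 : C * (2 : ℝ) ^ (-((2 * s - 3) / 4 * (t₀ : ℝ))) * (M : ℝ) ^ (2 * s - 1) / g ^ 2 =
        (4 * C / (c0 * κ) ^ 2 * (20 * a * (r + 3))) *
          (2 : ℝ) ^ (-((2 * s - 3) / 4 * (t₀ : ℝ))) * b := by
      rw [h2, hg, ← mul_assoc]
      have hne : ((M : ℝ) ^ (s - 1)) ≠ 0 := hMs.ne'
      rw [show C * (2 : ℝ) ^ (-((2 * s - 3) / 4 * (t₀ : ℝ))) * ((M : ℝ) ^ (s - 1)) ^ 2 * M /
          (c0 * κ / 2 * (M : ℝ) ^ (s - 1)) ^ 2 =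
          4 * C / (c0 * κ) ^ 2 * (2 : ℝ) ^ (-((2 * s - 3) / 4 * (t₀ : ℝ))) * M by
        field_simp; ring]
      rw [hMR]
      ring
    rw [h3]
    refine mul_le_mul_of_nonneg_right ?_ (by positivity)
    rw [lt_div_iff₀ hD] at ht₀1
    linarith [mul_comm (4 * C / (c0 * κ) ^ 2 * (20 * (a : ℝ) * (r + 3)))
      ((2 : ℝ) ^ (-((2 * s - 3) / 4 * (t₀ : ℝ))))]
  calc _ ≤ ((S1 ∪ S2).card : ℝ) := by exact_mod_cast Finset.card_le_card hsub
    _ ≤ (S1.card : ℝ) + S2.card := by exact_mod_cast Finset.card_union_le S1 S2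
    _ ≤ η / 2 * b + η / 2 * b := add_le_add hc1 hc2
    _ = η * b := by ring

end Pool.Agent.LibZD69
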