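import Pool.Agent.LibZD69.J0
import Pool.Agent.LibZD69.J1
import Pool.Agent.LibZD69.J2
import Pool.Agent.LibZD69.J3
import Pool.Agent.LibZD69.I5

set_option autoImplicit false

namespace Pool.Agent.LibZD69

open Pool.Agent.LibNZ69

/-- Row J4a (MEDIUM). `window2` with `η/8`, `density_of_windows2` with `R = 5 + r` and
`S = {x : #{z ∈ wP A x : nz z = x} < c x^(s-1)}`, `card_le_numer`. (For `d ≥ 1` not in `S`:
`(numer A d).ncard ≥ c d^(s-1) > 0`, so `d ≥ 2`.) -/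
theorem main_PB2 {A : Finset ℕ} {a : ℕ} {s : ℝ} (hp : PB A a s) (ε : ℝ) (hε : 0 < ε) :
    ∃ c : ℝ, 0 < c ∧ ∃ N₀ : ℕ, ∀ N : ℕ, N₀ ≤ N →
      (1 - ε) * N ≤ (({d : ℕ | 2 ≤ d ∧ d ≤ N ∧
        c * (d : ℝ) ^ (s - 1) ≤ ((numer A d).ncard : ℝ)}.ncard : ℕ) : ℝ) := by
  classical
  obtain ⟨r, hr⟩ := window2 hp
  obtain ⟨c, hc, b₀, hb⟩ := hr (ε / 8) (by positivity)
  obtain ⟨S, hS⟩ : ∃ S : Set ℕ, ∀ x : ℕ, x ∈ S ↔
      ((((wP A x).filter (fun z => nz z = (x : ℤ))).card : ℝ) < c * (x : ℝ) ^ (s - 1)) :=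
    ⟨{x : ℕ | (((wP A x).filter (fun z => nz z = (x : ℤ))).card : ℝ) < c * (x : ℝ) ^ (s - 1)},
      fun x => Iff.rfl⟩
  obtain ⟨N₀, hN⟩ := density_of_windows2 S (5 + r) (by omega) (ε / 8) (by positivity) b₀
    (fun b hb0 => by
      refine le_trans (le_of_eq ?_) (hb b hb0)
      rw [Finset.filter_congr fun x _ => hS x])
  refine ⟨c, hc, N₀, fun N hN0 => ?_⟩
  have h1 := hN N hN0
  have hA : ∀ y ∈ A, 1 ≤ y := fun y hy => (hp.dig y hy).1
  -- the good integers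
  have hsub : (((Finset.range (N + 1)).filter (fun x => ¬ x ∈ S)).erase 0 : Finset ℕ) ⊆
      (Finset.range (N + 1)).filter (fun d => 2 ≤ d ∧ d ≤ N ∧
        c * (d : ℝ) ^ (s - 1) ≤ ((numer A d).ncard : ℝ)) := by
    intro d hd
    rw [Finset.mem_erase, Finset.mem_filter] at hd
    obtain ⟨hd0, hdN, hdS⟩ := hd
    rw [Finset.mem_filter]
    rw [hS, not_lt] at hdS
    have h2 : ((wP A d).filter (fun z => nz z = (d : ℤ))).card ≤ (numer A d).ncard :=
      card_le_numer A hA hp.two d _ (fun z hz => by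
        rw [Finset.mem_filter, mem_wP hA] at hz
        exact ⟨hz.1.1, hz.2⟩)
    have h3 : c * (d : ℝ) ^ (s - 1) ≤ ((numer A d).ncard : ℝ) :=
      le_trans hdS (by exact_mod_cast h2)
    have hdpos : (0 : ℝ) < (d : ℝ) := by
      have : 0 < d := Nat.pos_of_ne_zero hd0
      exact_mod_cast this
    have h4 : (0 : ℝ) < ((numer A d).ncard : ℝ) :=
      lt_of_lt_of_le (mul_pos hc (Real.rpow_pos_of_pos hdpos _)) h3
    have h5 : 0 < (numer A d).ncard := by exact_mod_cast h4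
    have h6 : (numer A d).Nonempty := by
      rw [Set.nonempty_iff_ne_empty]
      intro he
      rw [he, Set.ncard_empty] at h5
      omega
    obtain ⟨b, hb1, hb2, -⟩ := h6
    have h7 := Finset.mem_range.1 hdN
    exact ⟨hdN, by omega, by omega, h3⟩
  have hset : {d : ℕ | 2 ≤ d ∧ d ≤ N ∧ c * (d : ℝ) ^ (s - 1) ≤ ((numer A d).ncard : ℝ)} =
      (((Finset.range (N + 1)).filter (fun d => 2 ≤ d ∧ d ≤ N ∧
        c * (d : ℝ) ^ (s - 1) ≤ ((numer A d).ncard : ℝ)) : Finset ℕ) : Set ℕ) := by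
    ext x
    rw [Finset.mem_coe, Finset.mem_filter, Finset.mem_range]
    constructor
    · intro hx
      exact ⟨by have := hx.2.1; omega, hx⟩
    · intro hx
      exact hx.2
  rw [hset, Set.ncard_coe_finset]
  have hadd : ((Finset.range (N + 1)).filter (fun x => x ∈ S)).card +
      ((Finset.range (N + 1)).filter (fun x => ¬ x ∈ S)).card = N + 1 := by
    rw [Finset.card_filter_add_card_filter_not, Finset.card_range]
  have h8 := Finset.card_le_card hsub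
  have h9 := Finset.pred_card_le_card_erase
    (s := (Finset.range (N + 1)).filter (fun x => ¬ x ∈ S)) (a := 0)
  have h10 : N ≤ ((Finset.range (N + 1)).filter (fun x => x ∈ S)).card +
      ((Finset.range (N + 1)).filter (fun d => 2 ≤ d ∧ d ≤ N ∧
        c * (d : ℝ) ^ (s - 1) ≤ ((numer A d).ncard : ℝ))).card := by omega
  have h11 : (N : ℝ) ≤ (((Finset.range (N + 1)).filter (fun x => x ∈ S)).card : ℝ) +
      (((Finset.range (N + 1)).filter (fun d => 2 ≤ d ∧ d ≤ N ∧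
        c * (d : ℝ) ^ (s - 1) ≤ ((numer A d).ncard : ℝ))).card : ℝ) := by exact_mod_cast h10
  have hN' : (0 : ℝ) ≤ (N : ℝ) := Nat.cast_nonneg _
  have h12 : 0 ≤ ε * (N : ℝ) := by positivity
  linarith

/-- Row J4b (SHORT/MEDIUM). `cert_of_dimH` for some `σ > 3/2` with `σ/2 < dimH`, `exists_PB2`; then for
every `t` with `0 < t`, `ENNReal.ofReal (t/2) < dimH` also `t ≤ s` (`cert_of_dimH`), so
`2 (dimH …).toReal ≤ s`; `dimH ≤ 1` is finite (`dimH_le_finrank`… or `s ≤ 2`-type argument: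
`dimH (E A) ≤ dimH univ = 1`). `main_PB2`, `d ≥ 1`. -/
theorem main_dim2 (A : Finset ℕ) (hA : ∀ x ∈ A, 1 ≤ x) (h1 : 1 ∈ A) (h2 : 2 ∈ A)
    (hd : 3 / 4 < dimH (Pool.Agent.LibNW69.E A)) (ε : ℝ) (hε : 0 < ε) :
    ∃ c : ℝ, 0 < c ∧ ∃ N₀ : ℕ, ∀ N : ℕ, N₀ ≤ N →
      (1 - ε) * N ≤ (({d : ℕ | 2 ≤ d ∧ d ≤ N ∧
        c * (d : ℝ) ^ (2 * (dimH (Pool.Agent.LibNW69.E A)).toReal - 1) ≤
          ((numer A d).ncard : ℝ)}.ncard : ℕ) : ℝ) := by
  have htop : dimH (Pool.Agent.LibNW69.E A) ≠ ⊤ := by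
    have h3 : dimH (Pool.Agent.LibNW69.E A) ≤ dimH (Set.univ : Set ℝ) :=
      dimH_mono (Set.subset_univ _)
    rw [Real.dimH_univ] at h3
    exact ne_top_of_le_ne_top ENNReal.one_ne_top h3
  have hcert : ∀ t : ℝ, 0 < t → t < 2 * (dimH (Pool.Agent.LibNW69.E A)).toReal →
      ∃ c : ℝ, 0 < c ∧ ∀ l : ℕ, c ≤ ZZ A t l := by
    intro t ht htd
    obtain ⟨c, hc0, hc⟩ := Pool.Agent.LibNW69.cert_of_dimH A hA t ht (by
      rw [ENNReal.ofReal_lt_iff_lt_toReal (by linarith) htop]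
      linarith)
    refine ⟨c, hc0, fun l => ?_⟩
    refine le_trans (hc l) (le_of_eq ?_)
    unfold ZZ
    refine Finset.sum_congr rfl fun w _ => ?_
    rw [act01]
    push_cast
    rfl
  have hd' : (3 / 4 : ℝ) < (dimH (Pool.Agent.LibNW69.E A)).toReal := by
    have h3 : ((3 / 4 : ENNReal)).toReal < (dimH (Pool.Agent.LibNW69.E A)).toReal :=
      ENNReal.toReal_strict_mono htop hd
    refine lt_of_eq_of_lt ?_ h3
    rw [ENNReal.toReal_div]
    norm_num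
  obtain ⟨σ, hσ1, hσ2⟩ := exists_between (show (3 / 2 : ℝ) <
    2 * (dimH (Pool.Agent.LibNW69.E A)).toReal by linarith)
  obtain ⟨c, hc0, hc⟩ := hcert σ (by linarith) hσ2
  obtain ⟨s, hs, hmax⟩ := exists_PB2 A (max 4 (A.sup id + 1)) h1 h2 (fun x hx => by
      refine ⟨hA x hx, ?_⟩
      have h3 : id x ≤ A.sup id := Finset.le_sup hx
      have h4 : x ≤ A.sup id := h3
      have h5 := le_max_right 4 (A.sup id + 1)
      omega) (le_max_left _ _) σ c hσ1 hc0 hc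
  have hle : 2 * (dimH (Pool.Agent.LibNW69.E A)).toReal ≤ s := by
    refine le_of_forall_lt fun t ht => ?_
    obtain ⟨t', ht1, ht2⟩ := exists_between ht
    by_cases hp : 0 < t'
    · obtain ⟨c', hc1, hc2⟩ := hcert t' hp ht2
      exact lt_of_lt_of_le ht1 (hmax t' c' hc1 hc2)
    · have := hs.s1
      linarith
  obtain ⟨C, hC, N₀, hN⟩ := main_PB2 hs ε hε
  refine ⟨C, hC, N₀, fun N hN0 => le_trans (hN N hN0) ?_⟩
  have hsub : {d : ℕ | 2 ≤ d ∧ d ≤ N ∧ C * (d : ℝ) ^ (s - 1) ≤ ((numer A d).ncard : ℝ)} ⊆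
      {d : ℕ | 2 ≤ d ∧ d ≤ N ∧
        C * (d : ℝ) ^ (2 * (dimH (Pool.Agent.LibNW69.E A)).toReal - 1) ≤
          ((numer A d).ncard : ℝ)} := by
    intro d hd
    refine ⟨hd.1, hd.2.1, le_trans ?_ hd.2.2⟩
    have h6 : (1 : ℝ) ≤ (d : ℝ) := by
      have h7 : 1 ≤ d := le_trans (by norm_num) hd.1
      exact_mod_cast h7
    exact mul_le_mul_of_nonneg_left (Real.rpow_le_rpow_of_exponent_le h6 (by linarith)) hC.le
  have hfin : {d : ℕ | 2 ≤ d ∧ d ≤ N ∧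
        C * (d : ℝ) ^ (2 * (dimH (Pool.Agent.LibNW69.E A)).toReal - 1) ≤
          ((numer A d).ncard : ℝ)}.Finite :=
    (Set.finite_Iic N).subset fun d hd => hd.2.1
  exact_mod_cast Set.ncard_le_ncard hsub hfin

end Pool.Agent.LibZD69
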